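import Pool.Agent.Work.MP_340ce7_lc.Gen.L

namespace Pool.Agent.Work.MP_340ce7_lc

open Set Filter Topology

theorem E_near {A1 : Finset ℝ} {m : ℝ → ℤ} {x : ℝ → ℝ} {ρ η : ℝ} (ρ0 : 0 < ρ)
    (hC : (∑ a ∈ A1, |(m a : ℝ)| + 1) * ρ ≤ η) (h : ∀ a ∈ A1, Near (x a) ρ) :
    Near (∑ a ∈ A1, (m a : ℝ) * x a) η := by
  classical
  have h' : ∀ a, ∃ l : ℤ, a ∈ A1 → |x a - l| < ρ := fun a => by
    by_cases ha : a ∈ A1
    · obtain ⟨l, hl⟩ := h a ha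
      exact ⟨l, fun _ => hl⟩
    · exact ⟨0, fun hh => absurd hh ha⟩
  choose l hl using h'
  refine ⟨∑ a ∈ A1, m a * l a, ?_⟩
  have e : ∑ a ∈ A1, (m a : ℝ) * x a - ((∑ a ∈ A1, m a * l a : ℤ) : ℝ) =
      ∑ a ∈ A1, (m a : ℝ) * (x a - l a) := by
    push_cast
    rw [← Finset.sum_sub_distrib]
    exact Finset.sum_congr rfl fun a _ => by ring
  rw [e]
  have b1 : |∑ a ∈ A1, (m a : ℝ) * (x a - l a)| ≤ ∑ a ∈ A1, |(m a : ℝ)| * ρ := by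
    refine (Finset.abs_sum_le_sum_abs _ _).trans (Finset.sum_le_sum fun a ha => ?_)
    rw [abs_mul]
    exact mul_le_mul_of_nonneg_left (hl a ha).le (abs_nonneg _)
  rw [← Finset.sum_mul] at b1
  linarith only [b1, hC, ρ0]

theorem E_lin (p : ℝ →ₗ[ℚ] ℝ) {A1 : Finset ℝ} {m : ℝ → ℤ} {N : ℕ} {β : ℝ}
    (h : (N : ℝ) * β = ∑ a ∈ A1, (m a : ℝ) * a) :
    (N : ℝ) * p β = ∑ a ∈ A1, (m a : ℝ) * p a := by
  have h1 := congrArg p h
  rw [map_sum, ← nsmul_eq_mul, map_nsmul, nsmul_eq_mul] at h1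
  rw [h1]
  exact Finset.sum_congr rfl fun a _ => by rw [← zsmul_eq_mul, map_zsmul, zsmul_eq_mul]

theorem E_rho {Γ : Set ℝ} (hΓ : Γ.Finite) (f : ℝ → ℝ) (hf : ∀ β, 0 ≤ f β) {η : ℝ} (hη : 0 < η) :
    ∃ ρ : ℝ, 0 < ρ ∧ ∀ β ∈ Γ, (f β + 1) * ρ ≤ η := by
  have s0 : 0 ≤ ∑ β ∈ hΓ.toFinset, f β := Finset.sum_nonneg fun β _ => hf β
  have s1 : 0 < ∑ β ∈ hΓ.toFinset, f β + 1 := by linarith only [s0]
  refine ⟨η / (∑ β ∈ hΓ.toFinset, f β + 1), div_pos hη s1, fun β hβ => ?_⟩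
  have s2 : f β ≤ ∑ β ∈ hΓ.toFinset, f β :=
    Finset.single_le_sum (fun β _ => hf β) (hΓ.mem_toFinset.2 hβ)
  rw [← mul_div_assoc, div_le_iff₀ s1, mul_comm]
  exact mul_le_mul_of_nonneg_left (by linarith only [s2]) hη.le

/-- A definable set below a flat wall which contains a box gives an edge. -/
theorem edge_of_half {D : Set ℤ → Prop} (hD : Good1 D) {γ : ℝ} (hγ : pi0 γ = 0) (h0 : γ ≠ 0)
    (hN : Nb D γ) {Z Φ : Set ℤ} (hZ : D Z) (hΦ : Φ.Finite) {Γ : Set ℝ} (hΓ : Γ.Finite)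
    (hΓp : ∀ β ∈ Γ, pi0 β = 0) (p : ℝ →ₗ[ℚ] ℝ) {η : ℝ} (hη : 0 < η)
    (h1 : ∀ t ∈ Z, ∃ n : ℤ, p γ - 1 / 4 < t * γ - n ∧ t * γ - n ≤ p γ)
    (h2 : ∀ t : ℤ, t ∉ Φ → (∀ β ∈ Γ, Near (t * β - p β) η) → In (t * γ) (p γ - η) (p γ) →
      t ∈ Z) : Full D γ ∧ EdgeAt D γ (p γ) := by
  have hi : Irrational γ := irr_of_pure hγ h0
  obtain ⟨A1, hA, hα, -, N, hN0, m, hm⟩ := coords hΓ hΓp hγ h0
  have M0 : (0 : ℝ) < N := Nat.cast_pos.2 hN0
  have M1 : (1 : ℝ) ≤ N := by exact_mod_cast hN0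
  obtain ⟨ρ, ρ0, hρ⟩ := E_rho hΓ (fun β => ∑ a ∈ A1, |(m β a : ℝ)|)
    (fun β => Finset.sum_nonneg fun a _ => abs_nonneg _) hη
  obtain ⟨c', e1⟩ : ∃ c' : ℝ, N * c' = p γ := ⟨p γ / N, mul_div_cancel₀ _ M0.ne'⟩
  have e2 : p γ / N = c' := by rw [← e1, mul_div_cancel_left₀ _ M0.ne']
  obtain ⟨r, hr⟩ := exists_nat_gt (1 / ρ)
  have r0 : 0 < r := Nat.cast_pos.1 ((one_div_pos.2 ρ0).trans hr)
  have r1 : (1 : ℝ) ≤ r := by exact_mod_cast r0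
  have r2 : 1 < (r + 1) * ρ := by linarith only [ρ0, hr, (div_lt_iff₀ ρ0).1 hr]
  obtain ⟨κ, κ0, hκ, hκ'⟩ : ∃ κ : ℝ, 0 < κ ∧ (r + 1) * κ ≤ 1 / 4 ∧ N * κ ≤ 1 / 4 :=
    ⟨min (1 / 4 / (r + 1)) (1 / 4 / N), lt_min (by positivity) (by positivity),
      (le_div_iff₀' (by positivity)).1 (min_le_left _ _),
      (le_div_iff₀' M0).1 (min_le_right _ _)⟩
  obtain ⟨η2, η0, V2, hV2, v1, v2⟩ := hN κ κ0
  have m0 : 0 < min (η2 / 2) κ := lt_min (half_pos η0) κ0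
  obtain ⟨g, -, jg, g1, g2⟩ := kron0 hi (a := c' - min (η2 / 2) κ) (b := c' + min (η2 / 2) κ)
    (by linarith only [m0]) finite_empty
  have m1 := min_le_left (η2 / 2) κ
  have m2 := min_le_right (η2 / 2) κ
  obtain ⟨W, hW, z0⟩ : ∃ W, D W ∧ ∀ t, t ∈ W ↔ (N : ℤ) * t + 0 ∈ Z ∧ 1 * t + -g ∈ V2 :=
    ⟨_, hD.inter (hD.aff N 0 hZ) (hD.aff 1 (-g) hV2), fun _ => Iff.rfl⟩
  have z1 : ∀ t ∈ W, ∃ j : ℤ, c' - 2 * κ < t * γ - j ∧ t * γ - j ≤ c' := fun t ht => by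
    obtain ⟨a, d⟩ := (z0 t).1 ht
    obtain ⟨n, j1, j2⟩ := h1 _ a
    obtain ⟨i, hi⟩ := v2 _ d
    obtain ⟨i1, i2⟩ := abs_lt.1 hi
    push_cast at i1 i2 j1 j2
    have k1 : c' - 2 * κ < t * γ - (i + jg) := by linarith only [g1, m2, i1]
    have k2 : t * γ - (i + jg) < c' + 2 * κ := by linarith only [g2, m2, i2]
    have k3 := mul_lt_mul_of_pos_left k1 M0
    have k4 := mul_lt_mul_of_pos_left k2 M0
    have i3 : (n : ℝ) < N * (i + jg) + 1 := by linarith only [k4, j1, e1, hκ']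
    have i4 : (N : ℝ) * (i + jg) < n + 1 := by linarith only [k3, j2, e1, hκ']
    have i5 : n < N * (i + jg) + 1 := by exact_mod_cast i3
    have i6 : N * (i + jg) < n + 1 := by exact_mod_cast i4
    have i7 : n = N * (i + jg) := by omega
    have i8 : (n : ℝ) = N * (i + jg) := by exact_mod_cast i7
    refine ⟨i + jg, ?_, ?_⟩
    · push_cast
      exact k1
    · push_cast
      exact le_of_mul_le_mul_left (by linarith only [j2, e1, i8]) M0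
  obtain ⟨ξ1, x0, x1, x2, x3⟩ : ∃ ξ1 : ℝ, 0 < ξ1 ∧ ξ1 ≤ ρ ∧ ξ1 ≤ η2 / 2 ∧ N * ξ1 ≤ η :=
    ⟨min (min ρ (η2 / 2)) (η / N), lt_min (lt_min ρ0 (half_pos η0)) (by positivity),
      (min_le_left _ _).trans (min_le_left _ _), (min_le_left _ _).trans (min_le_right _ _),
      (le_div_iff₀' M0).1 (min_le_right _ _)⟩
  have hf : {k : ℤ | (N : ℤ) * k + 0 ∈ Φ}.Finite := by
    refine hΦ.preimage (f := fun k : ℤ => (N : ℤ) * k + 0) fun a _ b _ hab => ?_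
    have hN1 : (N : ℤ) ≠ 0 := by exact_mod_cast hN0.ne'
    exact mul_left_cancel₀ hN1 (add_right_cancel hab)
  have z2 : Box A1 γ {k : ℤ | (N : ℤ) * k + 0 ∈ Φ} (c' - ξ1) c' ρ (fun a => p a / N) W :=
    fun t ht ⟨mm, a1, a2⟩ hβ => by
    refine (z0 t).2 ⟨h2 _ ht (fun β hb => ?_) ⟨N * mm, ?_, ?_⟩, v1 _ ⟨mm - jg, ?_⟩⟩
    · have e3 : (((N : ℤ) * t + 0 : ℤ) : ℝ) * β - p β =
          ∑ a ∈ A1, (m β a : ℝ) * (t * a - p a / N) := by
        have f1 := hm β hb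
        have f2 := E_lin p f1
        have f3 : p β = ∑ a ∈ A1, (m β a : ℝ) * (p a / N) := by
          refine mul_left_cancel₀ M0.ne' ?_
          rw [f2, Finset.mul_sum]
          exact Finset.sum_congr rfl fun a _ => by field_simp
        have f4 : (((N : ℤ) * t + 0 : ℤ) : ℝ) * β = ∑ a ∈ A1, (m β a : ℝ) * (t * a) := by
          have f5 : (((N : ℤ) * t + 0 : ℤ) : ℝ) * β = t * (N * β) := by
            push_cast
            ring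
          rw [f5, f1, Finset.mul_sum]
          exact Finset.sum_congr rfl fun a _ => by ring
        rw [f4, f3, ← Finset.sum_sub_distrib]
        exact Finset.sum_congr rfl fun a _ => by ring
      rw [e3]
      refine E_near ρ0 (hρ β hb) fun a ha => ?_
      by_cases e : a = γ
      · rw [e, e2]
        exact ⟨mm, abs_lt.2 ⟨by linarith only [a1, x1], by linarith only [a2, ρ0]⟩⟩
      · exact hβ a ha e
    · have a3 := mul_lt_mul_of_pos_left a1 M0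
      push_cast
      linarith only [a3, e1, x3]
    · have a4 := mul_lt_mul_of_pos_left a2 M0
      push_cast
      linarith only [a4, e1]
    · push_cast
      exact abs_lt.2 ⟨by linarith only [g2, m1, x2, a1], by linarith only [g1, m1, a2, η0]⟩
  obtain ⟨w, w0, w1, w2⟩ : ∃ w : ℝ, 0 < w ∧ w ≤ (r + 1) * ξ1 ∧ w ≤ 1 / 2 :=
    ⟨min ((r + 1) * ξ1) (1 / 2), lt_min (by positivity) (by positivity), min_le_left _ _,
      min_le_right _ _⟩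
  have hE : EdgeAt D γ ((r + 1) * c') := by
    refine ⟨_, w, w0, hD.conv 1 (-r) 0 hW hW, fun t => ⟨fun ⟨mm, a1, a2⟩ => ?_,
      fun ⟨mm, a1, a2⟩ ⟨u, u1, u2⟩ => ?_⟩⟩
    · obtain ⟨u, u1, u2⟩ := fill hA subset_rfl hα hf z2 r0 r2 t
        ⟨mm, by linarith only [w1, a1], by linarith only [a2]⟩
      exact ⟨u, u1, by rwa [add_zero, neg_mul, ← sub_eq_add_neg, one_mul]⟩
    · obtain ⟨i, i1, i2⟩ := z1 _ u1
      obtain ⟨j, j1, j2⟩ := z1 _ u2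
      have a5 := mul_le_mul_of_nonneg_left i1.le (Nat.cast_nonneg (α := ℝ) r)
      have a6 := mul_le_mul_of_nonneg_left i2 (Nat.cast_nonneg (α := ℝ) r)
      push_cast at j1 j2
      have b1 : (mm : ℝ) < r * i + j := by linarith only [a1, a6, j2]
      have b2 : (r : ℝ) * i + j < mm + 1 := by linarith only [hκ, w2, a2, a5, j1]
      have b3 : mm < r * i + j := by exact_mod_cast b1
      have b4 : (r : ℤ) * i + j < mm + 1 := by exact_mod_cast b2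
      omega
  have hF : Full D γ := by
    obtain ⟨Q, w', w0', hQ, hq⟩ := hE
    exact full_of_nb_edge hD hi hN ⟨Q, _, w', w0', hQ, hq⟩
  refine ⟨hF, ?_⟩
  obtain ⟨E, -, -, hE', -⟩ := exists_sub hD hi hF
  have h3 := (hE' _).1 (rat_mul_mem ((hE' _).2 hE) ((N : ℚ) / (r + 1)))
  have e4 : (((N : ℚ) / (r + 1) : ℚ) : ℝ) * ((r + 1) * c') = p γ := by
    rw [← e1]
    push_cast
    field_simp
  rwa [e4] at h3

end Pool.Agent.Work.MP_340ce7_lc
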