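import Pool.Agent.Work.MP_340ce7_lc.Gen.L

namespace Pool.Agent.Work.MP_340ce7_lc

open Set Filter Topology

variable {D : Set ℤ → Prop}

theorem nb_div (hD : Good1 D) {γ : ℝ} (hγ : Irrational γ) (h : Nb D γ) {N : ℕ} (hN : 0 < N) :
    Nb D (γ / N) := by
  intro κ hκ
  obtain ⟨η, hη, V, hV, h1, h2⟩ := h (κ / 2) (by linarith)
  have hN' : (0 : ℝ) < N := by exact_mod_cast hN
  have hNz : (0 : ℤ) < N := by exact_mod_cast hN
  have hk : ∀ s : ℤ, ∃ k n : ℤ, |s * (γ / N) + k * γ - n| < min (κ / 2) (η / 2) := fun s => by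
    have h3 : 0 < min (κ / 2) (η / 2) := lt_min (by linarith) (by linarith)
    obtain ⟨k, -, n, a1, a2⟩ := kron0 hγ (a := -(s * (γ / N)) - min (κ / 2) (η / 2))
      (b := -(s * (γ / N)) + min (κ / 2) (η / 2)) (by linarith) finite_empty
    exact ⟨k, n, abs_lt.2 ⟨by linarith, by linarith⟩⟩
  choose k n hkn using hk
  refine ⟨η / 2, by linarith,
    {t | ∃ s ∈ Ico (0 : ℤ) N, ∃ u ∈ V, 1 * t + -(N : ℤ) * u + 0 ∈ ({s + N * k s} : Set ℤ)},
    hD.ex (finite_Ico _ _) fun s _ => hD.conv 1 (-N) 0 hV (hD.single _), ?_, ?_⟩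
  · rintro t ⟨j, hj⟩
    have e := Int.mul_ediv_add_emod t N
    refine ⟨t % N, ⟨Int.emod_nonneg _ hNz.ne', Int.emod_lt_of_pos _ hNz⟩, t / N - k (t % N),
      h1 _ ⟨j - n (t % N), ?_⟩, ?_⟩
    · have a1 := abs_lt.1 hj
      have a2 := abs_lt.1 ((hkn (t % N)).trans_le (min_le_right _ _))
      have e' : (t : ℝ) = N * ((t / N : ℤ) : ℝ) + ((t % N : ℤ) : ℝ) := by exact_mod_cast e.symm
      have e2 : ((t / N : ℤ) : ℝ) * γ = t * (γ / N) - ((t % N : ℤ) : ℝ) * (γ / N) := by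
        conv_rhs => rw [e']
        field_simp
        ring
      rw [Int.cast_sub, Int.cast_sub, sub_mul, e2]
      exact abs_lt.2 ⟨by linarith, by linarith⟩
    · rw [mem_singleton_iff]
      linear_combination -e
  · rintro t ⟨s, -, u, hu, e⟩
    obtain ⟨j, hj⟩ := h2 u hu
    have e' : (t : ℝ) = s + N * k s + N * u := by
      have : t = s + N * k s + N * u := by rw [mem_singleton_iff] at e; linear_combination e
      exact_mod_cast this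
    have e2 : (t : ℝ) * (γ / N) = s * (γ / N) + k s * γ + u * γ := by
      rw [e']
      field_simp
    have a1 := abs_lt.1 hj
    have a2 := abs_lt.1 ((hkn s).trans_le (min_le_left _ _))
    refine ⟨n s + j, ?_⟩
    rw [e2, Int.cast_add]
    exact abs_lt.2 ⟨by linarith, by linarith⟩

theorem nb_neg {γ : ℝ} (h : Nb D γ) : Nb D (-γ) := by
  intro κ hκ
  obtain ⟨η, hη, V, hV, h1, h2⟩ := h κ hκ
  have key : ∀ {x d : ℝ}, Near x d → Near (-x) d := fun ⟨n, hn⟩ =>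
    ⟨-n, by rw [← abs_neg]; push_cast; rwa [neg_sub, neg_sub_neg]⟩
  refine ⟨η, hη, V, hV, fun t ht => h1 t ?_, fun t ht => ?_⟩
  · simpa using key ht
  · simpa using key (h2 t ht)

theorem N_back (hD : Good1 D) {γ : ℝ} (hγ : Irrational γ) {M : ℕ} (hM : 0 < M)
    (h : Nb D (M * γ)) : Nb D γ := by
  have h1 := nb_div hD (hγ.natCast_mul hM.ne') h hM
  rwa [mul_div_cancel_left₀ _ (by exact_mod_cast hM.ne')] at h1

/-- An arc makes its direction full. -/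
theorem full_of_arc (hD : Good1 D) {γ r : ℝ} (hγ : Irrational γ)
    (h : D {t : ℤ | H (t * γ + r)}) : Full D γ := by
  obtain ⟨W, hW, -⟩ := tame_of_pat (G := {(γ, 1, r)}) (Φ := ∅) (Y := {t : ℤ | H (t * γ + r)})
    (A0 := {γ}) (fun t t' _ _ h1 => by simpa using (h1 _ (Finset.mem_singleton_self _)).1)
    (by simp)
  obtain ⟨M, hM, h1⟩ := nb_of_dep (ind_single hγ) hD (A0 := {γ}) (by simp)
    (Finset.mem_singleton_self γ) finite_empty h hW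
    ⟨1 / 2 - r, 1 / 2, 1, 0, by norm_num, one_pos, fun t _ _ => ⟨fun ⟨n, h1, h2⟩ =>
      (H_iff _).2 ⟨n, by linarith, by linarith⟩, fun ⟨n, h1, h2⟩ =>
      (not_H_iff _).2 ⟨n + 1, by push_cast; linarith, by push_cast; linarith⟩⟩⟩
  obtain ⟨Q, η, h2⟩ := edgeAt_of_H hD h
  exact full_of_nb_edge hD hγ (N_back hD hγ hM h1) ⟨Q, -r, η, h2⟩

theorem N_gap {y x : ℝ} {L : ℤ} (h1 : x < |y|) (h2 : |y| ≤ 1 / 8) (hx : 0 < x)
    (h3 : |(L : ℝ) / 2 - y| < x / 2) : False := by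
  have a1 := abs_le.1 h2
  have a2 := abs_lt.1 h3
  have b1 : (-1 : ℝ) < L := by linarith
  have b2 : (L : ℝ) < 1 := by linarith
  have b3 : -1 < L := by exact_mod_cast b1
  have b4 : L < 1 := by exact_mod_cast b2
  obtain rfl : L = 0 := by omega
  rw [Int.cast_zero, zero_div, zero_sub, abs_neg] at h3
  linarith

theorem N_walls (hD : Good1 D) {A1 : Finset ℝ} (hA : ∀ a ∈ A1, pi0 a = 0) {γ : ℝ} (hγ : γ ∈ A1)
    (h0 : γ ≠ 0) {G : Finset (ℝ × ℝ)} (hp : ∀ q ∈ G, pi0 q.1 = 0) (mq : ℝ × ℝ → ℤ)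
    (hmq : ∀ q ∈ G, (∀ c : ℚ, q.1 ≠ c * γ) ∨ q.1 = mq q * γ) {Φ Y : Set ℤ} (hΦ : Φ.Finite)
    (hY : D Y) (hpat : ∀ t t' : ℤ, t ∉ Φ → t' ∉ Φ →
      (∀ q ∈ G, (H (t * q.1 + q.2) ↔ H (t' * q.1 + q.2))) → t ∈ Y → t' ∈ Y)
    (hdep : Dep A1 Φ Y γ) :
    ∃ (K : Finset ℝ) (ρ : ℝ) (θ : ℝ → ℝ), 0 < ρ ∧ ∀ ε : ℝ, 0 < ε → ∃ (Z Φ' : Set ℤ) (p q : ℝ),
      D Z ∧ Φ'.Finite ∧ p < q ∧ Box A1 γ Φ' p q ρ θ Z ∧
        ∀ t ∈ Z, ∃ k ∈ K, Near (t * γ - k) ε := by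
  classical
  obtain ⟨c, ε₀, ρ, θ, hε₀, hρ, hdep⟩ := hdep
  have hS : {d : ℝ | d ∈ Prod.fst '' (G : Set (ℝ × ℝ)) ∧ ∀ c : ℚ, d ≠ c * γ}.Finite :=
    (G.finite_toSet.image _).subset fun _ h => h.1
  obtain ⟨u, hu0, hu⟩ := exists_dir hS fun d hd => hd.2
  obtain ⟨v, hv⟩ := exists_one h0
  have hΓ : ((A1 : Set ℝ) ∪ Prod.fst '' (G : Set (ℝ × ℝ))).Finite :=
    A1.finite_toSet.union (G.finite_toSet.image _)
  have hΓp : ∀ β ∈ (A1 : Set ℝ) ∪ Prod.fst '' (G : Set (ℝ × ℝ)), pi0 β = 0 := by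
    rintro β (h | ⟨q, h, rfl⟩)
    · exact hA β h
    · exact hp q h
  generalize hΓe : (A1 : Set ℝ) ∪ Prod.fst '' (G : Set (ℝ × ℝ)) = Γ at hΓ hΓp
  have mA : ∀ a ∈ A1, a ∈ Γ := fun a h => hΓe ▸ Or.inl h
  have mG : ∀ q ∈ G, q.1 ∈ Γ := fun q h => hΓe ▸ Or.inr ⟨q, h, rfl⟩
  obtain ⟨B, hB1, hB⟩ : ∃ B : ℝ, 1 ≤ B ∧ ∀ β ∈ Γ, |u β| ≤ B ∧ |v β| ≤ B := by
    obtain ⟨B, hB⟩ := (hΓ.image fun β => |u β| + |v β|).bddAbove
    refine ⟨max 1 B, le_max_left _ _, fun β h => ?_⟩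
    have := (hB ⟨β, h, rfl⟩).trans (le_max_right 1 B)
    exact ⟨by linarith [abs_nonneg (v β)], by linarith [abs_nonneg (u β)]⟩
  obtain ⟨μ, hμ, hμ0⟩ := (((eventually_all_finite hS).2 fun d hd =>
    (nhdsWithin_le_nhds (gt_mem_nhds (abs_pos.2 (hu d hd))) :
      ∀ᶠ μ in 𝓝[>] (0 : ℝ), μ < |u d|)).and self_mem_nhdsWithin).exists
  have hμ1 : 0 < μ := hμ0
  refine ⟨G.biUnion fun q => (Finset.Ico 0 (2 * |mq q|)).image
    fun l : ℤ => ((l : ℝ) / 2 - q.2) / mq q, ρ / 2, θ, by linarith, fun ε hε => ?_⟩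
  obtain ⟨m, hm⟩ : ∃ m : ℕ, m = G.card := ⟨_, rfl⟩
  have hm0 : (0 : ℝ) ≤ m := Nat.cast_nonneg _
  obtain ⟨τ, hτ, hτ1, hτ2⟩ : ∃ τ : ℝ, 0 < τ ∧ m * (τ * B) ≤ 1 / 8 ∧ m * (τ * B) ≤ ρ / 8 := by
    have h1 : (0 : ℝ) < 8 * ((m : ℝ) + 1) * B := by positivity
    have h2 : ((m : ℝ) + 1) * (min ρ 1 / (8 * ((m : ℝ) + 1) * B) * B) = min ρ 1 / 8 := by
      field_simp
    have h3 := div_pos (lt_min hρ one_pos) h1
    have h4 := mul_pos h3 (by linarith : 0 < B)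
    exact ⟨_, h3, by linarith [min_le_right ρ 1], by linarith [min_le_left ρ 1]⟩
  have hτμ := mul_pos hτ hμ1
  obtain ⟨e, he, he1, he2, he3, he4⟩ : ∃ e : ℝ, 0 < e ∧ B * e ≤ ε₀ ∧ B * e ≤ ε / 4 ∧
      B * e ≤ ρ / 8 ∧ B * e ≤ τ * μ / 8 := by
    have h1 : B * (min (min ε₀ (ε / 4)) (min (ρ / 8) (τ * μ / 8)) / B) =
        min (min ε₀ (ε / 4)) (min (ρ / 8) (τ * μ / 8)) := by field_simp
    exact ⟨_, by positivity, h1.le.trans ((min_le_left _ _).trans (min_le_left _ _)),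
      h1.le.trans ((min_le_left _ _).trans (min_le_right _ _)),
      h1.le.trans ((min_le_right _ _).trans (min_le_left _ _)),
      h1.le.trans ((min_le_right _ _).trans (min_le_right _ _))⟩
  have he5 : e ≤ B * e := le_mul_of_one_le_left he.le hB1
  obtain ⟨δ, hδ, hδ1, hδ2⟩ : ∃ δ : ℝ, 0 < δ ∧ m * δ ≤ e / 8 ∧ δ ≤ e / 8 := by
    have h1 : (0 : ℝ) < 8 * ((m : ℝ) + 1) := by positivity
    have h2 : 8 * ((m : ℝ) + 1) * (e / (8 * ((m : ℝ) + 1))) = e := by field_simp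
    have h3 := div_pos he h1
    exact ⟨_, h3, by linarith, by linarith [mul_nonneg hm0 h3.le]⟩
  obtain ⟨w, -, hw⟩ := kron_v hΓ hΓp (τ • u) hδ finite_empty
  obtain ⟨s, -, hs⟩ := kron_v hΓ hΓp ((3 * e / 4) • v) hδ finite_empty
  choose! nw hnw using hw
  choose! ns hns using hs
  simp only [LinearMap.smul_apply, smul_eq_mul] at hnw hns
  have w1 : ∀ i : ℕ, i ≤ m → ∀ β ∈ Γ, |i * (w * β - τ * u β - nw β)| ≤ e / 8 :=
    fun i hi β h => (SixA_mul hi (hnw β h)).trans hδ1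
  have w2 : ∀ i : ℕ, i ≤ m → ∀ β ∈ Γ, |i * (τ * u β)| ≤ m * (τ * B) := fun i hi β h => by
    rw [abs_mul, abs_mul, Nat.abs_cast, abs_of_pos hτ]
    exact mul_le_mul (by exact_mod_cast hi) (mul_le_mul_of_nonneg_left (hB β h).1 hτ.le)
      (by positivity) hm0
  have s1 : ∀ β ∈ Γ, |s * β - ns β| ≤ B * e := fun β h => by
    have a1 := abs_lt.1 (hns β h)
    have a2 : |3 * e / 4 * v β| ≤ 3 * e / 4 * B := by
      rw [abs_mul, abs_of_pos (by linarith)]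
      exact mul_le_mul_of_nonneg_left (hB β h).2 (by linarith)
    have a3 := abs_le.1 a2
    exact abs_le.2 ⟨by linarith, by linarith⟩
  have sγ := abs_lt.1 (hns γ (mA γ hγ))
  rw [hv] at sγ
  refine ⟨{t | ∀ i ∈ Iic m, 1 * t + (i : ℕ) * w ∈ Y \ Φ ∧ 1 * t + ((i : ℕ) * w + s) ∈ Yᶜ \ Φ},
    ⋃ i ∈ Iic m, ({t | t + (i : ℕ) * w ∈ Φ} ∪ {t | t + ((i : ℕ) * w + s) ∈ Φ}),
    c - e / 4, c - e / 8, ?_, ?_, by linarith only [he], ?_, ?_⟩
  · exact hD.all (finite_Iic m) fun i _ =>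
      hD.inter (hD.aff 1 _ (hD.diff hY (hD.finite hΦ)))
        (hD.aff 1 _ (hD.diff (hD.compl hY) (hD.finite hΦ)))
  · exact (finite_Iic m).biUnion fun i _ =>
      (hΦ.preimage (add_left_injective _).injOn).union
        (hΦ.preimage (add_left_injective _).injOn)
  · rintro t ht ⟨n, hn1, hn2⟩ hβ i hi
    have hi' : i ≤ m := hi
    have h1 : t + (i : ℤ) * w ∉ Φ := fun h => ht (mem_biUnion hi (Or.inl h))
    have h2 : t + ((i : ℤ) * w + s) ∉ Φ := fun h => ht (mem_biUnion hi (Or.inr h))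
    have h3 := abs_le.1 (w1 i hi' γ (mA γ hγ))
    rw [hu0] at h3
    rw [one_mul]
    refine ⟨⟨(hdep _ h1 fun β h h' => ?_).1 ⟨n + i * nw γ, ?_, ?_⟩, h1⟩,
      ⟨(hdep _ h2 fun β h h' => ?_).2 ⟨n + i * nw γ + ns γ, ?_, ?_⟩, h2⟩⟩
    · obtain ⟨j, hj⟩ := hβ β h h'
      have h4 := abs_le.1 (w1 i hi' β (mA β h))
      have h5 := abs_le.1 (w2 i hi' β (mA β h))
      have h6 := abs_lt.1 hj
      refine ⟨j + i * nw β, abs_lt.2 ⟨?_, ?_⟩⟩ <;> push_cast <;>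
        linarith only [hρ, hτ2, he3, he5, h4.1, h4.2, h5.1, h5.2, h6.1, h6.2]
    · push_cast; linarith only [he, he1, he5, hn1, h3.1]
    · push_cast; linarith only [hn2, h3.2]
    · obtain ⟨j, hj⟩ := hβ β h h'
      have h4 := abs_le.1 (w1 i hi' β (mA β h))
      have h5 := abs_le.1 (w2 i hi' β (mA β h))
      have h6 := abs_lt.1 hj
      have h7 := abs_le.1 (s1 β (mA β h))
      refine ⟨j + i * nw β + ns β, abs_lt.2 ⟨?_, ?_⟩⟩ <;> push_cast <;>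
        linarith only [hρ, hτ2, he3, he5, h4.1, h4.2, h5.1, h5.2, h6.1, h6.2, h7.1, h7.2]
    · push_cast; linarith only [he, hδ2, hn1, h3.1, sγ.1]
    · push_cast; linarith only [he, he1, he5, hδ2, hn2, h3.2, sγ.2]
  · intro t ht
    by_contra hc
    have key : ∀ i : ℕ, i ≤ m → ∃ b ∈ G, μ < |u b.1| ∧ ∃ l : ℤ,
        |(l : ℝ) / 2 - ((t + i * w) * b.1 + b.2)| ≤ B * e := by
      intro i hi
      obtain ⟨⟨h1, h2⟩, h3, h4⟩ := ht i hi
      obtain ⟨q, h5⟩ := not_forall.1 fun h => h3 (hpat _ _ h2 h4 h h1)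
      obtain ⟨hq, h5⟩ := Classical.not_imp.1 h5
      have e1 : (((1 * t + (i : ℤ) * w : ℤ) : ℝ) * q.1) = (t + i * w) * q.1 := by push_cast; ring
      have e2 : ((1 * t + ((i : ℤ) * w + s) : ℤ) : ℝ) * q.1 + q.2 =
          (t + i * w) * q.1 + q.2 + (s * q.1 - ns q.1) + ns q.1 := by push_cast; ring
      have h6 : q.1 ≠ 0 := fun h => h5 (by rw [h, mul_zero, mul_zero])
      rw [e1, e2, H_add_int] at h5
      obtain ⟨l, hl⟩ := not_forall.1 fun h => h5 (H_const h)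
      have h7 := abs_sub_left_of_mem_uIcc (not_not.1 hl)
      rw [add_sub_cancel_left] at h7
      have h8 := h7.trans (s1 _ (mG q hq))
      rcases hmq q hq with h9 | h9
      · exact ⟨q, hq, hμ q.1 ⟨⟨q, hq, rfl⟩, h9⟩, l, h8⟩
      exfalso
      have m0 : mq q ≠ 0 := fun h => h6 (by rw [h9, h, Int.cast_zero, zero_mul])
      have m1 : (mq q : ℝ) ≠ 0 := by exact_mod_cast m0
      have u0 : u q.1 = 0 := by rw [h9, ← zsmul_eq_mul, map_zsmul, hu0, smul_zero]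
      have a1 := abs_le.1 (w1 i hi _ (mG q hq))
      have a2 := abs_le.1 h8
      rw [u0] at a1
      obtain ⟨L, hL⟩ : ∃ L : ℤ, L = l - 2 * i * nw q.1 := ⟨_, rfl⟩
      have a3 : |t * q.1 + q.2 - (L : ℝ) / 2| < ε := by
        rw [hL]
        refine abs_lt.2 ⟨?_, ?_⟩ <;> push_cast <;>
          linarith only [hε, he2, he5, a1.1, a1.2, a2.1, a2.2]
      have m2 : 2 * mq q ≠ 0 := mul_ne_zero two_ne_zero m0
      refine hc ⟨_, Finset.mem_biUnion.2 ⟨q, hq, Finset.mem_image_of_mem _ (Finset.mem_Ico.2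
        ⟨Int.emod_nonneg L m2, (Int.emod_lt_abs L m2).trans_le (by rw [abs_mul, abs_two])⟩)⟩,
        L / (2 * mq q), ?_⟩
      have a4 : (L : ℝ) = 2 * mq q * ((L / (2 * mq q) : ℤ) : ℝ) + ((L % (2 * mq q) : ℤ) : ℝ) := by
        exact_mod_cast (Int.mul_ediv_add_emod L (2 * mq q)).symm
      have a5 : t * q.1 + q.2 - (L : ℝ) / 2 = mq q * (t * γ -
          (((L % (2 * mq q) : ℤ) : ℝ) / 2 - q.2) / mq q - ((L / (2 * mq q) : ℤ) : ℝ)) := by
        conv_lhs => rw [h9, a4]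
        field_simp
        ring
      rw [a5, abs_mul] at a3
      refine lt_of_le_of_lt (le_mul_of_one_le_left (abs_nonneg _) ?_) a3
      exact_mod_cast Int.one_le_abs m0
    choose! b hb1 hb2 J hJ using key
    have main : ∀ i i' : ℕ, i ≤ m → i' < i → b i = b i' → False := by
      intro i i' hi hlt hb
      obtain ⟨d, rfl⟩ : ∃ d, i = i' + d := ⟨i - i', by omega⟩
      have h1 := abs_le.1 (hJ _ hi)
      have h2 := abs_le.1 (hJ i' (by omega))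
      rw [hb] at h1
      have h3 := mG _ (hb1 i' (by omega))
      have h4 := abs_le.1 (w1 d (by omega) _ h3)
      have h5 : (1 : ℝ) ≤ d := by exact_mod_cast (by omega : 1 ≤ d)
      refine N_gap (y := d * (τ * u (b i').1)) (L := J (i' + d) - J i' - 2 * d * nw (b i').1) ?_
        ((w2 d (by omega) _ h3).trans hτ1) hτμ (abs_lt.2 ⟨?_, ?_⟩)
      · rw [abs_mul, abs_mul, Nat.abs_cast, abs_of_pos hτ]
        exact (mul_lt_mul_of_pos_left (hb2 i' (by omega)) hτ).trans_le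
          (le_mul_of_one_le_left (by positivity) h5)
      · push_cast at h1 ⊢
        linarith only [hτμ, he4, he5, h1.1, h1.2, h2.1, h2.2, h4.1, h4.2]
      · push_cast at h1 ⊢
        linarith only [hτμ, he4, he5, h1.1, h1.2, h2.1, h2.2, h4.1, h4.2]
    obtain ⟨i, hi, i', hi', hne, hb⟩ := Finset.exists_ne_map_eq_of_card_lt_of_maps_to
      (s := Finset.range (m + 1)) (t := G) (f := b) (by rw [Finset.card_range]; omega)
      fun i hi => hb1 i (Nat.lt_succ_iff.1 (Finset.mem_range.1 hi))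
    have h1 := Finset.mem_range.1 hi
    have h2 := Finset.mem_range.1 hi'
    rcases lt_or_gt_of_ne hne with h | h
    · exact main i' i (by omega) h hb.symm
    · exact main i i' (by omega) h hb

theorem N_nb {A : Set ℝ} (hA : Ind A) (hD : Good1 D) {A0 K : Finset ℝ} (h0 : (↑A0 : Set ℝ) ⊆ A)
    {α : ℝ} (hα : α ∈ A0) {ρ : ℝ} {θ : ℝ → ℝ} (hρ : 0 < ρ)
    (H : ∀ ε : ℝ, 0 < ε → ∃ (Z Φ' : Set ℤ) (p q : ℝ), D Z ∧ Φ'.Finite ∧ p < q ∧
      Box A0 α Φ' p q ρ θ Z ∧ ∀ t ∈ Z, ∃ k ∈ K, Near (t * α - k) ε) :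
    ∃ M : ℕ, 0 < M ∧ Nb D (M * α) := by
  classical
  obtain ⟨r, hr0, hr⟩ : ∃ r : ℕ, 0 < r ∧ 1 < ((r : ℝ) + 1) * ρ := by
    obtain ⟨r, hr⟩ := exists_nat_gt (1 / ρ)
    rw [div_lt_iff₀ hρ] at hr
    exact ⟨r + 1, Nat.succ_pos _, by push_cast; linarith only [hρ, hr]⟩
  refine ⟨(K.card * K.card).factorial, Nat.factorial_pos _, fun κ hκ => ?_⟩
  have hL : (0 : ℝ) < ((K.card * K.card).factorial : ℕ) := by exact_mod_cast Nat.factorial_pos _
  have hr1 : (0 : ℝ) < (r : ℝ) + 1 := by positivity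
  obtain ⟨ε, hε, hεκ⟩ : ∃ ε : ℝ, 0 < ε ∧
      3 * (((K.card * K.card).factorial : ℕ) : ℝ) * (((r : ℝ) + 1) * ε) = κ :=
    ⟨κ / (3 * (((K.card * K.card).factorial : ℕ) : ℝ) * ((r : ℝ) + 1)), by positivity,
      by field_simp⟩
  obtain ⟨Z, Φ', p, q, hZ, hΦ', hpq, hB, hK⟩ := H ε hε
  have h := torsion hD (hA.irrational (h0 hα)) (K.card * K.card)
    (hD.conv 1 (-(r : ℤ)) 0 hZ hZ) (p := ((r : ℝ) + 1) * p) (q := ((r : ℝ) + 1) * q)
    (ε := ((r : ℝ) + 1) * ε) (mul_lt_mul_of_pos_left hpq hr1) (mul_pos hr1 hε) (fun t ht => by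
      obtain ⟨u, hu, h1⟩ := fill hA h0 hα hΦ' hB hr0 hr t ht
      refine ⟨u, hu, ?_⟩
      rwa [show 1 * t + -(r : ℤ) * u + 0 = t - r * u by ring])
    (K := Finset.image₂ (fun k k' : ℝ => r * k + k') K K) (Finset.card_image₂_le _ _ _) (by
      rintro t ⟨u, hu, h1⟩
      obtain ⟨k, hk, n, hn⟩ := hK u hu
      obtain ⟨k', hk', n', hn'⟩ := hK _ h1
      have h2 := abs_le.1 (SixA_mul (le_refl r) hn)
      have h3 := abs_lt.1 hn'
      refine ⟨_, Finset.mem_image₂_of_mem hk hk', r * n + n', abs_lt.2 ⟨?_, ?_⟩⟩ <;>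
        push_cast at h3 ⊢ <;> linarith only [h2, h3, h2.1, h2.2, h3.1, h3.2])
  rwa [hεκ] at h

theorem N_lin {A1 : Finset ℝ} (m : ℝ → ℤ) {x : ℝ → ℝ} {δ : ℝ} (hδ : 0 < δ)
    (h : ∀ a ∈ A1, Near (x a) δ) :
    Near (∑ a ∈ A1, (m a : ℝ) * x a) ((∑ a ∈ A1, |(m a : ℝ)| + 1) * δ) := by
  choose! n hn using h
  refine ⟨∑ a ∈ A1, m a * n a, ?_⟩
  push_cast
  rw [← Finset.sum_sub_distrib, add_mul, Finset.sum_mul]
  refine ((Finset.abs_sum_le_sum_abs _ _).trans (Finset.sum_le_sum fun a ha => ?_)).trans_lt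
    (lt_add_of_pos_right _ (by linarith))
  rw [← mul_sub, abs_mul]
  exact mul_le_mul_of_nonneg_left (hn a ha).le (abs_nonneg _)

/-- An essential wall gives small definable neighbourhoods in its direction. -/
theorem nb_of_dep2 (hD : Good1 D) {G : Set (ℝ × ℝ)} (hG : G.Finite) (hp : ∀ q ∈ G, pi0 q.1 = 0)
    {Φ Y : Set ℤ} (hΦ : Φ.Finite) (hY : D Y)
    (hpat : ∀ t t' : ℤ, t ∉ Φ → t' ∉ Φ →
      (∀ q ∈ G, (H (t * q.1 + q.2) ↔ H (t' * q.1 + q.2))) → t ∈ Y → t' ∈ Y)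
    {γ : ℝ} (hγ : pi0 γ = 0) (h0 : γ ≠ 0) {Γ : Set ℝ} (hΓ : Γ.Finite)
    (hΓp : ∀ β ∈ Γ, pi0 β = 0) (p : ℝ →ₗ[ℚ] ℝ) {ρ : ℝ} (hρ : 0 < ρ)
    (hdep : ∀ t : ℤ, t ∉ Φ → (∀ β ∈ Γ, Near (t * β - p β) ρ) →
      (In (t * γ) (p γ - ρ) (p γ) → t ∈ Y) ∧ (In (t * γ) (p γ) (p γ + ρ) → t ∉ Y)) :
    Nb D γ := by
  classical
  obtain ⟨A1, hI, hγ1, hA1, N, hN, m, hm⟩ := coords (Γ := Γ ∪ Prod.fst '' G)
    (hΓ.union (hG.image _)) (by
      rintro β (h | ⟨q, h, rfl⟩)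
      · exact hΓp β h
      · exact hp q h) hγ h0
  have hN' : (0 : ℝ) < N := by exact_mod_cast hN
  have hA : ∀ a ∈ A1, pi0 a = 0 := fun a ha => by
    rcases hA1 a ha with rfl | h | ⟨q, h, rfl⟩
    · exact hγ
    · exact hΓp a h
    · exact hp q h
  obtain ⟨C, hC⟩ := (hΓ.image fun β => ∑ a ∈ A1, |(m β a : ℝ)| + 1).bddAbove
  obtain ⟨δ, hδ, hδ1, hδ2⟩ : ∃ δ : ℝ, 0 < δ ∧ C * δ ≤ ρ ∧ N * δ ≤ ρ := by
    have h1 : (0 : ℝ) < max C N := lt_max_of_lt_right hN'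
    have h2 : max C N * (ρ / max C N) = ρ := by field_simp
    have h3 := div_pos hρ h1
    exact ⟨_, h3, (mul_le_mul_of_nonneg_right (le_max_left _ _) h3.le).trans h2.le,
      (mul_le_mul_of_nonneg_right (le_max_right _ _) h3.le).trans h2.le⟩
  have hmq : ∀ q : ℝ × ℝ, ∃ z : ℤ, q ∈ hG.toFinset.image (fun q => ((N : ℝ) * q.1, q.2)) →
      (∀ c : ℚ, q.1 ≠ c * γ) ∨ q.1 = z * γ := by
    intro q
    by_cases hq : q ∈ hG.toFinset.image (fun q => ((N : ℝ) * q.1, q.2))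
    swap
    · exact ⟨0, fun h => absurd h hq⟩
    obtain ⟨q', h1, rfl⟩ := Finset.mem_image.1 hq
    refine ⟨m q'.1 γ, fun _ => or_iff_not_imp_left.2 fun h => ?_⟩
    obtain ⟨c, hc⟩ := not_forall.1 h
    have h2 : (N : ℝ) * q'.1 = c * γ := not_not.1 hc
    have h3 := hm q'.1 (Or.inr ⟨q', hG.mem_toFinset.1 h1, rfl⟩)
    have h4 := hI A1 (fun a => m q'.1 a - if a = γ then c else 0) 0 subset_rfl (by
      simp only [Rat.cast_sub, sub_mul, Finset.sum_sub_distrib, Rat.cast_intCast, ← h3, h2,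
        apply_ite (Rat.cast : ℚ → ℝ), ite_mul, Rat.cast_zero, zero_mul, Finset.sum_ite_eq', hγ1,
        if_true, sub_self]) γ hγ1
    rw [if_pos rfl, sub_eq_zero] at h4
    change (N : ℝ) * q'.1 = _
    rw [h2, ← h4, Rat.cast_intCast]
  choose mq hmq using hmq
  have hpN : ∀ x : ℝ, p (N * x) = N * p x := fun x => by
    rw [← nsmul_eq_mul, map_nsmul, nsmul_eq_mul]
  obtain ⟨K, ρ', θ, h1, h2⟩ := N_walls hD hA hγ1 h0 (Φ := {k | (N : ℤ) * k + 0 ∈ Φ})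
    (Y := {k | (N : ℤ) * k + 0 ∈ Y}) (by
      intro q hq
      obtain ⟨q', h1, rfl⟩ := Finset.mem_image.1 hq
      change pi0 ((N : ℝ) * q'.1) = 0
      rw [← nsmul_eq_mul, map_nsmul, hp q' (hG.mem_toFinset.1 h1), smul_zero]) mq hmq
    (hΦ.preimage fun a _ b _ h => mul_left_cancel₀ (by exact_mod_cast hN.ne') (add_right_cancel h))
    (hD.aff N 0 hY) (fun t t' a1 a2 a3 => hpat _ _ a1 a2 fun q hq => by
      have := a3 _ (Finset.mem_image_of_mem _ (hG.mem_toFinset.2 hq))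
      rwa [show (t : ℝ) * (N * q.1) = ((N * t + 0 : ℤ) : ℝ) * q.1 by push_cast; ring,
        show (t' : ℝ) * (N * q.1) = ((N * t' + 0 : ℤ) : ℝ) * q.1 by push_cast; ring] at this)
    ⟨p γ / N, δ, δ, fun a => p a / N, hδ, hδ, fun k hk hn => by
      have key : Near (k * γ - p γ / N) δ → ∀ β ∈ Γ, Near (((N * k + 0 : ℤ) : ℝ) * β - p β) ρ := by
        intro a1 β hβ
        obtain ⟨n, a2⟩ := N_lin (m β) (x := fun a => k * a - p a / N) hδ fun a ha => by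
          by_cases e : a = γ
          · rw [e]; exact a1
          · exact hn a ha e
        have a3 := hm β (Or.inl hβ)
        have a4 : (N : ℝ) * p β = ∑ a ∈ A1, (m β a : ℝ) * p a := by
          rw [← hpN, a3, map_sum]
          exact Finset.sum_congr rfl fun a _ => by rw [← zsmul_eq_mul, map_zsmul, zsmul_eq_mul]
        have a5 : ∑ a ∈ A1, (m β a : ℝ) * (k * a - p a / N) =
            ((N * k + 0 : ℤ) : ℝ) * β - p β := by
          have : ∀ a, (m β a : ℝ) * (k * a - p a / N) = k * (m β a * a) - (m β a * p a) / N :=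
            fun a => by ring
          simp only [this, Finset.sum_sub_distrib, ← Finset.mul_sum, ← Finset.sum_div, ← a3, ← a4]
          push_cast
          field_simp
          ring
        rw [a5] at a2
        exact ⟨n, a2.trans_le ((mul_le_mul_of_nonneg_right (hC ⟨β, hβ, rfl⟩) hδ.le).trans hδ1)⟩
      have e : (N : ℝ) * (p γ / N) = p γ := by field_simp
      constructor
      · rintro ⟨n, a1, a2⟩
        have b1 := mul_lt_mul_of_pos_left a1 hN'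
        have b2 := mul_lt_mul_of_pos_left a2 hN'
        exact (hdep _ hk (key ⟨n, abs_lt.2 ⟨by linarith, by linarith⟩⟩)).1
          ⟨N * n, by push_cast; linarith, by push_cast; linarith⟩
      · rintro ⟨n, a1, a2⟩
        have b1 := mul_lt_mul_of_pos_left a1 hN'
        have b2 := mul_lt_mul_of_pos_left a2 hN'
        exact (hdep _ hk (key ⟨n, abs_lt.2 ⟨by linarith, by linarith⟩⟩)).2
          ⟨N * n, by push_cast; linarith, by push_cast; linarith⟩⟩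
  obtain ⟨M, hM, h3⟩ := N_nb hI hD subset_rfl hγ1 h1 h2
  exact N_back hD (irr_of_pure hγ h0) hM h3

end Pool.Agent.Work.MP_340ce7_lc
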