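import Pool.Agent.Work.MP_340ce7_lc.Gen.G
import Pool.Agent.Work.MP_340ce7_lc.Gen.N
import Pool.Agent.Work.MP_340ce7_lc.Gen.E

/-! An essential wall of a unary set gives a full direction and its offset. -/

namespace Pool.Agent.Work.MP_340ce7_lc

open Set Filter Topology

variable {D : Set ℤ → Prop} {J : Type}

/-- The virtual point of an integer. -/
noncomputable def ti (t : ℤ) : ℝ →ₗ[ℚ] ℝ := (t : ℝ) • LinearMap.id

@[simp] theorem ti_apply (t : ℤ) (x : ℝ) : ti t x = t * x := rfl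

theorem ev_small (a : ℝ) {b : ℝ} (hb : 0 < b) : ∀ᶠ μ in 𝓝[>] (0 : ℝ), a * μ < b := by
  have h : Tendsto (fun μ : ℝ => a * μ) (𝓝 0) (𝓝 (a * 0)) := tendsto_id.const_mul a
  rw [mul_zero] at h
  exact (h.eventually (gt_mem_nhds hb)).filter_mono nhdsWithin_le_nhds

theorem ev_pos : ∀ᶠ μ in 𝓝[>] (0 : ℝ), 0 < μ := self_mem_nhdsWithin

theorem Near.mono {x a b : ℝ} (h : Near x a) (hab : a ≤ b) : Near x b :=
  h.imp fun _ hn => hn.trans_le hab

theorem lin_div {U : Type} [AddCommGroup U] [Module ℚ U] (p : U →ₗ[ℚ] ℝ) (u : U) (N : ℕ) :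
    p ((N : ℚ)⁻¹ • u) = p u / N := by
  rw [map_smul, Rat.smul_def]
  push_cast
  ring

theorem div_smul (x : ℝ) (N : ℕ) : x / N = (N : ℚ)⁻¹ • x := by
  rw [Rat.smul_def]
  push_cast
  ring

theorem near_div {x η : ℝ} {N : ℕ} (hN : 0 < N) (h : Near (x / N) η) :
    ∃ k : ℤ, |x - N * k| ≤ N * η := by
  obtain ⟨k, hk⟩ := h
  have hN0 : (0 : ℝ) < N := by exact_mod_cast hN
  refine ⟨k, ?_⟩
  rw [show x - N * k = N * (x / N - k) by field_simp, abs_mul, abs_of_pos hN0]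
  exact mul_le_mul_of_nonneg_left hk.le hN0.le

theorem half_gap {x : ℝ} {l l0 : ℤ} (h : (l0 : ℝ) / 2 + x = l / 2) (h0 : x ≠ 0)
    (h1 : |x| < 1 / 2) : False := by
  have h2 := abs_lt.1 h1
  rcases h0.lt_or_gt with h3 | h3
  · exact int_gap (k := l0 - l) (by push_cast; linarith) (by push_cast; linarith)
  · exact int_gap (k := l - l0) (by push_cast; linarith) (by push_cast; linarith)

theorem nb_at (hD : Good1 D) {γ : ℝ} (hγ : Irrational γ) (hN : Nb D γ) (θ : ℝ) {κ : ℝ}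
    (hκ : 0 < κ) : ∃ (W : Set ℤ) (η : ℝ), 0 < η ∧ D W ∧
      (∀ t : ℤ, Near (t * γ - θ) η → t ∈ W) ∧ ∀ t ∈ W, Near (t * γ - θ) κ := by
  obtain ⟨η, hη, V, hV, h1, h2⟩ := hN (κ / 2) (by linarith)
  have hμ : 0 < min (η / 2) (κ / 2) := lt_min (by linarith) (by linarith)
  obtain ⟨g, -, n, a, b⟩ := kron0 hγ
    (show θ - min (η / 2) (κ / 2) < θ + min (η / 2) (κ / 2) by linarith) finite_empty
  have m1 := min_le_left (η / 2) (κ / 2)
  have m2 := min_le_right (η / 2) (κ / 2)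
  refine ⟨{t | 1 * t + -g ∈ V}, η / 2, by linarith, hD.aff 1 (-g) hV, ?_, fun t ht => ?_⟩
  · rintro t ⟨k, hk⟩
    have h3 := abs_lt.1 hk
    exact h1 _ ⟨k - n, abs_lt.2 ⟨by push_cast; linarith, by push_cast; linarith⟩⟩
  · obtain ⟨k, hk⟩ := h2 _ ht
    have h3 := abs_lt.1 hk
    push_cast at h3
    exact ⟨k + n, abs_lt.2 ⟨by push_cast; linarith, by push_cast; linarith⟩⟩

theorem PInv.period {V : Type} [AddCommGroup V] [Module ℝ V] {F : Set J} {n : J → V →ₗ[ℝ] ℝ}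
    {g : J → ℝ} {Ψ : V → Prop} (hΨ : PInv F n g Ψ) {lam : V} (h : ∀ j ∈ F, ∃ k : ℤ, n j lam = k)
    (χ : V) : Ψ (χ - lam) ↔ Ψ χ := by
  have key : ∀ j ∈ F, (H (n j (χ - lam) + g j) ↔ H (n j χ + g j)) := fun j hj => by
    obtain ⟨k, hk⟩ := h j hj
    rw [map_sub, hk, sub_add_eq_add_sub, H_sub_int]
  exact ⟨hΨ _ _ key, hΨ _ _ fun j hj => (key j hj).symm⟩

theorem dep_of_hs {F : Set J} (hF : F.Finite) {d g : J → ℝ} (hd : ∀ j ∈ F, pi0 (d j) = 0)
    {Ψ : (ℝ →ₗ[ℚ] ℝ) → Prop} (hΨ : PInv F (fun j => evl (d j)) g Ψ) {Φ Y : Set ℤ}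
    (hY : ∀ t : ℤ, t ∉ Φ → (t ∈ Y ↔ Ψ (ti t))) {γ : ℝ} (hγ : pi0 γ = 0) {p : ℝ →ₗ[ℚ] ℝ}
    (h : HS F (fun j => evl (d j)) g Ψ (evl γ) p) :
    ∃ (Γ : Set ℝ) (ρ : ℝ), Γ.Finite ∧ (∀ β ∈ Γ, pi0 β = 0) ∧ 0 < ρ ∧
      ∀ t : ℤ, t ∉ Φ → (∀ β ∈ Γ, Near (t * β - p β) ρ) →
        (In (t * γ) (p γ - ρ) (p γ) → t ∈ Y) ∧ (In (t * γ) (p γ) (p γ + ρ) → t ∉ Y) := by
  obtain ⟨ρ, hρ, -, hs⟩ := h
  have hS : (insert γ (d '' F)).Finite := (hF.image d).insert γ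
  obtain ⟨N, C, hN, hC, hl⟩ := lattice (U := ℝ) hS Subset.rfl
  obtain ⟨μ, m0, m1, m2, m3⟩ := (ev_pos.and ((ev_small (C * N) hρ).and
    ((ev_small (C * N) (show (0 : ℝ) < 1 / 2 by norm_num)).and
      (ev_small 1 (show (0 : ℝ) < 1 / 2 by norm_num))))).exists
  refine ⟨(fun β => (N : ℚ)⁻¹ • β) '' insert γ (d '' F), μ, hS.image _, ?_, m0,
    fun t ht h1 => ?_⟩
  · rintro _ ⟨β, hβ | ⟨j, hj, rfl⟩, rfl⟩
    · simp only [map_smul, hβ, hγ, smul_zero]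
    · simp only [map_smul, hd j hj, smul_zero]
  obtain ⟨lam, a1, a2⟩ := hl (ti t - p) (N * μ) fun β hβ => near_div hN (by
    have := h1 _ ⟨β, hβ, rfl⟩
    simp only [lin_div] at this
    rw [← div_smul] at this
    rwa [LinearMap.sub_apply, ti_apply, sub_div, mul_div_assoc])
  have b1 := hs (ti t - lam) fun j hj => by
    have := a2 _ (Or.inr ⟨j, hj, rfl⟩)
    simp only [evl_apply, LinearMap.sub_apply] at this ⊢
    rw [sub_right_comm]
    linarith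
  rw [hΨ.period (fun j hj => a1 _ (Or.inr ⟨j, hj, rfl⟩)), ← hY t ht] at b1
  obtain ⟨k, hk⟩ := a1 γ (Or.inl rfl)
  have b2 := abs_le.1 (a2 γ (Or.inl rfl))
  simp only [evl_apply, LinearMap.sub_apply, ti_apply, hk] at b1 b2
  constructor
  · rintro ⟨n, c1, c2⟩
    refine b1.1 (not_le.1 fun c3 => ?_)
    exact int_gap (k := n - k) (by push_cast; linarith) (by push_cast; linarith)
  · rintro ⟨n, c1, c2⟩
    refine b1.2 (not_le.1 fun c3 => ?_)
    exact int_gap (k := k - n) (by push_cast; linarith) (by push_cast; linarith)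

theorem evl_ne {U : Type} [AddCommGroup U] [Module ℚ U] {u : U} (h : evl u ≠ 0) : u ≠ 0 := by
  rintro rfl
  exact h (LinearMap.ext fun χ => by simp)

theorem lemmaA (hD : Good1 D) {F : Set J} (hF : F.Finite) {d g : J → ℝ}
    (hd : ∀ j ∈ F, pi0 (d j) = 0) {Ψ : (ℝ →ₗ[ℚ] ℝ) → Prop}
    (hΨ : PInv F (fun j => evl (d j)) g Ψ) {Φ Y : Set ℤ} (hΦ : Φ.Finite) (hYD : D Y)
    (hY : ∀ t : ℤ, t ∉ Φ → (t ∈ Y ↔ Ψ (ti t))) {γ : ℝ} (hγ : pi0 γ = 0) (h0 : γ ≠ 0)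
    {p : ℝ →ₗ[ℚ] ℝ} (h : HS F (fun j => evl (d j)) g Ψ (evl γ) p) :
    Full D γ ∧ EdgeAt D γ (p γ) := by
  have hnb : ∀ γ' : ℝ, pi0 γ' = 0 → γ' ≠ 0 → ∀ p',
      HS F (fun j => evl (d j)) g Ψ (evl γ') p' → Nb D γ' := fun γ' a b p' c => by
    obtain ⟨Γ, ρ, c1, c2, c3, c4⟩ := dep_of_hs hF hd hΨ hY a c
    refine nb_of_dep2 hD (G := (fun j => (d j, g j)) '' F) (hF.image _) ?_ hΦ hYD
      (fun t t' ht ht' e h1 => (hY t' ht').2 (hΨ _ _ (fun j hj => e _ ⟨j, hj, rfl⟩)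
        ((hY t ht).1 h1))) a b c1 c2 p' c3 c4
    rintro _ ⟨j, hj, rfl⟩
    exact hd j hj
  let Ess : Set J := {j | d j ≠ 0 ∧ ∃ φ p', (φ = evl (d j) ∨ φ = -evl (d j)) ∧
    HS F (fun j => evl (d j)) g Ψ φ p'}
  have hS : (insert γ (d '' F)).Finite := (hF.image d).insert γ
  have hSg : insert γ (d '' (F ∩ Ess)) ⊆ insert γ (d '' F) :=
    insert_subset_insert (image_mono inter_subset_left)
  have hSgf := hS.subset hSg
  have hpure : ∀ β ∈ insert γ (d '' (F ∩ Ess)), pi0 β = 0 ∧ β ≠ 0 ∧ Nb D β := by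
    rintro β (rfl | ⟨j, ⟨hj, h1, φ, p', rfl | rfl, h2⟩, rfl⟩)
    · exact ⟨hγ, h0, hnb _ hγ h0 p h⟩
    · exact ⟨hd j hj, h1, hnb _ (hd j hj) h1 p' h2⟩
    · refine ⟨hd j hj, h1, ?_⟩
      have e : -evl (d j) = evl (-d j) := LinearMap.ext fun χ => by simp
      rw [e] at h2
      simpa using nb_neg (hnb _ (by rw [map_neg, hd j hj, neg_zero]) (neg_ne_zero.2 h1) p' h2)
  obtain ⟨N, C, hN, hC, hl⟩ := lattice (U := ℝ) hS hSg
  obtain ⟨Γ, ρ1, hΓ, hΓp, hρ1, hdep⟩ := dep_of_hs hF hd hΨ hY hγ h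
  obtain ⟨ρ, hρ, hw, hs⟩ := h
  obtain ⟨μ, m0, m1, m2⟩ := (ev_pos.and ((ev_small (C * N) hρ).and
    (ev_small (C * N) (show (0 : ℝ) < 1 / 4 by norm_num)))).exists
  have hW : ∀ β ∈ insert γ (d '' (F ∩ Ess)), ∃ (W : Set ℤ) (η : ℝ), 0 < η ∧ D W ∧
      (∀ t : ℤ, Near (t * (β / N) - p β / N) η → t ∈ W) ∧
        ∀ t ∈ W, Near (t * (β / N) - p β / N) μ := fun β hβ => by
    obtain ⟨a, b, c⟩ := hpure β hβ
    have hi := irr_of_pure a b
    exact nb_at hD (hi.div_natCast hN.ne') (nb_div hD hi c hN) _ m0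
  choose! W η hη hWD hW1 hW2 using hW
  obtain ⟨e, e0, e1, e2⟩ := (ev_pos.and ((ev_small 1 hρ1).and
    ((eventually_all_finite hSgf).2 fun β hβ => ev_small 1 (hη β hβ)))).exists
  let Φ1 : Set ℤ := Φ ∪ ⋃ j ∈ F ∩ {j | d j ≠ 0}, {t : ℤ | ∃ l : ℤ, t * d j + g j = l / 2}
  have hΦ1 : Φ1.Finite := hΦ.union ((hF.inter_of_left _).biUnion fun j hj =>
    Set.Subsingleton.finite fun t ht t' ht' => by
      have := crit_subsingleton (r := g j) (irr_of_pure (hd j hj.1) hj.2)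
        (x := (t : ℚ)) (by simpa using ht) (y := (t' : ℚ)) (by simpa using ht')
      exact_mod_cast this)
  refine edge_of_half hD hγ h0 (hpure γ (Or.inl rfl)).2.2
    (Z := (Y \ Φ1) ∩ {t | ∀ β ∈ insert γ (d '' (F ∩ Ess)), t ∈ W β})
    (hD.inter (hD.diff hYD (hD.finite hΦ1)) (hD.all hSgf fun β hβ => hWD β hβ)) hΦ1
    (Γ := Γ ∪ (fun β => (N : ℚ)⁻¹ • β) '' insert γ (d '' (F ∩ Ess))) (hΓ.union (hSgf.image _))
    ?_ p e0 ?_ ?_
  · rintro β (hβ | ⟨β, hβ, rfl⟩)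
    · exact hΓp β hβ
    · simp only [map_smul, (hpure β hβ).1, smul_zero]
  swap
  · rintro t ht h1 ⟨n, c1, c2⟩
    refine ⟨⟨(hdep t (fun h2 => ht (Or.inl h2)) fun β hβ =>
      (h1 β (Or.inl hβ)).mono (by linarith)).1 ⟨n, by linarith, c2⟩, ht⟩, fun β hβ => hW1 β hβ t ?_⟩
    have := h1 _ (Or.inr ⟨β, hβ, rfl⟩)
    simp only [lin_div] at this
    rw [← div_smul] at this
    exact this.mono (by linarith [e2 β hβ])
  rintro t ⟨⟨htY, ht⟩, htW⟩
  obtain ⟨lam, a1, a2⟩ := hl (ti t - p) (N * μ) fun β hβ => near_div hN (by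
    have := hW2 β hβ t (htW β hβ)
    rwa [LinearMap.sub_apply, ti_apply, sub_div, mul_div_assoc])
  have hc : ∀ β ∈ insert γ (d '' (F ∩ Ess)), |(ti t - lam) β - p β| ≤ C * N * μ := fun β hβ => by
    have := a2 β hβ
    simp only [LinearMap.sub_apply] at this ⊢
    rw [sub_right_comm]
    linarith
  have hΨt : Ψ (ti t - lam) := (hΨ.period (fun j hj => a1 _ (Or.inr ⟨j, hj, rfl⟩)) _).2
    ((hY t fun h2 => ht (Or.inl h2)).1 htY)
  obtain ⟨k0, hk0⟩ := a1 γ (Or.inl rfl)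
  by_cases hle : (ti t - lam) γ ≤ p γ
  · have b2 := abs_le.1 (hc γ (Or.inl rfl))
    simp only [LinearMap.sub_apply, ti_apply, hk0] at hle b2
    exact ⟨k0, by linarith, hle⟩
  exfalso
  have hlt := not_le.1 hle
  obtain ⟨ψ, hψ⟩ := exists_one h0
  obtain ⟨s, s0, s1, s2⟩ := (ev_pos.and
    (((eventually_all_finite hF).2 fun j _ => ev_small |ψ (d j)| hρ).and
      ((eventually_all_finite hF).2 fun j _ =>
        ev_small |ψ (d j)| (show (0 : ℝ) < 1 / 2 by norm_num)))).exists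
  have hθ : ∀ x, (p + s • ψ) x = p x + ψ x * s := fun x => by
    simp only [LinearMap.add_apply, LinearMap.smul_apply, smul_eq_mul, mul_comm]
  have habs : ∀ x : ℝ, |x * s| = |x| * s := fun x => by rw [abs_mul, abs_of_pos s0]
  have hpar : ∀ j (c : ℝ), evl (d j) = c • evl γ → ∀ χ : ℝ →ₗ[ℚ] ℝ, χ (d j) = c * χ γ :=
    fun j c e χ => by simpa using LinearMap.congr_fun e χ
  obtain ⟨f, hf, hfE, hf0, φ, p', b1, -, b2⟩ := gen_seg hF hΨ (θ0 := ti t - lam)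
    (θ1 := p + s • ψ) (fun j hj hn l hl => by
      obtain ⟨k, hk⟩ := a1 _ (Or.inr ⟨j, hj, rfl⟩)
      simp only [evl_apply, LinearMap.sub_apply, ti_apply, hk] at hl
      exact ht (Or.inr (mem_biUnion (x := j) ⟨hj, evl_ne hn⟩
        ⟨l + 2 * k, by push_cast; linarith⟩)))
    (fun j hj hn l hl => by
      simp only [evl_apply, hθ] at hl
      rcases hw j hj with c1 | ⟨c, l0, c1, c2⟩ | c1
      · exact hn c1
      · simp only [evl_apply] at c2
        refine half_gap (x := ψ (d j) * s) (l := l) (l0 := l0) (by linarith) ?_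
          (by rw [habs]; exact s2 j hj)
        rw [hpar j c c1, hψ, mul_one]
        exact mul_ne_zero (fun c3 => hn (c1.trans (by rw [c3, zero_smul]))) s0.ne'
      · have c2 := c1 l
        simp only [evl_apply] at c2
        rw [show p (d j) + g j - l / 2 = -(ψ (d j) * s) by linarith, abs_neg, habs] at c2
        linarith [s1 j hj]) Ess
    (fun j hj hjE hn l hl => by
      have d1 := abs_le.1 (hc _ (Or.inr ⟨j, ⟨hj, hjE⟩, rfl⟩))
      have d2 := abs_lt.1 ((habs _).trans_lt (s1 j hj))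
      have d3 := abs_lt.1 ((habs _).trans_lt (s2 j hj))
      simp only [evl_apply, hθ] at hl
      rcases hw j hj with c1 | ⟨c, l0, c1, c2⟩ | c1
      · exact hn c1
      · simp only [evl_apply] at c2
        have c0 : c ≠ 0 := fun c3 => hn (c1.trans (by rw [c3, zero_smul]))
        have d4 : (ti t - lam) (d j) - p (d j) = c * ((ti t - lam) γ - p γ) := by
          rw [hpar j c c1, hpar j c c1 p]; ring
        have d5 : ψ (d j) * s = c * s := by rw [hpar j c c1, hψ, mul_one]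
        have d6 : 0 < (ti t - lam) γ - p γ := by linarith
        refine half_gap (x := l / 2 - l0 / 2) (l := l) (l0 := l0) (by ring) ?_ ?_
        · rcases c0.lt_or_gt with c3 | c3
          · have := mul_neg_of_neg_of_pos c3 d6
            have := mul_neg_of_neg_of_pos c3 s0
            rcases mem_uIcc.1 hl with ⟨_, _⟩ | ⟨_, _⟩ <;> exact ne_of_lt (by linarith)
          · have := mul_pos c3 d6
            have := mul_pos c3 s0
            rcases mem_uIcc.1 hl with ⟨_, _⟩ | ⟨_, _⟩ <;> exact ne_of_gt (by linarith)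
        · rcases mem_uIcc.1 hl with ⟨_, _⟩ | ⟨_, _⟩ <;> exact abs_lt.2 ⟨by linarith, by linarith⟩
      · have c2 := c1 l
        simp only [evl_apply] at c2
        refine absurd c2 (not_le.2 ?_)
        rcases mem_uIcc.1 hl with ⟨_, _⟩ | ⟨_, _⟩ <;> exact abs_lt.2 ⟨by linarith, by linarith⟩)
    hΨt ((hs _ fun j hj => by
      simp only [evl_apply, hθ, add_sub_cancel_left, habs]
      exact s1 j hj).2 (by simp only [evl_apply, hθ, hψ]; linarith))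
  exact hfE ⟨evl_ne hf0, φ, p', b1, b2⟩

end Pool.Agent.Work.MP_340ce7_lc
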