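import Pool.Agent.Work.MP_340ce7_lc.Arc.Defs

/-! Statement definitions: independent systems of pairs of rational subspaces. -/

namespace Pool.Agent.Work.MP_340ce7_lc

/-- A set of pairs `(W, E)` of rational subspaces of the reals with `1 ∈ W ≤ E`, whose first
members are independent modulo the rationals. -/
def Sys (I : Set (Submodule ℚ ℝ × Submodule ℚ ℝ)) : Prop :=
  (∀ c ∈ I, (1 : ℝ) ∈ c.1 ∧ c.1 ≤ c.2) ∧
    ∀ (s : Finset (Submodule ℚ ℝ × Submodule ℚ ℝ)) (w : Submodule ℚ ℝ × Submodule ℚ ℝ → ℝ),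
      (↑s : Set (Submodule ℚ ℝ × Submodule ℚ ℝ)) ⊆ I → (∀ c ∈ s, w c ∈ c.1) →
        ¬ Irrational (∑ c ∈ s, w c) → ∀ c ∈ s, ¬ Irrational (w c)

/-- `T` is the union of the sets `(W \ ℚ) × E` over the pairs of an independent system. -/
def SysAdm (T : Set (ℝ × ℝ)) : Prop :=
  ∃ I, Sys I ∧ T = {p | Irrational p.1 ∧ ∃ c ∈ I, p.1 ∈ c.1 ∧ p.2 ∈ c.2}

end Pool.Agent.Work.MP_340ce7_lc
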