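import Pool.Agent.Work.MP_340ce7_lc.Arc.Main
import Pool.Agent.Work.MP_340ce7_lc.Gen.Defs

/-! General forms, pure reals and virtual points. -/

namespace Pool.Agent.Work.MP_340ce7_lc

open Set Filter Topology

abbrev Cl : Type := Submodule ℚ ℝ × Submodule ℚ ℝ

structure Fm (ι : Type) where
  c : Cl
  L : (ι → ℚ) →ₗ[ℚ] ℝ
  r : ℝ

variable {ι κ : Type}

noncomputable def Fm.ev (f : Fm ι) (x : ι → ℚ) : ℝ := f.L x + f.r

structure Agr (N : ℕ) (E : Set (Fu ι × ℚ)) (F : Set (Fm ι)) (x x' : ι → ℚ) : Prop where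
  cong : Cong N x x'
  eqn : ∀ e ∈ E, (e.1 x = e.2 ↔ e.1 x' = e.2)
  frm : ∀ f ∈ F, (H (f.ev x) ↔ H (f.ev x'))

def Okm (I : Set Cl) (f : Fm ι) : Prop := f.c ∈ I ∧ (∀ x, f.L x ∈ f.c.1) ∧ f.r ∈ f.c.2

def Dt (I : Set Cl) (ι : Type) (X : Set (ι → ℤ)) : Prop :=
  ∃ (N : ℕ) (E : Set (Fu ι × ℚ)) (F : Set (Fm ι)), 0 < N ∧ E.Finite ∧ F.Finite ∧
    (∀ f ∈ F, Okm I f) ∧ ∀ x x', Agr N E F (cz x) (cz x') → x ∈ X → x' ∈ X

theorem Agr.refl (N : ℕ) (E : Set (Fu ι × ℚ)) (F : Set (Fm ι)) (x : ι → ℚ) : Agr N E F x x :=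
  ⟨Cong.refl N x, fun _ _ => Iff.rfl, fun _ _ => Iff.rfl⟩

theorem Agr.symm {N : ℕ} {E : Set (Fu ι × ℚ)} {F : Set (Fm ι)} {x x' : ι → ℚ}
    (h : Agr N E F x x') : Agr N E F x' x :=
  ⟨h.cong.symm, fun e he => (h.eqn e he).symm, fun f hf => (h.frm f hf).symm⟩

theorem Agr.trans {N : ℕ} {E : Set (Fu ι × ℚ)} {F : Set (Fm ι)} {x y z : ι → ℚ}
    (h : Agr N E F x y) (h' : Agr N E F y z) : Agr N E F x z :=
  ⟨h.cong.trans h'.cong, fun e he => (h.eqn e he).trans (h'.eqn e he),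
    fun f hf => (h.frm f hf).trans (h'.frm f hf)⟩

/-- The filter of pairs of points which agree on more and more atoms. -/
def Um (I : Set Cl) (ι : Type) : Filter ((ι → ℚ) × (ι → ℚ)) where
  sets := {S | ∃ (N : ℕ) (E : Set (Fu ι × ℚ)) (F : Set (Fm ι)), 0 < N ∧ E.Finite ∧ F.Finite ∧
    (∀ f ∈ F, Okm I f) ∧ ∀ x x', Agr N E F x x' → (x, x') ∈ S}
  univ_sets := ⟨1, ∅, ∅, one_pos, finite_empty, finite_empty, by simp, fun _ _ _ => trivial⟩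
  sets_of_superset := by
    rintro S T ⟨N, E, F, h1, h2, h3, h4, h5⟩ h
    exact ⟨N, E, F, h1, h2, h3, h4, fun x x' hx => h (h5 x x' hx)⟩
  inter_sets := by
    rintro S T ⟨N, E, F, h1, h2, h3, h4, h5⟩ ⟨N', E', F', h1', h2', h3', h4', h5'⟩
    refine ⟨N * N', E ∪ E', F ∪ F', Nat.mul_pos h1 h1', h2.union h2', h3.union h3',
      fun f hf => hf.elim (h4 f) (h4' f), fun x x' hx => ⟨h5 x x' ?_, h5' x x' ?_⟩⟩
    · exact ⟨hx.cong.of_mul_left, fun e he => hx.eqn e (Or.inl he),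
        fun f hf => hx.frm f (Or.inl hf)⟩
    · exact ⟨hx.cong.of_mul_right, fun e he => hx.eqn e (Or.inr he),
        fun f hf => hx.frm f (Or.inr hf)⟩

variable {I : Set Cl}

theorem evm_U {p : (ι → ℚ) × (ι → ℚ) → Prop} : (∀ᶠ z in Um I ι, p z) ↔
    ∃ (N : ℕ) (E : Set (Fu ι × ℚ)) (F : Set (Fm ι)), 0 < N ∧ E.Finite ∧ F.Finite ∧
      (∀ f ∈ F, Okm I f) ∧ ∀ x x', Agr N E F x x' → p (x, x') := Iff.rfl

theorem evm_cong {N : ℕ} (hN : 0 < N) : ∀ᶠ z in Um I ι, Cong N z.1 z.2 :=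
  evm_U.2 ⟨N, ∅, ∅, hN, finite_empty, finite_empty, by simp, fun _ _ h => h.cong⟩

theorem evm_eqn (a : Fu ι) (c : ℚ) : ∀ᶠ z in Um I ι, (a z.1 = c ↔ a z.2 = c) :=
  evm_U.2 ⟨1, {(a, c)}, ∅, one_pos, finite_singleton _, finite_empty, by simp,
    fun _ _ h => h.eqn (a, c) rfl⟩

theorem evm_frm {f : Fm ι} (hf : Okm I f) : ∀ᶠ z in Um I ι, (H (f.ev z.1) ↔ H (f.ev z.2)) :=
  evm_U.2 ⟨1, ∅, {f}, one_pos, finite_empty, finite_singleton _, by simpa using hf,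
    fun _ _ h => h.frm f rfl⟩

theorem evm_agree {X : Type*} {l : Filter X} {u v : X → ι → ℚ} {N : ℕ} {E : Set (Fu ι × ℚ)}
    {F : Set (Fm ι)} (hE : E.Finite) (hF : F.Finite) (h1 : ∀ᶠ z in l, Cong N (u z) (v z))
    (h2 : ∀ e ∈ E, ∀ᶠ z in l, (e.1 (u z) = e.2 ↔ e.1 (v z) = e.2))
    (h3 : ∀ f ∈ F, ∀ᶠ z in l, (H (f.ev (u z)) ↔ H (f.ev (v z)))) :
    ∀ᶠ z in l, Agr N E F (u z) (v z) := by
  filter_upwards [h1, (eventually_all_finite hE).2 h2, (eventually_all_finite hF).2 h3]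
    with z a b c using ⟨a, b, c⟩

theorem dt_iff {X : Set (ι → ℤ)} : Dt I ι X ↔
    ∀ᶠ z in Um I ι, ∀ x x', cz x = z.1 → cz x' = z.2 → x ∈ X → x' ∈ X := by
  rw [evm_U]
  constructor
  · rintro ⟨N, E, F, h1, h2, h3, h4, h5⟩
    refine ⟨N, E, F, h1, h2, h3, h4, ?_⟩
    rintro _ _ h x x' rfl rfl
    exact h5 x x' h
  · rintro ⟨N, E, F, h1, h2, h3, h4, h5⟩
    exact ⟨N, E, F, h1, h2, h3, h4, fun x x' h => h5 _ _ h x x' rfl rfl⟩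

theorem exists_pi0 : ∃ φ : ℝ →ₗ[ℚ] ℚ, φ 1 = 1 := by
  obtain ⟨f, hf⟩ := Module.exists_dual_forall_apply_ne_zero (K := ℚ) (fun _ : Unit => (1 : ℝ))
    fun _ => one_ne_zero
  exact ⟨(f 1)⁻¹ • f, by simp [hf ()]⟩

/-- A rational linear projection of the reals onto the rationals. -/
noncomputable def pi0 : ℝ →ₗ[ℚ] ℚ := exists_pi0.choose

theorem pi0_one : pi0 1 = 1 := exists_pi0.choose_spec

theorem pi0_rat (q : ℚ) : pi0 (q : ℝ) = q := by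
  have : (q : ℝ) = q • (1 : ℝ) := by simp [Rat.smul_def]
  rw [this, map_smul, pi0_one, smul_eq_mul, mul_one]

/-- The pure part of a real number. -/
noncomputable def pur : ℝ →ₗ[ℚ] ℝ := LinearMap.id - (Algebra.linearMap ℚ ℝ).comp pi0

theorem pur_apply (x : ℝ) : pur x = x - pi0 x := by simp [pur]

theorem pi0_pur (x : ℝ) : pi0 (pur x) = 0 := by rw [pur_apply, map_sub, pi0_rat, sub_self]

theorem irr_of_pure {x : ℝ} (h : pi0 x = 0) (h0 : x ≠ 0) : Irrational x := by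
  rintro ⟨q, rfl⟩
  rw [pi0_rat] at h
  exact h0 (by rw [h, Rat.cast_zero])

theorem pur_ne_zero {x : ℝ} : pur x ≠ 0 ↔ Irrational x := by
  constructor
  · rintro h ⟨q, rfl⟩
    exact h (by rw [pur_apply, pi0_rat, sub_self])
  · intro h h1
    rw [pur_apply, sub_eq_zero] at h1
    exact h ⟨_, h1.symm⟩

/-- Evaluation of virtual points at a vector. -/
noncomputable def evl {U : Type} [AddCommGroup U] [Module ℚ U] (u : U) : (U →ₗ[ℚ] ℝ) →ₗ[ℝ] ℝ :=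
  LinearMap.applyₗ' ℝ u

@[simp] theorem evl_apply {U : Type} [AddCommGroup U] [Module ℚ U] (u : U) (χ : U →ₗ[ℚ] ℝ) :
    evl u χ = χ u := rfl

variable {V J : Type} [AddCommGroup V] [Module ℝ V]

/-- `Ψ` depends only on the pattern of the forms. -/
def PInv (F : Set J) (n : J → V →ₗ[ℝ] ℝ) (g : J → ℝ) (Ψ : V → Prop) : Prop :=
  ∀ χ χ', (∀ j ∈ F, (H (n j χ + g j) ↔ H (n j χ' + g j))) → Ψ χ → Ψ χ'

/-- Near `p`, `Ψ` is a half space, and all walls near `p` are parallel to it and pass through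
`p`. -/
def HS (F : Set J) (n : J → V →ₗ[ℝ] ℝ) (g : J → ℝ) (Ψ : V → Prop) (φ : V →ₗ[ℝ] ℝ) (p : V) :
    Prop :=
  ∃ ρ : ℝ, 0 < ρ ∧ (∀ j ∈ F, n j = 0 ∨ (∃ (c : ℝ) (l : ℤ), n j = c • φ ∧ n j p + g j = l / 2) ∨
      ∀ l : ℤ, ρ ≤ |n j p + g j - l / 2|) ∧
    ∀ χ, (∀ j ∈ F, |n j χ - n j p| < ρ) → (φ χ < φ p → Ψ χ) ∧ (φ p < φ χ → ¬ Ψ χ)

end Pool.Agent.Work.MP_340ce7_lc
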