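import Pool.Agent.Work.MP_340ce7_lc.Gen.Base

namespace Pool.Agent.Work.MP_340ce7_lc

open Set Filter Topology

theorem G_sign {c a b : ℝ} (h : 0 < a * b) (h1 : 0 ≤ c * a) : 0 ≤ c * b := by
  by_contra h2
  have h3 : c * b < 0 := not_le.1 h2
  have h4 : c ≠ 0 := fun e => by
    rw [e, zero_mul] at h3
    exact lt_irrefl _ h3
  have h5 : 0 < c ^ 2 * (a * b) := mul_pos (by positivity) h
  have h6 : (c * a) * (c * b) ≤ 0 := mul_nonpos_of_nonneg_of_nonpos h1 h3.le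
  have h7 : c ^ 2 * (a * b) = (c * a) * (c * b) := by ring
  linarith

theorem G_off {v : ℝ} (h : ∀ l : ℤ, v ≠ l / 2) : ∀ᶠ ρ in 𝓝[>] (0 : ℝ),
    (∀ l : ℤ, ρ ≤ |v - l / 2|) ∧ ∀ w, |w - v| < ρ → (H w ↔ H v) := by
  obtain ⟨ε, hε, h1⟩ := Metric.eventually_nhds_iff.1 ((off_half h).and (Switch_H h))
  filter_upwards [Ioo_mem_nhdsGT hε] with ρ hρ
  refine ⟨fun l => not_lt.1 fun h2 => ?_, fun w hw => (h1 ?_).2⟩
  · refine (h1 (y := (l : ℝ) / 2) ?_).1 l right_mem_uIcc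
    rw [Real.dist_eq, abs_sub_comm]
    exact h2.trans hρ.2
  · rw [Real.dist_eq]
    exact hw.trans hρ.2

theorem G_side {J : Type} {F : Set J} (hF : F.Finite) (m v : J → ℝ) (c : ℝ) :
    ∃ ε : ℝ, 0 < ε ∧
      (∀ x ∈ Ioo (c - ε) c, ∀ y ∈ Ioo (c - ε) c, ∀ j ∈ F,
        (H (m j * x + v j) ↔ H (m j * y + v j))) ∧
      ∀ x ∈ Ioo c (c + ε), ∀ y ∈ Ioo c (c + ε), ∀ j ∈ F,
        (H (m j * x + v j) ↔ H (m j * y + v j)) := by
  obtain ⟨ε, hε, h⟩ := mem_nhdsGT_iff_exists_Ioo_subset.1 ((eventually_all_finite hF).2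
    fun j _ => (ev_Hs (-m j) (m j * c + v j)).and (ev_Hs (m j) (m j * c + v j)))
  have h1 : ∀ x ∈ Ioo (c - ε) c, ∀ j ∈ F,
      (H (m j * x + v j) ↔ Hs (-m j) (m j * c + v j)) := fun x hx j hj => by
    rw [← (h (show c - x ∈ Ioo 0 ε from ⟨by linarith [hx.2], by linarith [hx.1]⟩) j hj).1]
    exact Iff.of_eq (congrArg H (by ring))
  have h2 : ∀ x ∈ Ioo c (c + ε), ∀ j ∈ F,
      (H (m j * x + v j) ↔ Hs (m j) (m j * c + v j)) := fun x hx j hj => by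
    rw [← (h (show x - c ∈ Ioo 0 ε from ⟨by linarith [hx.1], by linarith [hx.2]⟩) j hj).2]
    exact Iff.of_eq (congrArg H (by ring))
  exact ⟨ε, hε, fun x hx y hy j hj => (h1 x hx j hj).trans (h1 y hy j hj).symm,
    fun x hx y hy j hj => (h2 x hx j hj).trans (h2 y hy j hj).symm⟩

theorem G_core {V J : Type} [AddCommGroup V] [Module ℝ V] {F : Set J} (hF : F.Finite)
    {n : J → V →ₗ[ℝ] ℝ} {g : J → ℝ} {Ψ : V → Prop} (hΨ : PInv F n g Ψ) {θ δ : V}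
    (h0 : ∀ j ∈ F, n j ≠ 0 → ∀ l : ℤ, n j θ + g j ≠ l / 2)
    (h1 : ∀ j ∈ F, n j ≠ 0 → ∀ l : ℤ, n j (θ + δ) + g j ≠ l / 2) (Gd : Set J)
    (hG : ∀ j ∈ F, j ∈ Gd → n j ≠ 0 → ∀ l : ℤ,
      (l : ℝ) / 2 ∉ uIcc (n j θ + g j) (n j (θ + δ) + g j)) (a : Ψ θ) (b : ¬ Ψ (θ + δ))
    (hgen : ∀ i ∈ F, ∀ j ∈ F, ∀ (l l' : ℤ) (t : ℝ), n i (θ + t • δ) + g i = l / 2 →
      n j (θ + t • δ) + g j = l' / 2 → n j δ • n i = n i δ • n j) :
    ∃ f ∈ F, f ∉ Gd ∧ n f ≠ 0 ∧ ∃ (φ : V →ₗ[ℝ] ℝ) (p : V), (φ = n f ∨ φ = -n f) ∧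
      (∃ l : ℤ, n f p + g f = l / 2) ∧ HS F n g Ψ φ p := by
  have e : ∀ (j : J) (t : ℝ), n j (θ + t • δ) + g j = n j δ * t + (n j θ + g j) := fun j t => by
    rw [map_add, map_smul, smul_eq_mul]
    ring
  have hne : ∀ j, n j δ ≠ 0 → n j ≠ 0 := fun j h h2 => h (by rw [h2, LinearMap.zero_apply])
  have hf : ∀ x y : ℝ, (∀ j ∈ F, (H (n j δ * x + (n j θ + g j)) ↔
      H (n j δ * y + (n j θ + g j)))) → Ψ (θ + x • δ) → Ψ (θ + y • δ) := fun x y h =>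
    hΨ _ _ fun j hj => by
      rw [e, e]
      exact h j hj
  have hloc : ∀ c : ℝ, (∀ j ∈ F, n j δ ≠ 0 → ∀ l : ℤ, n j δ * c + (n j θ + g j) ≠ l / 2) →
      ∀ᶠ x in 𝓝 c, ∀ j ∈ F, (H (n j δ * x + (n j θ + g j)) ↔ H (n j δ * c + (n j θ + g j))) :=
    fun c h => (eventually_all_finite hF).2 fun j hj => loc_H (h j hj)
  obtain ⟨c, hc, ε, hε, h4, h5⟩ := cut_at (f := fun t : ℝ => Ψ (θ + t • δ)) zero_lt_one
    ((hloc 0 fun j hj hm l => by
      rw [mul_zero, zero_add]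
      exact h0 j hj (hne j hm) l).mono fun x hx =>
        hf 0 x (fun j hj => (hx j hj).symm) (by rwa [zero_smul, add_zero]))
    ((hloc 1 fun j hj hm l => by
      rw [← e, one_smul]
      exact h1 j hj (hne j hm) l).mono fun x hx h6 => b (by
        have := hf x 1 hx h6
        rwa [one_smul] at this))
    fun c => (G_side hF (fun j => n j δ) (fun j => n j θ + g j) c).imp fun ε hε => ⟨hε.1,
      fun x hx y hy => hf x y (hε.2.1 x hx y hy), fun x hx y hy => hf x y (hε.2.2 x hx y hy)⟩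
  obtain ⟨f, hfF, hm, l, hl⟩ : ∃ f ∈ F, n f δ ≠ 0 ∧ ∃ l : ℤ,
      n f δ * c + (n f θ + g f) = l / 2 := by
    by_contra hn
    obtain ⟨η, hη, h10⟩ := Metric.eventually_nhds_iff.1 (hloc c fun j hj hm l hl =>
      hn ⟨j, hj, hm, l, hl⟩)
    have hμ : 0 < min ε η := lt_min hε hη
    have m1 := min_le_left ε η
    have m2 := min_le_right ε η
    have d1 : dist (c - min ε η / 2) c < η := by
      rw [Real.dist_eq, abs_lt]
      constructor <;> linarith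
    have d2 : dist (c + min ε η / 2) c < η := by
      rw [Real.dist_eq, abs_lt]
      constructor <;> linarith
    exact h5 (c + min ε η / 2) ⟨by linarith, by linarith⟩ (hf _ _
      (fun j hj => (h10 d1 j hj).trans (h10 d2 j hj).symm)
      (h4 (c - min ε η / 2) ⟨by linarith, by linarith⟩))
  obtain ⟨φ, hφ, hμ, hφ2⟩ : ∃ φ : V →ₗ[ℝ] ℝ, (φ = n f ∨ φ = -n f) ∧ 0 < φ δ ∧
      ∃ k : ℝ, n f = k • φ := by
    rcases lt_or_gt_of_ne hm with h | h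
    · exact ⟨-n f, Or.inr rfl, by rwa [LinearMap.neg_apply, neg_pos], -1,
        LinearMap.ext fun x => by
          rw [LinearMap.smul_apply, LinearMap.neg_apply, smul_eq_mul]
          ring⟩
    · exact ⟨n f, Or.inl rfl, h, 1, (one_smul _ _).symm⟩
  obtain ⟨k, hk⟩ := hφ2
  refine ⟨f, hfF, fun hg => hG f hfF hg (hne f hm) l ?_, hne f hm, φ, θ + c • δ, hφ,
    ⟨l, (e f c).trans hl⟩, ?_⟩
  · rw [← hl, map_add, mem_uIcc]
    have k1 := hc.1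
    have k2 := sub_nonneg.2 hc.2
    rcases le_total 0 (n f δ) with h | h
    · exact Or.inl ⟨by linarith [mul_nonneg h k1], by linarith [mul_nonneg h k2]⟩
    · exact Or.inr ⟨by linarith [mul_nonneg (neg_nonneg.2 h) k2],
        by linarith [mul_nonneg (neg_nonneg.2 h) k1]⟩
  have hwall : ∀ j ∈ F, ∀ l' : ℤ, n j (θ + c • δ) + g j = l' / 2 → ∃ k' : ℝ, n j = k' • φ :=
    fun j hj l' hl' => by
      have h6 := hgen f hfF j hj l l' c ((e f c).trans hl) hl'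
      refine ⟨(n f δ)⁻¹ * (n j δ * k), ?_⟩
      rw [mul_smul, mul_smul, ← hk, h6, smul_smul, inv_mul_cancel₀ hm, one_smul]
  generalize hp : θ + c • δ = p at hwall
  have h7 : ∀ᶠ ρ in 𝓝[>] (0 : ℝ), ∀ j ∈ F, (∃ l' : ℤ, n j p + g j = l' / 2) ∨
      ((∀ l' : ℤ, ρ ≤ |n j p + g j - l' / 2|) ∧
        ∀ w, |w - (n j p + g j)| < ρ → (H w ↔ H (n j p + g j))) := by
    refine (eventually_all_finite hF).2 fun j _ => ?_
    by_cases h : ∃ l' : ℤ, n j p + g j = l' / 2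
    · exact Eventually.of_forall fun _ => Or.inl h
    · exact (G_off fun l' h2 => h ⟨l', h2⟩).mono fun _ h2 => Or.inr h2
  obtain ⟨ρ, h8, hρ⟩ := (h7.and (Ioo_mem_nhdsGT (show (0 : ℝ) < 1 / 2 by norm_num))).exists
  have same : ∀ χ χ', (∀ j ∈ F, |n j χ - n j p| < ρ) → (∀ j ∈ F, |n j χ' - n j p| < ρ) →
      0 < (φ χ - φ p) * (φ χ' - φ p) → Ψ χ → Ψ χ' := fun χ χ' a1 a2 a3 =>
    hΨ _ _ fun j hj => by
      rcases h8 j hj with ⟨l', h9⟩ | h9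
      · obtain ⟨k', hk'⟩ := hwall j hj l' h9
        have e1 : ∀ z, n j z + g j = (n j z - n j p) + l' / 2 := fun z => by
          rw [← h9]
          ring
        have e2 : ∀ z, n j z - n j p = k' * (φ z - φ p) := fun z => by
          rw [hk', LinearMap.smul_apply, LinearMap.smul_apply, smul_eq_mul, smul_eq_mul]
          ring
        rw [e1 χ, e1 χ', H_half ((a1 j hj).trans hρ.2), H_half ((a2 j hj).trans hρ.2), e2, e2]
        exact iff_congr Iff.rfl ⟨G_sign a3, G_sign (by rwa [mul_comm])⟩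
      · refine (h9.2 _ ?_).trans (h9.2 _ ?_).symm
        · rw [add_sub_add_right_eq_sub]
          exact a1 j hj
        · rw [add_sub_add_right_eq_sub]
          exact a2 j hj
  have h11 : ∀ᶠ τ in 𝓝[>] (0 : ℝ), ∀ j ∈ F, |n j δ * τ| < ρ := by
    refine ((eventually_all_finite hF).2 fun j _ => ?_).filter_mono nhdsWithin_le_nhds
    have h12 : Tendsto (fun s : ℝ => |n j δ * s|) (𝓝 0) (𝓝 |n j δ * 0|) :=
      (tendsto_id.const_mul _).abs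
    rw [mul_zero, abs_zero] at h12
    exact h12.eventually (gt_mem_nhds hρ.1)
  obtain ⟨τ, h12, hτ⟩ := (h11.and (Ioo_mem_nhdsGT hε)).exists
  have e3 : ∀ (ψ : V →ₗ[ℝ] ℝ) (s : ℝ), ψ (θ + (c + s) • δ) - ψ p = ψ δ * s := fun ψ s => by
    rw [← hp, map_add, map_add, map_smul, map_smul, smul_eq_mul, smul_eq_mul]
    ring
  have hpos : 0 < φ δ * τ := mul_pos hμ hτ.1
  refine ⟨ρ, hρ.1, fun j hj => Or.inr ?_, fun χ hχ => ⟨fun h => ?_, fun h h13 => ?_⟩⟩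
  · rcases h8 j hj with ⟨l', h9⟩ | h9
    · obtain ⟨k', hk'⟩ := hwall j hj l' h9
      exact Or.inl ⟨k', l', hk', h9⟩
    · exact Or.inr h9.1
  · refine same (θ + (c + -τ) • δ) χ (fun j hj => ?_) hχ ?_
      (h4 (c + -τ) ⟨by linarith [hτ.2], by linarith [hτ.1]⟩)
    · rw [e3, mul_neg, abs_neg]
      exact h12 j hj
    · rw [e3, mul_neg]
      exact mul_pos_of_neg_of_neg (neg_neg_of_pos hpos) (sub_neg.2 h)
  · refine h5 (c + τ) ⟨by linarith [hτ.1], by linarith [hτ.2]⟩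
      (same χ (θ + (c + τ) • δ) hχ (fun j hj => ?_) ?_ h13)
    · rw [e3]
      exact h12 j hj
    · rw [e3]
      exact mul_pos (sub_pos.2 h) hpos

theorem G_shift {V J : Type} [AddCommGroup V] [Module ℝ V] {F : Set J} (hF : F.Finite)
    {n : J → V →ₗ[ℝ] ℝ} {g : J → ℝ} {θ : V} (u : V)
    (h0 : ∀ j ∈ F, n j ≠ 0 → ∀ l : ℤ, n j θ + g j ≠ l / 2) :
    ∀ᶠ s in 𝓝 (0 : ℝ), ∀ j ∈ F, (H (n j (θ + s • u) + g j) ↔ H (n j θ + g j)) ∧
      (n j ≠ 0 → ∀ l : ℤ, (l : ℝ) / 2 ∉ uIcc (n j θ + g j) (n j (θ + s • u) + g j)) := by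
  refine (eventually_all_finite hF).2 fun j hj => ?_
  by_cases h : n j = 0
  · exact Eventually.of_forall fun s => ⟨by rw [h, LinearMap.zero_apply, LinearMap.zero_apply],
      fun h1 => absurd h h1⟩
  · have h1 : Tendsto (fun s : ℝ => n j u * s + (n j θ + g j)) (𝓝 0)
        (𝓝 (n j u * 0 + (n j θ + g j))) := (tendsto_id.const_mul _).add_const _
    rw [mul_zero, zero_add] at h1
    filter_upwards [h1.eventually ((Switch_H (h0 j hj h)).and (off_half (h0 j hj h)))] with s hs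
    have e : n j (θ + s • u) + g j = n j u * s + (n j θ + g j) := by
      rw [map_add, map_smul, smul_eq_mul]
      ring
    rw [e]
    exact ⟨hs.1, fun _ => hs.2⟩

/-- A generic segment crosses an essential wall which is not good. -/
theorem gen_seg {V J : Type} [AddCommGroup V] [Module ℝ V] {F : Set J} (hF : F.Finite)
    {n : J → V →ₗ[ℝ] ℝ} {g : J → ℝ} {Ψ : V → Prop} (hΨ : PInv F n g Ψ) {θ0 θ1 : V}
    (h0 : ∀ j ∈ F, n j ≠ 0 → ∀ l : ℤ, n j θ0 + g j ≠ l / 2)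
    (h1 : ∀ j ∈ F, n j ≠ 0 → ∀ l : ℤ, n j θ1 + g j ≠ l / 2) (Gd : Set J)
    (hG : ∀ j ∈ F, j ∈ Gd → n j ≠ 0 → ∀ l : ℤ,
      (l : ℝ) / 2 ∉ uIcc (n j θ0 + g j) (n j θ1 + g j)) (a : Ψ θ0) (b : ¬ Ψ θ1) :
    ∃ f ∈ F, f ∉ Gd ∧ n f ≠ 0 ∧ ∃ (φ : V →ₗ[ℝ] ℝ) (p : V), (φ = n f ∨ φ = -n f) ∧
      (∃ l : ℤ, n f p + g f = l / 2) ∧ HS F n g Ψ φ p := by
  obtain ⟨δ, rfl⟩ : ∃ δ, θ1 = θ0 + δ := ⟨θ1 - θ0, (add_sub_cancel _ _).symm⟩
  let ψ : J × J → V →ₗ[ℝ] ℝ := fun q => n q.2 δ • n q.1 - n q.1 δ • n q.2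
  have hS : {q : J × J | q ∈ F ×ˢ F ∧ ψ q ≠ 0}.Finite := (hF.prod hF).subset fun q hq => hq.1
  have := hS.to_subtype
  obtain ⟨u, hu⟩ := Module.Dual.exists_forall_ne_zero_of_forall_exists
    (fun q : {q : J × J | q ∈ F ×ˢ F ∧ ψ q ≠ 0} => ψ q.1) fun q => by
      by_contra h
      exact q.2.2 (LinearMap.ext fun x => not_not.1 fun h2 => h ⟨x, h2⟩)
  have hC : (⋃ q ∈ F ×ˢ F, range fun l : ℤ × ℤ =>
      (n q.2 δ * (l.1 / 2 - g q.1) - n q.1 δ * (l.2 / 2 - g q.2) - ψ q θ0) / ψ q u).Countable :=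
    (hF.prod hF).countable.biUnion fun q _ => countable_range _
  obtain ⟨s, hs, k0, k1⟩ := ((mem_closure_iff_frequently.1 (hC.dense_compl ℝ 0)).and_eventually
    ((G_shift hF u h0).and (G_shift hF u h1))).exists
  have e : θ0 + δ + s • u = θ0 + s • u + δ := add_right_comm _ _ _
  rw [e] at k1
  refine G_core hF hΨ (θ := θ0 + s • u) (δ := δ)
    (fun j hj h l h2 => (k0 j hj).2 h l (h2 ▸ right_mem_uIcc))
    (fun j hj h l h2 => (k1 j hj).2 h l (h2 ▸ right_mem_uIcc)) Gd (fun j hj hg h l h2 => ?_)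
    (hΨ _ _ (fun j hj => (k0 j hj).1.symm) a) (fun h => b (hΨ _ _ (fun j hj => (k1 j hj).1) h))
    fun i hi j hj l l' t a1 a2 => ?_
  · rcases uIcc_subset_uIcc_union_uIcc (b := n j θ0 + g j) h2 with h3 | h3
    · rw [uIcc_comm] at h3
      exact (k0 j hj).2 h l h3
    · rcases uIcc_subset_uIcc_union_uIcc (b := n j (θ0 + δ) + g j) h3 with h4 | h4
      · exact hG j hj hg h l h4
      · exact (k1 j hj).2 h l h4
  · by_contra h
    have h2 : ψ (i, j) ≠ 0 := fun h3 => h (sub_eq_zero.1 h3)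
    have h3 : ψ (i, j) u ≠ 0 := hu ⟨(i, j), ⟨hi, hj⟩, h2⟩
    refine hs (mem_biUnion (show (i, j) ∈ F ×ˢ F from ⟨hi, hj⟩) ⟨(l, l'), ?_⟩)
    rw [div_eq_iff h3]
    simp only [ψ, LinearMap.sub_apply, LinearMap.smul_apply, smul_eq_mul]
    simp only [map_add, map_smul, smul_eq_mul] at a1 a2
    rw [← a1, ← a2]
    ring

end Pool.Agent.Work.MP_340ce7_lc
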