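import Pool.Agent.Work.MP_340ce7_lc.Gen.Base

namespace Pool.Agent.Work.MP_340ce7_lc

open Set Filter Topology

theorem L_basis {U : Type} [AddCommGroup U] [Module ℚ U] {s T : Set U} (hT : T.Finite)
    (hs : LinearIndepOn ℚ id s) (hsT : s ⊆ T) : ∃ b : Finset U, s ⊆ ↑b ∧ ↑b ⊆ T ∧
      LinearIndepOn ℚ id (↑b : Set U) ∧ ∃ e : U → U →ₗ[ℚ] ℚ, ∀ u ∈ T, u = ∑ a ∈ b, e a u • a := by
  classical
  obtain ⟨b0, h1, h2, h3, h4⟩ := exists_linearIndepOn_id_extension hs hsT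
  obtain ⟨b, rfl⟩ := (hT.subset h1).exists_finset_coe
  refine ⟨b, h2, h1, h4, ?_⟩
  have hv : LinearIndependent ℚ (fun x : b => (x : U)) := h4
  obtain ⟨g, hg⟩ := LinearMap.exists_extend hv.repr
  refine ⟨fun a => if h : a ∈ b then (Finsupp.lapply (⟨a, h⟩ : b)).comp g else 0, fun u hu => ?_⟩
  have hu' : u ∈ Submodule.span ℚ (range fun x : b => (x : U)) := by
    have : (range fun x : b => (x : U)) = ↑b := Subtype.range_coe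
    rw [this]; exact h3 hu
  have h5 := hv.linearCombination_repr ⟨u, hu'⟩
  have h6 : g u = hv.repr ⟨u, hu'⟩ := by rw [← hg]; rfl
  rw [← h6, Finsupp.linearCombination_apply, Finsupp.sum_fintype _ _ (by simp)] at h5
  rw [← Finset.sum_coe_sort b]
  refine h5.symm.trans (Finset.sum_congr rfl fun a _ => ?_)
  simp [a.2]

theorem L_ind {A : Set ℝ} (hp : ∀ a ∈ A, pi0 a = 0) (h : LinearIndepOn ℚ id A) : Ind A := by
  intro s c c0 hs hc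
  have h1 : ∑ α ∈ s, c α • α = (c0 : ℝ) := by simpa only [Rat.smul_def] using hc
  have h2 := congrArg pi0 h1
  rw [map_sum, pi0_rat, Finset.sum_eq_zero fun a ha => by
    rw [map_smul, hp a (hs ha), smul_zero]] at h2
  rw [← h2, Rat.cast_zero] at h1
  exact linearIndepOn_iff'.1 h s c hs h1

theorem L_coords {s Γ : Set ℝ} (hΓ : Γ.Finite) (hp : ∀ β ∈ Γ, pi0 β = 0)
    (hs : LinearIndepOn ℚ id s) (hsT : s ⊆ Γ) : ∃ A1 : Finset ℝ, Ind ↑A1 ∧ s ⊆ ↑A1 ∧ ↑A1 ⊆ Γ ∧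
      ∃ N : ℕ, 0 < N ∧ ∃ m : ℝ → ℝ → ℤ, ∀ β ∈ Γ, (N : ℝ) * β = ∑ a ∈ A1, (m β a : ℝ) * a := by
  obtain ⟨b, h1, h2, h3, e, he⟩ := L_basis hΓ hs hsT
  obtain ⟨N, hN, h⟩ := common_den (hΓ.prod b.finite_toSet) (fun z : ℝ × ℝ => e z.2 z.1)
  refine ⟨b, L_ind (fun a ha => hp a (h2 ha)) h3, h1, h2, N, hN,
    fun β a => ⌊e a β * N⌋, fun β hβ => ?_⟩
  conv_lhs => rw [he β hβ, Finset.mul_sum]
  refine Finset.sum_congr rfl fun a ha => ?_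
  obtain ⟨n, hn⟩ := h (β, a) ⟨hβ, ha⟩
  have h4 : ((e a β : ℚ) : ℝ) * N = n := by exact_mod_cast hn
  simp only at hn
  simp only [hn, Int.floor_intCast, Rat.smul_def, ← h4]
  ring

theorem coords {Γ : Set ℝ} (hΓ : Γ.Finite) (hp : ∀ β ∈ Γ, pi0 β = 0) {γ : ℝ} (hγ : pi0 γ = 0)
    (h0 : γ ≠ 0) : ∃ A1 : Finset ℝ, Ind ↑A1 ∧ γ ∈ A1 ∧ (∀ a ∈ A1, a = γ ∨ a ∈ Γ) ∧
      ∃ N : ℕ, 0 < N ∧ ∃ m : ℝ → ℝ → ℤ, ∀ β ∈ Γ, (N : ℝ) * β = ∑ a ∈ A1, (m β a : ℝ) * a := by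
  obtain ⟨A1, h1, h2, h3, N, hN, m, hm⟩ := L_coords (s := {γ}) (hΓ.insert γ)
    (by rintro β (rfl | h); exacts [hγ, hp β h]) (LinearIndepOn.singleton h0)
    (singleton_subset_iff.2 (mem_insert _ _))
  exact ⟨A1, h1, h2 rfl, fun a ha => h3 ha, N, hN, m, fun β hβ => hm β (Or.inr hβ)⟩

theorem L_bound {J κ : Type} {Γ : Set J} (hΓ : Γ.Finite) (b : Finset κ) (m : J → κ → ℝ) :
    ∃ C : ℝ, 0 < C ∧ ∀ (x : κ → ℝ) (δ : ℝ), 0 ≤ δ → (∀ a ∈ b, |x a| ≤ δ) → ∀ β ∈ Γ,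
      |∑ a ∈ b, m β a * x a| ≤ C * δ := by
  obtain ⟨C, hC⟩ := (hΓ.image fun β => ∑ a ∈ b, |m β a|).bddAbove
  refine ⟨|C| + 1, by positivity, fun x δ hδ hx β hβ => ?_⟩
  have h1 : ∑ a ∈ b, |m β a| ≤ C := hC ⟨β, hβ, rfl⟩
  calc _ ≤ ∑ a ∈ b, |m β a * x a| := Finset.abs_sum_le_sum_abs _ _
    _ ≤ ∑ a ∈ b, |m β a| * δ := Finset.sum_le_sum fun a ha => by
        rw [abs_mul]; exact mul_le_mul_of_nonneg_left (hx a ha) (abs_nonneg _)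
    _ = (∑ a ∈ b, |m β a|) * δ := (Finset.sum_mul _ _ _).symm
    _ ≤ _ := mul_le_mul_of_nonneg_right (by linarith [le_abs_self C]) hδ

theorem L_near {J κ : Type} {Γ : Set J} (hΓ : Γ.Finite) (b : Finset κ) (m : J → κ → ℤ) {η : ℝ}
    (hη : 0 < η) : ∃ δ : ℝ, 0 < δ ∧ ∀ x : κ → ℝ, (∀ a ∈ b, Near (x a) δ) → ∀ β ∈ Γ,
      Near (∑ a ∈ b, (m β a : ℝ) * x a) η := by
  obtain ⟨C, hC, h⟩ := L_bound hΓ b fun β a => (m β a : ℝ)
  refine ⟨η / (2 * C), by positivity, fun x hx β hβ => ?_⟩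
  choose! n hn using hx
  have h1 := h (fun a => x a - n a) (η / (2 * C)) (by positivity) (fun a ha => (hn a ha).le) β hβ
  refine ⟨∑ a ∈ b, m β a * n a, ?_⟩
  have h2 : C * (η / (2 * C)) = η / 2 := by field_simp
  have h3 : ∑ a ∈ b, (m β a : ℝ) * x a - ((∑ a ∈ b, m β a * n a : ℤ) : ℝ) =
      ∑ a ∈ b, (m β a : ℝ) * (x a - n a) := by
    push_cast
    rw [← Finset.sum_sub_distrib]
    exact Finset.sum_congr rfl fun a _ => by ring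
  rw [h3]
  linarith

theorem kron_v {Γ : Set ℝ} (hΓ : Γ.Finite) (hp : ∀ β ∈ Γ, pi0 β = 0) (χ : ℝ →ₗ[ℚ] ℝ) {η : ℝ}
    (hη : 0 < η) {Φ : Set ℤ} (hΦ : Φ.Finite) :
    ∃ t : ℤ, t ∉ Φ ∧ ∀ β ∈ Γ, Near (t * β - χ β) η := by
  obtain ⟨A1, h1, -, -, N, hN, m, hm⟩ := L_coords (s := ∅) hΓ hp (linearIndepOn_empty _ _)
    (empty_subset _)
  obtain ⟨δ, hδ, h⟩ := L_near hΓ A1 m hη
  have hN' : (N : ℝ) ≠ 0 := by exact_mod_cast hN.ne'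
  have hΦ' : ((fun k : ℤ => (N : ℤ) * k) ⁻¹' Φ).Finite :=
    hΦ.preimage (mul_right_injective₀ (by exact_mod_cast hN.ne')).injOn
  obtain ⟨k, hk, h2⟩ := kron1 h1 A1 Subset.rfl (fun a => χ a / N) hδ hΦ'
  refine ⟨N * k, hk, fun β hβ => ?_⟩
  have h3 := h _ h2 β hβ
  have h4 : (N : ℝ) * χ β = ∑ a ∈ A1, (m β a : ℝ) * χ a := by
    have h5 := congrArg χ (hm β hβ)
    simp only [← nsmul_eq_mul, ← zsmul_eq_mul, map_nsmul, map_sum, map_zsmul] at h5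
    simpa only [nsmul_eq_mul, zsmul_eq_mul] using h5
  have h5 : ∑ a ∈ A1, (m β a : ℝ) * (k * a - χ a / N) = ((N * k : ℤ) : ℝ) * β - χ β := by
    have h6 : ∀ a ∈ A1, (m β a : ℝ) * (k * a - χ a / N) =
        k * ((m β a : ℝ) * a) - (N : ℝ)⁻¹ * ((m β a : ℝ) * χ a) := fun a _ => by ring
    rw [Finset.sum_congr rfl h6, Finset.sum_sub_distrib, ← Finset.mul_sum, ← Finset.mul_sum,
      ← hm β hβ, ← h4]
    push_cast
    field_simp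
  rwa [h5] at h3

theorem kron_m {ι : Type} [Fintype ι] {S : Set (ι → ℝ)} (hS : S.Finite)
    (hp : ∀ u ∈ S, ∀ i, pi0 (u i) = 0) (χ : (ι → ℝ) →ₗ[ℚ] ℝ) {M : ℕ} (hM : 0 < M) {η : ℝ}
    (hη : 0 < η) : ∃ w : ι → ℤ, (∀ i, (M : ℤ) ∣ w i) ∧
      ∀ u ∈ S, Near (∑ i, (w i : ℝ) * u i - χ u) η := by
  classical
  obtain ⟨δ, hδ, h⟩ := L_near (finite_singleton ()) (Finset.univ : Finset ι) (fun _ _ => 1) hη
  have hM' : (M : ℚ) ≠ 0 := by exact_mod_cast hM.ne'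
  have key : ∀ i, ∃ t : ℤ, ∀ u ∈ S, Near (((M * t : ℤ) : ℝ) * u i - χ (Pi.single i (u i))) δ := by
    intro i
    obtain ⟨t, -, ht⟩ := kron_v (hS.image fun u => (M : ℚ) • u i)
      (by rintro _ ⟨u, hu, rfl⟩; simp only [map_smul, hp u hu i, smul_zero])
      ((M : ℚ)⁻¹ • χ.comp (LinearMap.single ℚ (fun _ => ℝ) i)) hδ finite_empty
    refine ⟨t, fun u hu => ?_⟩
    have h1 := ht _ ⟨u, hu, rfl⟩
    rw [map_smul, LinearMap.smul_apply, smul_smul, mul_inv_cancel₀ hM', one_smul] at h1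
    have h2 : ((M * t : ℤ) : ℝ) * u i = t * ((M : ℚ) • u i) := by
      rw [Rat.smul_def]; push_cast; ring
    rw [h2]
    exact h1
  choose t ht using key
  refine ⟨fun i => M * t i, fun i => dvd_mul_right _ _, fun u hu => ?_⟩
  have h1 := h _ (fun i _ => ht i u hu) () rfl
  simp only [Int.cast_one, one_mul] at h1
  rwa [Finset.sum_sub_distrib, ← map_sum, Finset.univ_sum_single] at h1

theorem exists_dir {γ : ℝ} {S : Set ℝ} (hS : S.Finite) (h : ∀ d ∈ S, ∀ q : ℚ, d ≠ q * γ) :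
    ∃ u : ℝ →ₗ[ℚ] ℝ, u γ = 0 ∧ ∀ d ∈ S, u d ≠ 0 := by
  have := hS.to_subtype
  obtain ⟨f, hf⟩ := Module.exists_dual_forall_apply_ne_zero (K := ℚ)
    (fun d : S => (Submodule.span ℚ {γ}).mkQ (d : ℝ)) fun d hd => by
      rw [Submodule.mkQ_apply, Submodule.Quotient.mk_eq_zero, Submodule.mem_span_singleton] at hd
      obtain ⟨q, hq⟩ := hd
      exact h d d.2 q (by rw [← hq, Rat.smul_def])
  refine ⟨(Algebra.linearMap ℚ ℝ).comp (f.comp (Submodule.span ℚ {γ}).mkQ), ?_, fun d hd => ?_⟩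
  · have : (Submodule.span ℚ {γ}).mkQ γ = 0 :=
      (Submodule.Quotient.mk_eq_zero _).2 (Submodule.mem_span_singleton_self γ)
    simp only [LinearMap.comp_apply, this, map_zero]
  · simpa using hf ⟨d, hd⟩

theorem exists_one {γ : ℝ} (h : γ ≠ 0) : ∃ u : ℝ →ₗ[ℚ] ℝ, u γ = 1 := by
  obtain ⟨f, hf⟩ := Module.exists_dual_forall_apply_ne_zero (K := ℚ) (fun _ : Unit => γ)
    fun _ => h
  exact ⟨(Algebra.linearMap ℚ ℝ).comp ((f γ)⁻¹ • f), by simp [hf ()]⟩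

theorem lattice {U : Type} [AddCommGroup U] [Module ℚ U] {F Gd : Set U} (hF : F.Finite)
    (hG : Gd ⊆ F) : ∃ (D : ℕ) (C : ℝ), 0 < D ∧ 0 < C ∧ ∀ (Δ : U →ₗ[ℚ] ℝ) (η : ℝ),
      (∀ u ∈ Gd, ∃ k : ℤ, |Δ u - D * k| ≤ η) → ∃ lam : U →ₗ[ℚ] ℝ,
        (∀ u ∈ F, ∃ k : ℤ, lam u = k) ∧ ∀ u ∈ Gd, |Δ u - lam u| ≤ C * η := by
  obtain ⟨b, -, h2, -, e, he⟩ := L_basis (s := ∅) (hF.subset hG) (linearIndepOn_empty _ _)
    (empty_subset _)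
  obtain ⟨D, hD, h⟩ := common_den (hF.prod b.finite_toSet) (fun z : U × U => e z.2 z.1)
  obtain ⟨C, hC, hb⟩ := L_bound (hF.subset hG) b fun u a => ((e a u : ℚ) : ℝ)
  refine ⟨D, C, hD, hC, fun Δ η hΔ => ?_⟩
  choose! k hk using hΔ
  have hl : ∀ u, (∑ a ∈ b, (e a).smulRight ((D : ℝ) * k a)) u =
      ∑ a ∈ b, ((e a u : ℚ) : ℝ) * (D * k a) := fun u => by
    simp only [LinearMap.sum_apply, LinearMap.smulRight_apply, Rat.smul_def]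
  refine ⟨∑ a ∈ b, (e a).smulRight ((D : ℝ) * k a), fun u hu => ?_, fun u hu => ?_⟩
  · refine ⟨∑ a ∈ b, ⌊e a u * D⌋ * k a, ?_⟩
    rw [hl, Int.cast_sum]
    refine Finset.sum_congr rfl fun a ha => ?_
    obtain ⟨n, hn⟩ := h (u, a) ⟨hu, ha⟩
    have h4 : ((e a u : ℚ) : ℝ) * D = n := by exact_mod_cast hn
    simp only at hn
    rw [hn, Int.floor_intCast, Int.cast_mul, ← h4, mul_assoc]
  · have h3 := hb (fun a => Δ a - D * k a) η ((abs_nonneg _).trans (hk u hu))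
      (fun a ha => hk a (h2 ha)) u hu
    have h4 : Δ u = ∑ a ∈ b, ((e a u : ℚ) : ℝ) * Δ a := by
      conv_lhs => rw [he u hu]
      simp only [map_sum, map_smul, Rat.smul_def]
    rw [hl, h4, ← Finset.sum_sub_distrib]
    simpa only [mul_sub] using h3

end Pool.Agent.Work.MP_340ce7_lc
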