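import Pool.Agent.Work.MP_340ce7_lc.Gen.A

/-! Restriction of an essential wall to lines. -/

namespace Pool.Agent.Work.MP_340ce7_lc

open Set Filter Topology

variable {P : ∀ ι : Type, Set (ι → ℤ) → Prop} {ι : Type}

open Classical in
/-- The pure parts of the coefficients of a linear map. -/
noncomputable def lv (L : (ι → ℚ) →ₗ[ℚ] ℝ) : ι → ℝ :=
  fun i => pur (L fun j => if i = j then 1 else 0)

theorem lv_pure (L : (ι → ℚ) →ₗ[ℚ] ℝ) (i : ι) : pi0 (lv L i) = 0 := pi0_pur _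

/-- The virtual point of an integer vector. -/
noncomputable def dot [Fintype ι] (v : ι → ℤ) : (ι → ℝ) →ₗ[ℚ] ℝ :=
  ∑ i, (v i : ℚ) • LinearMap.proj i

theorem dot_apply [Fintype ι] (v : ι → ℤ) (u : ι → ℝ) : dot v u = ∑ i, (v i : ℝ) * u i := by
  simp [dot, Rat.smul_def]

theorem dot_line [Fintype ι] (a b : ι → ℤ) (t : ℤ) :
    dot (fun i => a i + t * b i) = dot a + (ti t).comp (dot b) := by
  refine LinearMap.ext fun u => ?_
  simp only [dot_apply, LinearMap.add_apply, LinearMap.comp_apply, ti_apply, Finset.mul_sum,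
    ← Finset.sum_add_distrib]
  refine Finset.sum_congr rfl fun i _ => ?_
  push_cast
  ring

theorem dot_pure [Fintype ι] (v : ι → ℤ) {u : ι → ℝ} (h : ∀ i, pi0 (u i) = 0) :
    pi0 (dot v u) = 0 := by
  simp [dot, h]

theorem pur_L [Fintype ι] (L : (ι → ℚ) →ₗ[ℚ] ℝ) (w : ι → ℤ) : pur (L (cz w)) = dot w (lv L) := by
  classical
  rw [LinearMap.pi_apply_eq_sum_univ L, map_sum, dot_apply]
  refine Finset.sum_congr rfl fun i _ => ?_
  rw [map_smul, Rat.smul_def, lv, cz, Rat.cast_intCast]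

theorem den_forms [Fintype ι] {F : Set (Fm ι)} (hF : F.Finite) : ∃ D : ℕ, 0 < D ∧ ∀ N : ℕ,
    ∀ f ∈ F, ∀ w : ι → ℤ, (∀ i, ((N * D : ℕ) : ℤ) ∣ w i) →
      ∃ k : ℤ, f.L (cz w) = dot w (lv f.L) + k := by
  obtain ⟨D, hD, h⟩ := den_common (hF.image fun f => pi0.comp f.L)
  refine ⟨D, hD, fun N f hf w hw => ?_⟩
  obtain ⟨n, hn⟩ := h _ ⟨f, hf, rfl⟩ N 0 (cz w) fun i => by
    obtain ⟨k, hk⟩ := hw i
    exact ⟨k, by simp only [cz, hk, Pi.zero_apply]; push_cast; ring⟩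
  rw [map_zero, sub_zero, LinearMap.comp_apply] at hn
  refine ⟨N * n, ?_⟩
  rw [← pur_L, pur_apply, hn]
  push_cast
  ring

def OffC (C : Set (Fu ι × ℚ)) (x : ι → ℤ) : Prop := ∀ e ∈ C, e.1 (cz x) ≠ e.2

theorem critm {E : Set (Fu ι × ℚ)} {F : Set (Fm ι)} (hE : E.Finite) (hF : F.Finite) :
    ∃ C : Set (Fu ι × ℚ), C.Finite ∧ (∀ e ∈ C, e.1 ≠ 0) ∧ (∀ e ∈ E, e.1 ≠ 0 → e ∈ C) ∧
      ∀ x, OffC C x → ∀ f ∈ F, lv f.L ≠ 0 → ∀ l : ℤ, f.ev (cz x) ≠ l / 2 := by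
  have key : ∀ f : Fm ι, lv f.L ≠ 0 → ∃ e : Fu ι × ℚ, e.1 ≠ 0 ∧
      ∀ (x : ι → ℚ) (l : ℤ), f.ev x = l / 2 → e.1 x = e.2 := fun f hf => by
    obtain ⟨i, hi⟩ := Function.ne_iff.1 hf
    obtain ⟨φ, hφ⟩ := Module.exists_dual_forall_apply_ne_zero (K := ℚ)
      (fun _ : Unit => lv f.L i) fun _ => hi
    refine ⟨((φ.comp pur).comp f.L, -φ (pur f.r)), fun h => hφ () (LinearMap.congr_fun h _),
      fun x l hl => ?_⟩
    have h1 : pur (f.ev x) = 0 := by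
      rw [hl, show (l : ℝ) / 2 = ((l / 2 : ℚ) : ℝ) by push_cast; rfl, pur_apply, pi0_rat, sub_self]
    have h2 := congrArg φ h1
    rw [Fm.ev, map_add, map_add, map_zero] at h2
    exact eq_neg_of_add_eq_zero_left h2
  choose! e he1 he2 using key
  refine ⟨{e ∈ E | e.1 ≠ 0} ∪ e '' {f ∈ F | lv f.L ≠ 0},
    (hE.subset fun _ h => h.1).union ((hF.subset fun _ h => h.1).image _), ?_,
    fun e he h => Or.inl ⟨he, h⟩, fun x hx f hf h l hl => hx _ (Or.inr ⟨f, ⟨hf, h⟩, rfl⟩)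
      (he2 f h _ l hl)⟩
  rintro _ (h | ⟨f, hf, rfl⟩)
  · exact h.2
  · exact he1 f hf.2

theorem fin_lineC {C : Set (Fu ι × ℚ)} (hC : C.Finite) {z v : ι → ℤ}
    (h : ∀ e ∈ C, e.1 (cz v) ≠ 0 ∨ e.1 (cz z) ≠ e.2) :
    {t : ℤ | ¬ OffC C fun i => z i + t * v i}.Finite := by
  refine (hC.biUnion (t := fun e => {t : ℤ | e.1 (cz fun i => z i + t * v i) = e.2})
    fun e he => Set.Subsingleton.finite ?_).subset fun t ht => ?_
  · intro t h1 t' h2
    simp only [mem_ofPred_eq, Det_cz, map_add, map_smul, smul_eq_mul] at h1 h2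
    have h0 : e.1 (cz v) ≠ 0 := fun h3 => (h e he).elim (fun h4 => h4 h3) fun h4 =>
      h4 (by rw [← h1, h3]; ring)
    have h4 : (t : ℚ) * e.1 (cz v) = t' * e.1 (cz v) := by linarith
    exact_mod_cast mul_right_cancel₀ h0 h4
  · simp only [mem_ofPred_eq, OffC] at ht
    push Not at ht
    obtain ⟨e, he, h1⟩ := ht
    exact mem_biUnion he h1

theorem clear_den [Finite ι] (y : ι → ℚ) (M : ℕ) : ∃ (D : ℕ) (v : ι → ℤ), 0 < D ∧
    (∀ i, (M : ℤ) ∣ v i) ∧ cz v = ((M : ℚ) * D) • y := by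
  obtain ⟨D, hD, h⟩ := Det_den y
  choose n hn using h
  refine ⟨D, fun i => M * n i, hD, fun i => dvd_mul_right _ _, funext fun i => ?_⟩
  simp only [cz, Pi.smul_apply, smul_eq_mul]
  push_cast
  rw [hn, mul_assoc]

theorem gen_vec [Finite ι] {C : Set (Fu ι × ℚ)} (hC : C.Finite) (h0 : ∀ e ∈ C, e.1 ≠ 0) {M : ℕ}
    (hM : 0 < M) : ∃ u : ι → ℤ, (∀ i, (M : ℤ) ∣ u i) ∧ ∀ e ∈ C, e.1 (cz u) ≠ 0 := by
  have := hC.to_subtype
  obtain ⟨y, hy⟩ := Module.Dual.exists_forall_ne_zero_of_forall_exists (K := ℚ)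
    (fun e : C => e.1.1) fun e => by
      by_contra h
      push Not at h
      exact h0 e.1 e.2 (LinearMap.ext h)
  obtain ⟨D, v, hD, h1, h2⟩ := clear_den y M
  refine ⟨v, h1, fun e he => ?_⟩
  rw [h2, map_smul, smul_eq_mul]
  exact mul_ne_zero (by positivity) (hy ⟨e, he⟩)

theorem line_full (hP : Good P) [Fintype ι] {X : Set (ι → ℤ)} (hXP : P ι X) {M : ℕ} (hM : 0 < M)
    {C : Set (Fu ι × ℚ)} (hC : C.Finite) (hC0 : ∀ e ∈ C, e.1 ≠ 0) {F : Set (Fm ι)}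
    (hF : F.Finite) {x : ι → ℤ} {g : Fm ι → ℝ} {Ψ : ((ι → ℝ) →ₗ[ℚ] ℝ) → Prop}
    (hΨ : PInv F (fun f => evl (lv f.L)) g Ψ)
    (hX : ∀ w : ι → ℤ, (∀ i, (M : ℤ) ∣ w i) → OffC C (fun i => x i + w i) →
      ((fun i => x i + w i) ∈ X ↔ Ψ (dot w)))
    {u0 : ι → ℝ} (hu0 : ∀ i, pi0 (u0 i) = 0) {p : (ι → ℝ) →ₗ[ℚ] ℝ}
    (h : HS F (fun f => evl (lv f.L)) g Ψ (evl u0) p) {v : ι → ℤ} (hv : ∀ i, (M : ℤ) ∣ v i)
    (h0 : dot v u0 ≠ 0) : Full (D1 P) (dot v u0) ∧ ∃ (w : ι → ℤ) (k : ℤ), (∀ i, (M : ℤ) ∣ w i) ∧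
      EdgeAt (D1 P) (dot v u0) (p u0 - dot w u0 + k) := by
  obtain ⟨ρ, hρ, hw, hs⟩ := h
  have hS : (insert u0 ((fun f : Fm ι => lv f.L) '' F)).Finite := (hF.image _).insert _
  have hSp : ∀ s ∈ insert u0 ((fun f : Fm ι => lv f.L) '' F), ∀ i, pi0 (s i) = 0 := by
    rintro s (rfl | ⟨f, -, rfl⟩)
    · exact hu0
    · exact lv_pure _
  obtain ⟨N, K, hN, hK, hl⟩ := lattice (U := ι → ℝ) hS Subset.rfl
  obtain ⟨ψ, hψ⟩ := exists_one h0
  obtain ⟨η, e0, e1⟩ := (ev_pos.and ((eventually_all_finite hF).2 fun f _ =>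
    ev_small (K * (N * 2) * (1 + |ψ (dot v (lv f.L))|)) (half_pos hρ))).exists
  obtain ⟨u, hu, hu'⟩ := gen_vec hC hC0 hM
  have hS' := hS.image fun s : ι → ℝ => (N : ℚ)⁻¹ • s
  have hSp' : ∀ s ∈ (fun s : ι → ℝ => (N : ℚ)⁻¹ • s) ''
      insert u0 ((fun f : Fm ι => lv f.L) '' F), ∀ i, pi0 (s i) = 0 := by
    rintro _ ⟨s, hs, rfl⟩ i
    simp only [Pi.smul_apply, map_smul, hSp s hs i, smul_zero]
  obtain ⟨w1, hw1, k1⟩ := kron_m hS' hSp' p hM e0
  obtain ⟨t, ht, k2⟩ := kron_v (hS'.image (dot u)) (by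
    rintro _ ⟨s, hs, rfl⟩
    exact dot_pure u (hSp' s hs)) 0 e0
    (fin_lineC hC (z := fun i => x i + w1 i) fun e he => Or.inl (hu' e he))
  let w0 : ι → ℤ := fun i => w1 i + t * u i
  have hw0 : ∀ i, (M : ℤ) ∣ w0 i := fun i => (hw1 i).add ((hu i).mul_left t)
  have hz : OffC C fun i => x i + w0 i := by
    simpa only [w0, add_assoc] using not_not.1 ht
  obtain ⟨lam, a1, a2⟩ := hl (dot w0 - p) (N * (2 * η)) fun s hs => near_div hN (by
    obtain ⟨n, hn⟩ := k1 _ ⟨s, hs, rfl⟩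
    obtain ⟨n', hn'⟩ := k2 _ ⟨_, ⟨s, hs, rfl⟩, rfl⟩
    rw [← dot_apply] at hn
    simp only [lin_div, LinearMap.zero_apply, sub_zero] at hn hn'
    have b1 := abs_lt.1 hn
    have b2 := abs_lt.1 hn'
    refine ⟨n + n', ?_⟩
    simp only [w0, dot_line, LinearMap.sub_apply, LinearMap.add_apply, LinearMap.comp_apply,
      ti_apply, sub_div, add_div, mul_div_assoc]
    exact abs_lt.2 ⟨by push_cast; linarith, by push_cast; linarith⟩)
  obtain ⟨χ0, hχ0⟩ : ∃ χ0, χ0 = dot w0 - lam := ⟨_, rfl⟩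
  have a3 : ∀ s ∈ insert u0 ((fun f : Fm ι => lv f.L) '' F),
      |χ0 s - p s| ≤ K * (N * 2) * η := fun s hs => by
    have := a2 s hs
    simp only [hχ0, LinearMap.sub_apply] at this ⊢
    rw [sub_right_comm]
    linarith
  obtain ⟨a, ha⟩ : ∃ a, a = p u0 - χ0 u0 := ⟨_, rfl⟩
  have a4 : ∀ f ∈ F, |χ0 (lv f.L) + a * ψ (dot v (lv f.L)) - p (lv f.L)| < ρ / 2 := fun f hf => by
    have b1 := a3 _ (Or.inr ⟨f, hf, rfl⟩)
    have b2 := a3 u0 (Or.inl rfl)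
    rw [abs_sub_comm, ← ha] at b2
    have b3 := mul_le_mul_of_nonneg_right b2 (abs_nonneg (ψ (dot v (lv f.L))))
    rw [← abs_mul] at b3
    rw [add_sub_right_comm]
    refine (abs_add_le _ _).trans_lt ?_
    linarith [e1 f hf]
  have key := lemmaA hP.good1 hF (d := fun f => dot v (lv f.L))
    (g := fun f => χ0 (lv f.L) + g f) (fun f _ => dot_pure v (lv_pure _))
    (Ψ := fun q => Ψ (χ0 + q.comp (dot v))) (fun q q' e => hΨ _ _ fun f hf => by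
      simpa only [evl_apply, LinearMap.add_apply, LinearMap.comp_apply, add_comm, add_left_comm,
        add_assoc] using e f hf)
    (fin_lineC hC (z := fun i => x i + w0 i) (v := v) fun e he => Or.inr (hz e he))
    (line_mem hP hXP (fun i => x i + w0 i) v) (fun s hs' => by
      have b1 := hX (fun i => w0 i + s * v i) (fun i => (hw0 i).add ((hv i).mul_left s))
        (by simpa only [add_assoc] using not_not.1 hs')
      rw [dot_line, ← hΨ.period (lam := lam) fun f hf => a1 _ (Or.inr ⟨f, hf, rfl⟩),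
        add_sub_right_comm, ← hχ0] at b1
      simpa only [mem_ofPred_eq, add_assoc] using b1)
    (dot_pure v hu0) h0 (p := a • ψ) ⟨ρ / 2, half_pos hρ, fun f hf => ?_, fun q hq => ?_⟩
  · obtain ⟨k, hk⟩ := a1 u0 (Or.inl rfl)
    refine ⟨key.1, w0, k, hw0, ?_⟩
    have e : (a • ψ) (dot v u0) = p u0 - dot w0 u0 + k := by
      rw [LinearMap.smul_apply, hψ, ha, hχ0, LinearMap.sub_apply, hk, smul_eq_mul]
      ring
    exact e ▸ key.2
  · rcases hw f hf with c1 | ⟨c, l, c1, c2⟩ | c1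
    · exact Or.inl (LinearMap.ext fun q => LinearMap.congr_fun c1 (q.comp (dot v)))
    · have c3 : ∀ χ : (ι → ℝ) →ₗ[ℚ] ℝ, χ (lv f.L) = c * χ u0 := fun χ => by
        simpa using LinearMap.congr_fun c1 χ
      refine Or.inr (Or.inl ⟨c, l, LinearMap.ext fun q => c3 (q.comp (dot v)), ?_⟩)
      have c4 := c3 (ψ.comp (dot v))
      simp only [LinearMap.comp_apply, hψ] at c4
      simp only [evl_apply, LinearMap.smul_apply, smul_eq_mul] at c2 ⊢
      rw [c4, c3 χ0, ← c2, c3 p, ha]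
      ring
    · refine Or.inr (Or.inr fun l => ?_)
      have c2 := c1 l
      have c3 := abs_lt.1 (a4 f hf)
      simp only [evl_apply, LinearMap.smul_apply, smul_eq_mul] at c2 ⊢
      by_contra c4
      have c5 := abs_lt.1 (not_le.1 c4)
      exact absurd c2 (not_le.2 (abs_lt.2 ⟨by linarith, by linarith⟩))
  · have b1 := hs (χ0 + q.comp (dot v)) fun f hf => by
      have c2 := abs_lt.1 (hq f hf)
      have c3 := abs_lt.1 (a4 f hf)
      simp only [evl_apply, LinearMap.smul_apply, smul_eq_mul, LinearMap.add_apply,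
        LinearMap.comp_apply] at c2 ⊢
      exact abs_lt.2 ⟨by linarith, by linarith⟩
    simp only [evl_apply, LinearMap.smul_apply, smul_eq_mul, LinearMap.add_apply,
      LinearMap.comp_apply, hψ] at b1 ⊢
    exact ⟨fun c => b1.1 (by linarith), fun c => b1.2 (by linarith)⟩

end Pool.Agent.Work.MP_340ce7_lc
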