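import Pool.Agent.Work.MP_340ce7_lc.Gen.Base

namespace Pool.Agent.Work.MP_340ce7_lc

open Set Filter Topology

theorem Q1_zero : ¬ Irrational (0 : ℝ) := fun h => h ⟨0, by simp⟩

theorem Q1_rat {W : Submodule ℚ ℝ} (h1 : (1 : ℝ) ∈ W) (q : ℚ) : (q : ℝ) ∈ W := by
  have := W.smul_mem q h1
  rwa [Rat.smul_def, mul_one] at this

theorem Q1_nirr {W : Submodule ℚ ℝ} (h1 : (1 : ℝ) ∈ W) {x : ℝ} (hx : ¬ Irrational x) : x ∈ W := by
  obtain ⟨q, rfl⟩ := not_not.1 hx
  exact Q1_rat h1 q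

theorem Q1_uniq {I : Set Cl} (hI : Sys I) {c c' : Cl} (hc : c ∈ I) (hc' : c' ∈ I) {γ : ℝ}
    (hγ : Irrational γ) (h : γ ∈ c.1) (h' : γ ∈ c'.1) : c = c' := by
  classical
  by_contra hne
  have h2 : c' ≠ c := fun e => hne e.symm
  have := hI.2 {c, c'} (fun d => if d = c then γ else -γ)
    (by
      intro d hd
      simp only [Finset.coe_insert, Finset.coe_singleton, mem_insert_iff, mem_singleton_iff] at hd
      rcases hd with rfl | rfl
      · exact hc
      · exact hc')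
    (by
      intro d hd
      simp only [Finset.mem_insert, Finset.mem_singleton] at hd
      rcases hd with rfl | rfl
      · rw [if_pos rfl]; exact h
      · rw [if_neg h2]; exact neg_mem h')
    (by
      rw [Finset.sum_pair hne, if_pos rfl, if_neg h2, add_neg_cancel]
      exact Q1_zero) c (Finset.mem_insert_self _ _)
  rw [if_pos rfl] at this
  exact this hγ

theorem Q1_basis (c : Cl) : ∃ B : Set ℝ, (∀ a ∈ B, a ∈ c.1 ∧ pi0 a = 0) ∧ LinearIndepOn ℚ id B ∧
    ∀ x ∈ c.1, pi0 x = 0 → x ∈ Submodule.span ℚ B := by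
  obtain ⟨B, b1, b2, b3⟩ := exists_linearIndependent ℚ ((c.1 ⊓ LinearMap.ker pi0 : Submodule ℚ ℝ) : Set ℝ)
  refine ⟨B, fun a ha => b1 ha, b3, fun x hx h0 => ?_⟩
  rw [b2]
  exact Submodule.subset_span ⟨hx, h0⟩

/-- An adapted basis modulo the rationals. -/
theorem frame {I : Set Cl} (hI : Sys I) : ∃ (A : Set ℝ) (cl : ℝ → Cl), Ind A ∧
    ∀ c ∈ I, ∀ μ ∈ c.1, ∃ (s : Finset ℝ) (m : ℝ → ℚ) (q : ℚ), (↑s : Set ℝ) ⊆ A ∧
      (∀ a, m a ≠ 0 → a ∈ s ∧ cl a = c) ∧ μ = q + ∑ a ∈ s, (m a : ℝ) * a := by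
  classical
  choose B b1 b2 b3 using Q1_basis
  have hex : ∀ a : ℝ, ∃ d : Cl, (∃ c ∈ I, a ∈ B c) → d ∈ I ∧ a ∈ B d := by
    intro a
    by_cases h : ∃ c ∈ I, a ∈ B c
    · obtain ⟨c, h1, h2⟩ := h
      exact ⟨c, fun _ => ⟨h1, h2⟩⟩
    · exact ⟨(⊤, ⊤), fun hh => absurd hh h⟩
  choose cl hcl using hex
  refine ⟨{a | ∃ c ∈ I, a ∈ B c}, cl, ?_, ?_⟩
  · intro s k c0 hs hsum α hα
    have hm : ∀ a ∈ s, cl a ∈ I ∧ a ∈ B (cl a) := fun a ha => hcl a (hs ha)
    have hB : ∀ d, ∀ a ∈ s.filter (fun a => cl a = d), a ∈ B d := by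
      intro d a ha
      obtain ⟨h1, h2⟩ := Finset.mem_filter.1 ha
      rw [← h2]
      exact (hm a h1).2
    have key := hI.2 (s.image cl) (fun d => ∑ a ∈ s.filter (fun a => cl a = d), k a • a)
      (by
        intro d hd
        obtain ⟨a, ha, rfl⟩ := Finset.mem_image.1 (Finset.mem_coe.1 hd)
        exact (hm a ha).1)
      (fun d _ => Submodule.sum_mem _ fun a ha => Submodule.smul_mem _ _ (b1 d a (hB d a ha)).1)
      (by
        rw [Finset.sum_fiberwise_of_maps_to (fun a ha => Finset.mem_image_of_mem cl ha)]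
        simp only [Rat.smul_def]
        rw [hsum]
        exact fun h => h ⟨c0, rfl⟩) (cl α) (Finset.mem_image_of_mem cl hα)
    have h0 : ∑ a ∈ s.filter (fun a => cl a = cl α), k a • a = 0 := by
      by_contra hne
      refine key (irr_of_pure ?_ hne)
      rw [map_sum]
      refine Finset.sum_eq_zero fun a ha => ?_
      rw [map_smul, (b1 _ a (hB _ a ha)).2, smul_zero]
    exact linearIndepOn_iff'.1 (b2 (cl α)) _ k (fun a ha => hB _ a (Finset.mem_coe.1 ha)) h0 α
      (Finset.mem_filter.2 ⟨hα, rfl⟩)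
  · intro c hc μ hμ
    have hp : pur μ ∈ c.1 := by
      rw [pur_apply]
      exact sub_mem hμ (Q1_rat (hI.1 c hc).1 _)
    obtain ⟨f, t, t1, t2, t3⟩ := Submodule.mem_span_iff_exists_finset_subset.1
      (b3 c _ hp (pi0_pur μ))
    refine ⟨t, f, pi0 μ, fun a ha => ⟨c, hc, t1 ha⟩, fun a ha => ?_, ?_⟩
    · have hat : a ∈ t := Finset.mem_coe.1 (t2 ha)
      have haB : a ∈ B c := t1 hat
      obtain ⟨h1, h2⟩ := hcl a ⟨c, hc, haB⟩
      exact ⟨hat, Q1_uniq hI h1 hc (irr_of_pure (b1 c a haB).2 ((b2 c).ne_zero haB))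
        (b1 _ a h2).1 (b1 c a haB).1⟩
    · simp only [Rat.smul_def] at t3
      rw [t3, pur_apply]
      ring

/-- An irrational number lies in at most one class. -/
theorem Sys.uniq {I : Set Cl} (hI : Sys I) {c c' : Cl} (hc : c ∈ I) (hc' : c' ∈ I) {γ : ℝ}
    (hγ : Irrational γ) (h : γ ∈ c.1) (h' : γ ∈ c'.1) : c = c' := by
  exact Q1_uniq hI hc hc' hγ h h'

/-- A subspace all of whose irrational members lie in classes lies in one class. -/
theorem Sys.one_class {I : Set Cl} (hI : Sys I) {W : Submodule ℚ ℝ}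
    (hW : ∀ β ∈ W, Irrational β → ∃ c ∈ I, β ∈ c.1) {γ : ℝ} (hγ : Irrational γ) (h : γ ∈ W)
    {c : Cl} (hc : c ∈ I) (h' : γ ∈ c.1) : W ≤ c.1 := by
  classical
  intro β hβ
  have h1 := (hI.1 c hc).1
  have back : γ + β ∈ c.1 → β ∈ c.1 := fun hh => by
    have := sub_mem hh h'
    rwa [add_sub_cancel_left] at this
  by_cases i1 : Irrational β
  swap
  · exact Q1_nirr h1 i1
  by_cases i2 : Irrational (γ + β)
  swap
  · exact back (Q1_nirr h1 i2)
  obtain ⟨d, hd, md⟩ := hW β hβ i1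
  obtain ⟨e, he, me⟩ := hW _ (add_mem h hβ) i2
  by_cases e1 : d = c
  · rw [← e1]; exact md
  by_cases e2 : e = c
  · exact back (by rw [← e2]; exact me)
  exfalso
  by_cases e3 : e = d
  · rw [e3] at me
    have := sub_mem me md
    rw [add_sub_cancel_right] at this
    exact e1 (Q1_uniq hI hd hc hγ this h')
  have n1 : c ∉ ({d, e} : Finset Cl) := by
    simp only [Finset.mem_insert, Finset.mem_singleton, not_or]
    exact ⟨fun x => e1 x.symm, fun x => e2 x.symm⟩
  have := hI.2 {c, d, e} (fun x => if x = c then γ else if x = d then β else -(γ + β))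
    (by
      intro x hx
      simp only [Finset.coe_insert, Finset.coe_singleton, mem_insert_iff, mem_singleton_iff] at hx
      rcases hx with rfl | rfl | rfl
      · exact hc
      · exact hd
      · exact he)
    (by
      intro x hx
      simp only [Finset.mem_insert, Finset.mem_singleton] at hx
      rcases hx with rfl | rfl | rfl
      · rw [if_pos rfl]; exact h'
      · rw [if_neg e1, if_pos rfl]; exact md
      · rw [if_neg e2, if_neg e3]; exact neg_mem me)
    (by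
      rw [Finset.sum_insert n1, Finset.sum_pair (fun x => e3 x.symm), if_pos rfl, if_neg e1,
        if_pos rfl, if_neg e2, if_neg e3, show γ + (β + -(γ + β)) = 0 by ring]
      exact Q1_zero) c (Finset.mem_insert_self _ _)
  rw [if_pos rfl] at this
  exact this hγ

theorem sys_top : Sys {((⊤ : Submodule ℚ ℝ), (⊤ : Submodule ℚ ℝ))} := by
  refine ⟨?_, fun s w hs _ h c hc => ?_⟩
  · rintro c rfl
    exact ⟨trivial, le_rfl⟩
  · have : s = {c} := Finset.eq_singleton_iff_unique_mem.2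
      ⟨hc, fun x hx => (hs (Finset.mem_coe.2 hx)).trans (hs (Finset.mem_coe.2 hc)).symm⟩
    rwa [this, Finset.sum_singleton] at h

end Pool.Agent.Work.MP_340ce7_lc
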