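import Pool.Agent.Work.MP_340ce7_lc.Gen.N

namespace Pool.Agent.Work.MP_340ce7_lc

open Set Filter Topology

variable {P : ∀ ι : Type, Set (ι → ℤ) → Prop}

theorem V_H (w : ℝ) :
    H w ↔ (In w (-(1 / 8)) (1 / 4) ∧ ¬ In w (-(1 / 8)) 0) ∨ In w (1 / 8) (1 / 2) := by
  rw [H_iff]
  constructor
  · rintro ⟨n, h1, h2⟩
    by_cases h3 : w - n < 1 / 4
    · refine Or.inl ⟨⟨n, by linarith, h3⟩, ?_⟩
      rintro ⟨k, k1, k2⟩
      exact int_gap (k := k - n) (by push_cast; linarith) (by push_cast; linarith)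
    · exact Or.inr ⟨n, by linarith, h2⟩
  · rintro (⟨⟨n, h1, h2⟩, h3⟩ | ⟨n, h1, h2⟩)
    · exact ⟨n, not_lt.1 fun h4 => h3 ⟨n, h1, h4⟩, by linarith⟩
    · exact ⟨n, by linarith, h2⟩

theorem V_shift (v c p q : ℝ) : In (v + c) p q ↔ In v (p - c) (q - c) :=
  exists_congr fun n => ⟨fun h => ⟨by linarith [h.1], by linarith [h.2]⟩,
    fun h => ⟨by linarith [h.1], by linarith [h.2]⟩⟩

theorem V_irr {A0 : Finset ℝ} (hI : Ind ↑A0) {m : ℝ → ℚ} (hm : ∀ a ∈ A0, m a ≠ 0) {δ : ℝ} {q : ℚ}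
    (hδ : δ = q + ∑ a ∈ A0, (m a : ℝ) * a) (hne : A0.Nonempty) : Irrational δ := by
  rintro ⟨c, hc⟩
  obtain ⟨a, ha⟩ := hne
  exact hm a ha (hI A0 m (c - q) subset_rfl (by push_cast; linarith) a ha)

theorem V_in {s : Finset ℝ} (hI : Ind ↑s) {m : ℝ → ℚ} (hm : ∀ a ∈ s, m a ≠ 0)
    (hne : s.Nonempty) (τ : ℝ → ℤ) {a b : ℝ} (hab : a + 1 / 100 < b) :
    In (∑ i ∈ s, (τ i : ℝ) * ((m i : ℝ) * i)) a b ↔ ∃ k : ℤ,
      (∀ i ∈ s, In (((k - τ i : ℤ) : ℝ) * ((m i : ℝ) * i)) 0 (1 / 100 / s.card)) ∧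
        In (k * ∑ i ∈ s, (m i : ℝ) * i) (a + 1 / 100) b := by
  have n0 : (0 : ℝ) < s.card := by exact_mod_cast Finset.card_pos.2 hne
  have e1 : ∀ k : ℤ, ∑ i ∈ s, ((k - τ i : ℤ) : ℝ) * ((m i : ℝ) * i) =
      k * ∑ i ∈ s, (m i : ℝ) * i - ∑ i ∈ s, (τ i : ℝ) * ((m i : ℝ) * i) := fun k => by
    simp only [Int.cast_sub, sub_mul]
    rw [Finset.sum_sub_distrib, ← Finset.mul_sum]
  generalize ∑ i ∈ s, (τ i : ℝ) * ((m i : ℝ) * i) = v at e1 ⊢
  constructor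
  · rintro ⟨j, h1, h2⟩
    obtain ⟨lo, hi, l1, l2, l3, l4, l5⟩ : ∃ lo hi : ℝ, lo < hi ∧ 0 ≤ lo ∧ hi ≤ 1 / 100 ∧
        a + 1 / 100 ≤ v - j + lo ∧ v - j + hi ≤ b :=
      ⟨max 0 (a + 1 / 100 - (v - j)), min (1 / 100) (b - (v - j)),
        max_lt (lt_min (by norm_num) (by linarith)) (lt_min (by linarith) (by linarith)),
        le_max_left _ _, min_le_left _ _, sub_le_iff_le_add'.1 (le_max_right _ _),
        le_sub_iff_add_le'.1 (min_le_right _ _)⟩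
    have l6 := div_lt_div_of_pos_right l1 n0
    obtain ⟨k, -, hk⟩ := kron hI s subset_rfl m hm
      (fun i => τ i * (m i * i) + (lo / s.card + hi / s.card) / 2)
      (δ := (hi / s.card - lo / s.card) / 2) (by linarith only [l6]) finite_empty
    have h3 : ∀ i ∈ s, In (((k - τ i : ℤ) : ℝ) * (m i * i)) (lo / s.card) (hi / s.card) :=
      fun i hi => by
        obtain ⟨l, hl⟩ := hk i hi
        rw [abs_lt] at hl
        push_cast at hl ⊢
        exact ⟨l, by linarith only [hl, hl.1], by linarith only [hl, hl.2]⟩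
    obtain ⟨l, h5, h6⟩ := In_sum hne h3
    rw [mul_div_cancel₀ _ n0.ne', e1] at h5 h6
    refine ⟨k, fun i hi => (h3 i hi).imp fun l hl => ⟨(div_nonneg l2 n0.le).trans_lt hl.1,
      hl.2.trans_le (div_le_div_of_nonneg_right l3 n0.le)⟩, j + l, ?_, ?_⟩
    · push_cast
      linarith only [l4, h5]
    · push_cast
      linarith only [l5, h6]
  · rintro ⟨k, h1, j, h2, h3⟩
    obtain ⟨l, h5, h6⟩ := In_sum hne h1
    rw [mul_div_cancel₀ _ n0.ne'] at h6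
    rw [e1] at h5 h6
    refine ⟨j - l, ?_, ?_⟩
    · push_cast
      linarith only [h2, h6]
    · push_cast
      linarith only [h3, h5]

/-- The circuit rule. -/
theorem mv_core (hP : Good P) {A0 : Finset ℝ} (hI : Ind ↑A0) (hF : ∀ a ∈ A0, Full (D1 P) a)
    {m : ℝ → ℚ} (hm : ∀ a ∈ A0, m a ≠ 0) {δ : ℝ} {q : ℚ} (hδ : δ = q + ∑ a ∈ A0, (m a : ℝ) * a)
    (hne : A0.Nonempty) {r : ℝ} (hr : D1 P {t : ℤ | H (t * δ + r)}) {ι : Type} [Finite ι]
    {g : ℝ → (ι → ℤ) → ℤ} (hg : ∀ a ∈ A0, IsAff (g a)) (s : ℚ) :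
    P ι {x | H (∑ a ∈ A0, (g a x : ℝ) * ((m a : ℝ) * a) + (r + s))} := by
  have hD := hP.good1
  have hirr := V_irr hI hm hδ hne
  obtain ⟨E, e1, e2, -, e4⟩ := exists_sub hD hirr (full_of_arc hD hirr hr)
  have hK := fullK_of_basic hD e1 e2 fun r hr => (e4 r).1 hr
  have hq : ∀ p : ℚ, (p : ℝ) ∈ E := fun p => by simpa using rat_mul_mem e1 p
  have hc : r + s ∈ E := E.add_mem ((e4 r).2 hr) (hq s)
  have hβ : ∑ a ∈ A0, (m a : ℝ) * a ∈ Sp δ := mem_Sp.2 ⟨-q, 1, by push_cast; linarith⟩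
  have n1 : (1 : ℝ) ≤ A0.card := by exact_mod_cast Finset.card_pos.2 hne
  have n0 : (0 : ℝ) < A0.card := by linarith
  have arc : ∀ a b : ℝ, a ∈ E → b ∈ E → a + 1 / 100 < b → b < a + 1 / 2 →
      P ι {x | In (∑ i ∈ A0, (g i x : ℝ) * ((m i : ℝ) * i)) a b} := by
    intro a b ha hb h1 h2
    have ha' : a + 1 / 100 ∈ E := E.add_mem ha (by simpa using hq (1 / 100))
    have hZ : ∀ i ∈ A0, D1 P {t : ℤ | In (t * ((m i : ℝ) * i)) 0 (1 / 100 / A0.card)} :=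
      fun i hi => Full.arc hD (hF i hi) (rat_mul_mem (self_mem_Sp i) _) (Sp i).zero_mem
        (mem_Sp.2 ⟨1 / 100 / A0.card, 0, by simp⟩) (by positivity)
        (by rw [div_lt_iff₀ n0]; linarith only [n0, n1])
    have hY : D1 P {t : ℤ | In (t * ∑ i ∈ A0, (m i : ℝ) * i) (a + 1 / 100) b} := by
      have h3 := hD.inter (hD.compl (hK _ ((Sp δ).neg_mem hβ) _ ha'))
        (hD.compl (hK _ hβ _ (E.neg_mem hb)))
      refine Eq.mp (congrArg _ (Set.ext fun t => ?_)) h3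
      simp only [mem_ofPred_eq, mem_inter_iff, mem_compl_iff,
        In_iff_H h1 (show b < a + 1 / 100 + 1 / 2 by linarith)]
      rw [mul_neg, neg_add_eq_sub, ← sub_eq_add_neg]
    have h4 := hP.proj (hP.inter (hP.biInter A0.finite_toSet fun i hi => hP.d1 (hZ i hi)
      ((IsAff.var none).sub ((hg i hi).comp (T := fun (y : Option ι → ℤ) j => y (some j))
        fun j => IsAff.var (some j)))) (hP.d1 hY (IsAff.var none)))
    refine Eq.mp (congrArg _ (Set.ext fun x => ?_)) h4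
    simp only [mem_ofPred_eq, mem_inter_iff, mem_iInter₂, oc_none, oc_some, Finset.mem_coe]
    exact (V_in hI hm hne (fun i => g i x) h1).symm
  have hs : ∀ p : ℚ, (p : ℝ) - (r + s) ∈ E := fun p => E.sub_mem (hq p) hc
  have a1 := arc (-(1 / 8) - (r + s)) (1 / 4 - (r + s)) (by simpa using hs (-(1 / 8)))
    (by simpa using hs (1 / 4)) (by linarith) (by linarith)
  have a2 := arc (-(1 / 8) - (r + s)) (0 - (r + s)) (by simpa using hs (-(1 / 8)))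
    (E.sub_mem E.zero_mem hc) (by linarith) (by linarith)
  have a3 := arc (1 / 8 - (r + s)) (1 / 2 - (r + s)) (by simpa using hs (1 / 8))
    (by simpa using hs (1 / 2)) (by linarith) (by linarith)
  refine Eq.mp (congrArg _ (Set.ext fun x => ?_)) (hP.union (hP.inter a1 (hP.compl a2)) a3)
  simp only [mem_ofPred_eq, mem_union, mem_inter_iff, mem_compl_iff, V_H, V_shift]

theorem V_lin {ι : Type} [Fintype ι] [DecidableEq ι] (L : (ι → ℚ) →ₗ[ℚ] ℝ) (x : ι → ℤ) :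
    L (cz x) = ∑ i, (x i : ℝ) * L fun j => if i = j then 1 else 0 := by
  rw [LinearMap.pi_apply_eq_sum_univ L]
  refine Finset.sum_congr rfl fun i _ => ?_
  rw [Rat.smul_def, cz, Rat.cast_intCast]

theorem V_pure (hP : Good P) {W E : Submodule ℚ ℝ}
    (h : ∀ γ ∈ W, Irrational γ → ∀ r ∈ E, D1 P {t : ℤ | H (t * γ + r)}) {ι : Type} [Finite ι]
    (L : (ι → ℚ) →ₗ[ℚ] ℝ) (hL : ∀ x, L x ∈ W) (h0 : ∀ x, pi0 (L x) = 0) {r : ℝ} (hr : r ∈ E) :
    P ι {x | H (L (cz x) + r)} := by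
  classical
  cases nonempty_fintype ι
  let p : ι → ℝ := fun i => L fun j => if i = j then 1 else 0
  by_cases hz : ∀ i, p i = 0
  · have e : ∀ x : ι → ℤ, L (cz x) = 0 := fun x => by
      rw [V_lin]
      exact Finset.sum_eq_zero fun i _ => mul_eq_zero_of_right _ (hz i)
    simp only [e]
    by_cases h1 : H (0 + r)
    · simpa only [h1, ofPred_true] using hP.univ
    · simpa only [h1, ofPred_false] using hP.empty
  obtain ⟨i0, hi0⟩ := not_forall.1 hz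
  obtain ⟨A1, a1, a2, a3, N, hN, m, hm⟩ := coords (Γ := range p) (finite_range p)
    (by rintro _ ⟨i, rfl⟩; exact h0 _) (γ := p i0) (h0 _) hi0
  have hW : ∀ a ∈ A1, a ∈ W := fun a ha => by
    rcases a3 a ha with rfl | ⟨i, rfl⟩
    · exact hL _
    · exact hL _
  have hN' : (N : ℝ) ≠ 0 := by exact_mod_cast hN.ne'
  have hm0 : ∀ a ∈ A1, (N : ℚ)⁻¹ ≠ 0 := fun _ _ => inv_ne_zero (by exact_mod_cast hN.ne')
  have hδ : ∑ a ∈ A1, (((N : ℚ)⁻¹ : ℚ) : ℝ) * a =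
      ((0 : ℚ) : ℝ) + ∑ a ∈ A1, (((N : ℚ)⁻¹ : ℚ) : ℝ) * a := by rw [Rat.cast_zero, zero_add]
  have h2 := mv_core hP a1 (fun a ha => full_of_arc hP.good1 (a1.irrational ha)
      (h a (hW a ha) (a1.irrational ha) r hr)) (m := fun _ => (N : ℚ)⁻¹) hm0 hδ ⟨_, a2⟩
    (h _ (W.sum_mem fun a ha => rat_mul_mem (hW a ha) _)
      (V_irr a1 (m := fun _ => (N : ℚ)⁻¹) hm0 hδ ⟨_, a2⟩) r hr)
    (g := fun a (x : ι → ℤ) => ∑ i, m (p i) a * x i)
    (fun a _ => IsAff.sum _ fun i _ => (IsAff.var i).const_mul _) 0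
  refine Eq.mp (congrArg _ (Set.ext fun x => ?_)) h2
  refine iff_of_eq (congrArg H ?_)
  rw [Rat.cast_zero, add_zero, V_lin]
  congr 1
  push_cast
  simp only [Finset.sum_mul]
  rw [Finset.sum_comm]
  refine Finset.sum_congr rfl fun i _ => ?_
  have h3 : p i = (N : ℝ)⁻¹ * ∑ a ∈ A1, (m (p i) a : ℝ) * a := by
    rw [← hm _ ⟨i, rfl⟩, inv_mul_cancel_left₀ hN']
  change _ = x i * p i
  conv_rhs => rw [h3]
  rw [Finset.mul_sum, Finset.mul_sum]
  exact Finset.sum_congr rfl fun a _ => by ring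

/-- Forms in several variables are definable from arcs. -/
theorem mv_arc (hP : Good P) {W E : Submodule ℚ ℝ} (h1 : (1 : ℝ) ∈ W) (hWE : W ≤ E)
    (h : ∀ γ ∈ W, Irrational γ → ∀ r ∈ E, D1 P {t : ℤ | H (t * γ + r)}) {ι : Type} [Finite ι]
    (L : (ι → ℚ) →ₗ[ℚ] ℝ) (hL : ∀ x, L x ∈ W) {r : ℝ} (hr : r ∈ E) :
    P ι {x | H (L (cz x) + r)} := by
  obtain ⟨D, hD, g, hg, hx⟩ := den_aff (pi0 ∘ₗ L)
  have hD' : (0 : ℤ) < D := by exact_mod_cast hD
  have hDr : (D : ℝ) ≠ 0 := by exact_mod_cast hD.ne'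
  have hq : ∀ p : ℚ, (p : ℝ) ∈ W := fun p => by simpa using rat_mul_mem h1 p
  have hM : D1 P {t | (D : ℤ) ∣ t} := by
    have := hP.good1.conv 1 (-D) 0 hP.good1.univ (hP.good1.single 0)
    refine Eq.mp (congrArg _ (Set.ext fun t => ?_)) this
    simp [add_neg_eq_zero, Dvd.dvd]
  have hj : ∀ j : ℤ, P ι {x | H ((pur ∘ₗ L) (cz x) + (r + j / D))} := fun j =>
    V_pure hP h (pur ∘ₗ L)
      (fun x => by rw [LinearMap.comp_apply, pur_apply]; exact W.sub_mem (hL x) (hq _))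
      (fun x => pi0_pur _) (E.add_mem hr (by simpa using hWE (hq ((j : ℚ) / D))))
  have key : ∀ (x : ι → ℤ) (j : ℤ), (D : ℤ) ∣ g x - j →
      (H ((pur ∘ₗ L) (cz x) + (r + j / D)) ↔ H (L (cz x) + r)) := by
    rintro x j ⟨k, hk⟩
    rw [← H_add_int _ k]
    refine iff_of_eq (congrArg H ?_)
    have e1 : (g x : ℝ) = D * (pi0 (L (cz x)) : ℝ) := by exact_mod_cast hx x
    have e2 : (g x : ℝ) - j = D * k := by exact_mod_cast hk
    have e3 : (j : ℝ) / D = pi0 (L (cz x)) - k := by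
      rw [div_eq_iff hDr]
      linarith
    rw [LinearMap.comp_apply, pur_apply, e3]
    ring
  refine Eq.mp (congrArg _ (Set.ext fun x => ?_)) (hP.biUnion (finite_Ico (0 : ℤ) D)
    fun j _ => hP.inter (hP.d1 hM (hg.sub (IsAff.const j))) (hj j))
  simp only [mem_iUnion₂, mem_inter_iff, mem_ofPred_eq]
  constructor
  · rintro ⟨j, -, a, b⟩
    exact (key x j a).1 b
  · intro a
    exact ⟨g x % D, ⟨Int.emod_nonneg _ hD'.ne', Int.emod_lt_of_pos _ hD'⟩, Int.dvd_self_sub_emod,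
      (key x _ Int.dvd_self_sub_emod).2 a⟩

end Pool.Agent.Work.MP_340ce7_lc
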