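import Pool.Agent.Work.MP_340ce7_lc.Gen.M1
import Pool.Agent.Work.MP_340ce7_lc.Gen.Q1
import Pool.Agent.Work.MP_340ce7_lc.Gen.V

/-! Only walls of the system of definable arcs matter. -/

namespace Pool.Agent.Work.MP_340ce7_lc

open Set Filter Topology

variable {P P' : ∀ ι : Type, Set (ι → ℤ) → Prop} {ι : Type} {I : Set Cl}

/-- The form belongs to a class of the system. -/
def Gdf (I : Set Cl) (f : Fm ι) : Prop := ∃ c ∈ I, (∀ y, f.L y ∈ c.1) ∧ f.r ∈ c.2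

theorem good_of_hs (hP : Good P) (hI : Sys I)
    (hT : ∀ γ r : ℝ, Irrational γ →
      (D1 P {t : ℤ | H (t * γ + r)} ↔ ∃ c ∈ I, γ ∈ c.1 ∧ r ∈ c.2)) [Fintype ι] {M : ℕ}
    (hM : 0 < M) {f : Fm ι} (h0 : lv f.L ≠ 0)
    (hint : ∀ w : ι → ℤ, (∀ i, (M : ℤ) ∣ w i) → ∃ k : ℤ, f.L (cz w) = dot w (lv f.L) + k)
    {σ : ℚ} (hσ : σ ≠ 0) {x : ι → ℤ} {b : ℝ} {l : ℤ} (hb : b + f.ev (cz x) = l / 2)
    (h : ∀ v : ι → ℤ, (∀ i, (M : ℤ) ∣ v i) → dot v (σ • lv f.L) ≠ 0 →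
      Full (D1 P) (dot v (σ • lv f.L)) ∧ ∃ (w : ι → ℤ) (k : ℤ), (∀ i, (M : ℤ) ∣ w i) ∧
        EdgeAt (D1 P) (dot v (σ • lv f.L)) (σ • b - dot w (σ • lv f.L) + k)) : Gdf I f := by
  classical
  have key : ∀ y, Irrational (f.L y) → ∃ (v : ι → ℤ) (q : ℚ), q ≠ 0 ∧ (∀ i, (M : ℤ) ∣ v i) ∧
      dot v (σ • lv f.L) = q * (f.L y - pi0 (f.L y)) ∧ dot v (σ • lv f.L) ≠ 0 := fun y hy => by
    obtain ⟨D, v, hD, h1, h2⟩ := clear_den y M
    have hq : σ * (M * D) ≠ 0 := mul_ne_zero hσ (by positivity)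
    have e : dot v (σ • lv f.L) = ((σ * (M * D) : ℚ) : ℝ) * pur (f.L y) := by
      rw [map_smul, ← pur_L, h2, map_smul, map_smul, smul_smul, Rat.smul_def]
    refine ⟨v, _, hq, h1, by rw [e, pur_apply], ?_⟩
    rw [e]
    exact mul_ne_zero (by exact_mod_cast hq) (pur_ne_zero.2 hy)
  have hW : ∀ β ∈ LinearMap.range f.L, Irrational β → ∃ c ∈ I, β ∈ c.1 := by
    rintro _ ⟨y, rfl⟩ hy
    obtain ⟨v, q, hq, h1, h2, h3⟩ := key y hy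
    have hq' : (q : ℝ) ≠ 0 := by exact_mod_cast hq
    have h4 := (h v h1 h3).1 (f.L y) (mem_Sp.2 ⟨pi0 (f.L y), q⁻¹, by
      rw [h2]; push_cast; field_simp; ring⟩) 0 (zero_mem _)
    obtain ⟨c, hc, h5, -⟩ := (hT _ 0 hy).1 h4
    exact ⟨c, hc, h5⟩
  obtain ⟨i, hi⟩ := Function.ne_iff.1 h0
  have hy : Irrational (f.L fun j => if i = j then 1 else 0) := pur_ne_zero.1 (by
    simpa only [lv, Pi.zero_apply] using hi)
  obtain ⟨c, hc, hc1⟩ := hW _ ⟨_, rfl⟩ hy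
  have hle := hI.one_class hW hy ⟨_, rfl⟩ hc hc1
  have hL : ∀ y, f.L y ∈ c.1 := fun y => hle ⟨y, rfl⟩
  have hq1 : ∀ q : ℚ, (q : ℝ) ∈ c.1 := fun q => by simpa using rat_mul_mem (hI.1 c hc).1 q
  refine ⟨c, hc, hL, ?_⟩
  obtain ⟨v, q, hq, h1, h2, h3⟩ := key _ hy
  obtain ⟨hF, w, k, hw, hE⟩ := h v h1 h3
  have hi' : Irrational (dot v (σ • lv f.L)) := irr_of_pure (dot_pure v fun j => by
    simp only [Pi.smul_apply, map_smul, lv_pure, smul_zero]) h3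
  obtain ⟨c', hc', h4, h5⟩ := (hT _ _ hi').1 (H_of_edge hP.good1 hi' hF hE)
  have h6 : c' = c := hI.uniq hc' hc hi' h4 (by
    rw [h2]; exact rat_mul_mem (sub_mem (hL _) (hq1 _)) q)
  subst h6
  obtain ⟨k', hk'⟩ := hint w hw
  have hσ' : (σ : ℝ) ≠ 0 := by exact_mod_cast hσ
  have e : f.r = ((σ⁻¹ : ℚ) : ℝ) * -(σ • b - dot w (σ • lv f.L) + k) +
      ((((l : ℚ) / 2 + k / σ + k' : ℚ) : ℝ) - f.L (cz x) - f.L (cz w)) := by
    rw [Fm.ev] at hb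
    rw [map_smul, Rat.smul_def, Rat.smul_def, hk']
    push_cast
    field_simp
    linear_combination (2 * (σ : ℝ)) * hb
  rw [e]
  exact add_mem (rat_mul_mem h5 _) ((hI.1 _ hc).2 (sub_mem (sub_mem (hq1 _) (hL _)) (hL _)))

theorem core (hP : Good P) (hI : Sys I)
    (hT : ∀ γ r : ℝ, Irrational γ →
      (D1 P {t : ℤ | H (t * γ + r)} ↔ ∃ c ∈ I, γ ∈ c.1 ∧ r ∈ c.2)) [Fintype ι]
    {X : Set (ι → ℤ)} (hX : P ι X) {M : ℕ} (hM : 0 < M) {E C : Set (Fu ι × ℚ)} {F : Set (Fm ι)}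
    (hF : F.Finite) (hd : ∀ x x', Agr M E F (cz x) (cz x') → x ∈ X → x' ∈ X)
    (hint : ∀ f ∈ F, ∀ w : ι → ℤ, (∀ i, (M : ℤ) ∣ w i) →
      ∃ k : ℤ, f.L (cz w) = dot w (lv f.L) + k)
    (hC : C.Finite) (hC0 : ∀ e ∈ C, e.1 ≠ 0) (hEC : ∀ e ∈ E, e.1 ≠ 0 → e ∈ C)
    (hCw : ∀ x, OffC C x → ∀ f ∈ F, lv f.L ≠ 0 → ∀ l : ℤ, f.ev (cz x) ≠ l / 2)
    {x w : ι → ℤ} (hw : ∀ i, (M : ℤ) ∣ w i) (hx : OffC C x) (hx' : OffC C fun i => x i + w i)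
    {lam : (ι → ℝ) →ₗ[ℚ] ℝ} (h1 : ∀ f ∈ F, ∃ k : ℤ, lam (lv f.L) = k)
    (h2 : ∀ f ∈ F, Gdf I f → |dot w (lv f.L) - lam (lv f.L)| < 1 / 2)
    (h3 : ∀ f ∈ F, Gdf I f → (H (f.ev (cz x)) ↔ H (f.ev (cz fun i => x i + w i))))
    (hxX : x ∈ X) : (fun i => x i + w i) ∈ X := by
  by_contra hn
  have hev : ∀ f ∈ F, ∀ u : ι → ℤ, (∀ i, (M : ℤ) ∣ u i) →
      ∃ k : ℤ, f.ev (cz fun i => x i + u i) = dot u (lv f.L) + f.ev (cz x) + k :=
    fun f hf u hu => by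
      obtain ⟨k, hk⟩ := hint f hf u hu
      have e : (cz fun i => x i + u i) = cz x + cz u := funext fun i => by simp [cz]
      exact ⟨k, by rw [e, Fm.ev, Fm.ev, map_add, hk]; ring⟩
  let Ψ : ((ι → ℝ) →ₗ[ℚ] ℝ) → Prop := fun χ => ∃ u : ι → ℤ, (∀ i, (M : ℤ) ∣ u i) ∧
    OffC C (fun i => x i + u i) ∧ (fun i => x i + u i) ∈ X ∧
      ∀ f ∈ F, (H (dot u (lv f.L) + f.ev (cz x)) ↔ H (χ (lv f.L) + f.ev (cz x)))
  have hΨ : PInv F (fun f => evl (lv f.L)) (fun f => f.ev (cz x)) Ψ := by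
    rintro χ χ' e ⟨u, a, b, c, d⟩
    exact ⟨u, a, b, c, fun f hf => (d f hf).trans (e f hf)⟩
  have hXΨ : ∀ u : ι → ℤ, (∀ i, (M : ℤ) ∣ u i) → OffC C (fun i => x i + u i) →
      ((fun i => x i + u i) ∈ X ↔ Ψ (dot u)) := fun u hu ho => by
    refine ⟨fun h => ⟨u, hu, ho, h, fun _ _ => Iff.rfl⟩, ?_⟩
    rintro ⟨u', a, b, c, d⟩
    refine hd _ _ ⟨fun i => ?_, fun e he => ?_, fun f hf => ?_⟩ c
    · obtain ⟨k, hk⟩ := (hu i).sub (a i)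
      refine ⟨k, ?_⟩
      simp only [cz]
      have : x i + u i - (x i + u' i) = M * k := by linarith
      exact_mod_cast this
    · by_cases h0 : e.1 = 0
      · rw [h0, LinearMap.zero_apply, LinearMap.zero_apply]
      · exact iff_of_false (b e (hEC e he h0)) (ho e (hEC e he h0))
    · obtain ⟨k, hk⟩ := hev f hf u hu
      obtain ⟨k', hk'⟩ := hev f hf u' a
      rw [hk, hk', H_add_int, H_add_int]
      exact d f hf
  have hend : ∀ f ∈ F, ∃ k : ℤ, f.ev (cz fun i => x i + w i) =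
      (dot w - lam) (lv f.L) + f.ev (cz x) + k := fun f hf => by
    obtain ⟨k, hk⟩ := hev f hf w hw
    obtain ⟨k', hk'⟩ := h1 f hf
    exact ⟨k + k', by rw [hk, LinearMap.sub_apply, hk']; push_cast; ring⟩
  have ho1 : ∀ f ∈ F, evl (lv f.L) ≠ 0 → ∀ l : ℤ,
      (dot w - lam) (lv f.L) + f.ev (cz x) ≠ l / 2 := fun f hf hn0 l hl => by
    obtain ⟨k, hk⟩ := hend f hf
    exact hCw _ hx' f hf (evl_ne hn0) (l + 2 * k) (by rw [hk, hl]; push_cast; ring)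
  obtain ⟨f, hf, hfG, hf0, φ, p, b1, ⟨l, b2⟩, b3⟩ := gen_seg hF hΨ (θ0 := 0) (θ1 := dot w - lam)
    (fun f hf hn0 l => by simpa using hCw x hx f hf (evl_ne hn0) l) ho1 {f | Gdf I f}
    (fun f hf hg hn0 => by
      obtain ⟨k, hk⟩ := hend f hf
      simp only [evl_apply, LinearMap.zero_apply, zero_add]
      exact no_half (by rw [add_sub_cancel_right]; exact h2 f hf hg)
        (by rw [h3 f hf hg, hk, H_add_int]) (hCw x hx f hf (evl_ne hn0)) (ho1 f hf hn0))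
    ⟨0, fun _ => dvd_zero _, by simpa using hx, by simpa using hxX, fun f _ => by
      simp [dot_apply]⟩
    (fun h => hn ((hXΨ w hw hx').2 ((hΨ.period h1 _).1 h)))
  obtain ⟨σ, hσ, e⟩ : ∃ σ : ℚ, σ ≠ 0 ∧ φ = evl (σ • lv f.L) := by
    rcases b1 with rfl | rfl
    · exact ⟨1, one_ne_zero, by rw [one_smul]⟩
    · exact ⟨-1, by norm_num, LinearMap.ext fun χ => by simp⟩
  subst e
  refine hfG (good_of_hs hP hI hT hM (evl_ne hf0) (hint f hf) hσ (x := x) (b := p (lv f.L)) b2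
    fun v hv h0 => ?_)
  have := line_full hP hX hM hC hC0 hF hΨ hXΨ (fun i => by
    simp only [Pi.smul_apply, map_smul, lv_pure, smul_zero]) b3 hv h0
  rwa [map_smul p] at this

theorem dt_sub (hP' : Good P') (hI : Sys I)
    (h : ∀ c ∈ I, ∀ γ ∈ c.1, Irrational γ → ∀ r ∈ c.2, D1 P' {t : ℤ | H (t * γ + r)}) [Finite ι]
    {X : Set (ι → ℤ)} (hX : Dt I ι X) : P' ι X := by
  obtain ⟨N, E, F, hN, hE, hF, hok, hd⟩ := hX
  have hN' : (0 : ℤ) < N := by exact_mod_cast hN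
  have hM : D1 P' {t | (N : ℤ) ∣ t} := by
    have := hP'.good1.conv 1 (-N) 0 hP'.good1.univ (hP'.good1.single 0)
    refine Eq.mp (congrArg _ (Set.ext fun t => ?_)) this
    simp [add_neg_eq_zero, Dvd.dvd]
  refine hP'.of_finite (S := (fun p : ι × ℤ => {x | (N : ℤ) ∣ x p.1 - p.2}) ''
    ((univ : Set ι) ×ˢ Ico (0 : ℤ) N) ∪ ((fun e : Fu ι × ℚ => {x | e.1 (cz x) = e.2}) '' E ∪
      (fun f : Fm ι => {x | H (f.ev (cz x))}) '' F))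
    (((finite_univ.prod (finite_Ico _ _)).image _).union ((hE.image _).union (hF.image _))) ?_
    fun x x' hx => hd x x' ⟨fun i => ?_, fun e he => hx _ (Or.inr (Or.inl ⟨e, he, rfl⟩)),
      fun f hf => hx _ (Or.inr (Or.inr ⟨f, hf, rfl⟩))⟩
  · rintro _ (⟨p, -, rfl⟩ | ⟨e, -, rfl⟩ | ⟨f, hf, rfl⟩)
    · exact hP'.d1 hM ((IsAff.var p.1).sub (IsAff.const p.2))
    · exact hP'.eqn e.1 e.2
    · obtain ⟨a, b, c⟩ := hok f hf
      exact mv_arc hP' (hI.1 _ a).1 (hI.1 _ a).2 (h _ a) f.L b c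
  · have h1 := (hx _ (Or.inl ⟨(i, x i % N), ⟨trivial, Int.emod_nonneg _ hN'.ne',
      Int.emod_lt_of_pos _ hN'⟩, rfl⟩)).1 (Int.dvd_self_sub_emod)
    obtain ⟨n, hn⟩ := h1.sub (Int.dvd_self_sub_emod (x := x i))
    rw [sub_sub_sub_cancel_right] at hn
    exact ⟨n, by simp only [cz]; exact_mod_cast hn⟩

theorem sevenG (hP : Good P) (hP' : Good P') (hI : Sys I) {I0 : Set Cl}
    (hdet : ∀ (ι : Type) [Finite ι] (X : Set (ι → ℤ)), P ι X → Dt I0 ι X)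
    (hT : ∀ γ r : ℝ, Irrational γ →
      (D1 P {t : ℤ | H (t * γ + r)} ↔ ∃ c ∈ I, γ ∈ c.1 ∧ r ∈ c.2))
    (h : ∀ c ∈ I, ∀ γ ∈ c.1, Irrational γ → ∀ r ∈ c.2, D1 P' {t : ℤ | H (t * γ + r)})
    (ι : Type) [Finite ι] (X : Set (ι → ℤ)) (hX : P ι X) : P' ι X := by
  induction hn : Nat.card ι using Nat.strong_induction_on generalizing ι with
  | _ n ih =>
  subst hn
  have ih' : ∀ (κ : Type) [Finite κ], Nat.card κ < Nat.card ι →
      ∀ X : Set (κ → ℤ), P κ X → P' κ X := fun κ _ h X hX => ih _ h κ X hX rfl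
  cases nonempty_fintype ι
  obtain ⟨N, E, F, hN, hE, hF, -, hd⟩ := hdet ι X hX
  obtain ⟨D, hD, hint⟩ := den_forms hF
  have hM : 0 < N * D := Nat.mul_pos hN hD
  obtain ⟨C, hC, hC0, hEC, hCw⟩ := critm hE hF
  obtain ⟨N1, K, hN1, hK, hl⟩ := lattice (U := ι → ℝ) (hF.image fun f => lv f.L)
    (image_mono (show {f ∈ F | Gdf I f} ⊆ F from fun f hf => hf.1))
  obtain ⟨L, hL, hL1⟩ := ((eventually_ge_atTop 2).and
    (((tendsto_const_div_atTop_nhds_zero_nat (1 : ℝ)).const_mul (K * N1)).eventually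
      (gt_mem_nhds (show _ < (1 : ℝ) / 2 by norm_num)))).exists
  have hc : ∀ f : Fm ι, ∃ c : Cl, Gdf I f → c ∈ I ∧ (∀ y, f.L y ∈ c.1) ∧ f.r ∈ c.2 := fun f => by
    by_cases hg : Gdf I f
    · obtain ⟨c, hc⟩ := hg
      exact ⟨c, fun _ => hc⟩
    · exact ⟨f.c, fun h => absurd h hg⟩
  choose cf hcf using hc
  let g1 : Fm ι → Fm ι := fun f => ⟨cf f, f.L, f.r⟩
  let g2 : Fm ι × ℤ → Fm ι := fun q => ⟨cf q.1, (N1 : ℚ)⁻¹ • pur.comp q.1.L, q.2 / L⟩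
  let Fg : Set (Fm ι) := g1 '' {f ∈ F | Gdf I f} ∪ g2 '' ({f ∈ F | Gdf I f} ×ˢ Ico (0 : ℤ) L)
  have hG : {f ∈ F | Gdf I f}.Finite := hF.subset fun f hf => hf.1
  refine split_planes hP hP' ih' hC hC0 hX (dt_sub hP' hI h
    (X := {x' | ∃ x ∈ X, OffC C x ∧ Agr (N * D) ∅ Fg (cz x) (cz x')})
    ⟨N * D, ∅, Fg, hM, finite_empty, (hG.image _).union ((hG.prod (finite_Ico _ _)).image _),
      ?_, ?_⟩) fun x' hx' => ⟨fun h => ⟨x', h, hx', Agr.refl _ _ _ _⟩, ?_⟩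
  · rintro _ (⟨f, hf, rfl⟩ | ⟨⟨f, j⟩, ⟨hf, -⟩, rfl⟩)
    · exact hcf f hf.2
    · obtain ⟨a, b, -⟩ := hcf f hf.2
      have hq1 : ∀ q : ℚ, (q : ℝ) ∈ (cf f).1 := fun q => by
        simpa using rat_mul_mem (hI.1 _ a).1 q
      refine ⟨a, fun y => ?_, (hI.1 _ a).2 (by simpa using hq1 ((j : ℚ) / L))⟩
      refine Submodule.smul_mem _ _ ?_
      rw [LinearMap.comp_apply, pur_apply]
      exact sub_mem (b y) (hq1 _)
  · rintro x x' h ⟨y, hy, hy', h'⟩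
    exact ⟨y, hy, hy', h'.trans h⟩
  rintro ⟨x, hx, ho, ha⟩
  obtain ⟨w, rfl⟩ : ∃ w : ι → ℤ, x' = fun i => x i + w i :=
    ⟨fun i => x' i - x i, funext fun i => by ring⟩
  have hw : ∀ i, ((N * D : ℕ) : ℤ) ∣ w i := fun i => by
    obtain ⟨n, hn⟩ := ha.cong i
    refine ⟨n, ?_⟩
    simp only [cz, Int.cast_add, add_sub_cancel_left] at hn
    exact_mod_cast hn
  obtain ⟨lam, a1, a2⟩ := hl (dot w) (N1 * (1 / L)) (by
    rintro _ ⟨f, hf, rfl⟩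
    refine near_div hN1 ?_
    obtain ⟨n, hn⟩ := grid hL (u := pur (f.L (cz x)) / N1)
      (u' := pur (f.L (cz fun i => x i + w i)) / N1) fun j hj => by
        have := ha.frm _ (Or.inr ⟨(f, j), ⟨hf, hj⟩, rfl⟩)
        simpa only [g2, Fm.ev, LinearMap.smul_apply, LinearMap.comp_apply, ← div_smul] using this
    have e : (cz fun i => x i + w i) = cz x + cz w := funext fun i => by simp [cz]
    rw [e, map_add, map_add, add_div, add_sub_cancel_left, pur_L] at hn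
    exact ⟨n, hn⟩)
  refine core hP hI hT hX hM hF (fun x x' h => hd x x' ⟨h.cong.of_mul_left, h.eqn, h.frm⟩)
    (hint N) hC hC0 hEC hCw hw ho hx' (fun f hf => a1 _ ⟨f, hf, rfl⟩)
    (fun f hf hg => (a2 _ ⟨f, ⟨hf, hg⟩, rfl⟩).trans_lt (by linarith))
    (fun f hf hg => ha.frm (g1 f) (Or.inl ⟨f, ⟨hf, hg⟩, rfl⟩)) hx

end Pool.Agent.Work.MP_340ce7_lc
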