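import Pool.Agent.Work.MP_340ce7_lc.Gen.Base

namespace Pool.Agent.Work.MP_340ce7_lc

open Set Filter Topology

/-- Elimination of one real variable. -/
theorem Q2_one {J : Type} (S : Finset J) (m g g' : J → ℝ)
    (h0 : ∀ q ∈ S, (H (g q) ↔ H (g' q)))
    (h1 : ∀ p ∈ S, m p ≠ 0 → ∀ q ∈ S, ∀ l : ℤ,
      (H (m q * ((l / 2 - g p) / m p) + g q) ↔ H (m q * ((l / 2 - g' p) / m p) + g' q)) ∧
      (H (-(m q * ((l / 2 - g p) / m p) + g q)) ↔ H (-(m q * ((l / 2 - g' p) / m p) + g' q))))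
    (t : ℝ) : ∃ t' : ℝ, ∀ q ∈ S, (H (m q * t + g q) ↔ H (m q * t' + g' q)) := by
  by_cases hne : ∃ p ∈ S, m p ≠ 0
  · by_cases hw : ∀ p ∈ S, m p ≠ 0 → ∀ l : ℤ, m p * t + g p ≠ l / 2
    · obtain ⟨p, hp, l, hm, h⟩ := last_wall S m g t hne hw
      obtain ⟨s, hs⟩ := (S.eventually_all.2 fun q _ =>
        ev_Hs (m q) (m q * ((l / 2 - g' p) / m p) + g' q)).exists
      refine ⟨(l / 2 - g' p) / m p + s, fun q hq => ?_⟩
      have e : m q * ((l / 2 - g' p) / m p + s) + g' q =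
          m q * ((l / 2 - g' p) / m p) + g' q + m q * s := by ring
      rw [h q hq, e, hs q hq]
      unfold Hs
      split_ifs
      · exact (h1 p hp hm q hq l).1
      · exact not_congr (h1 p hp hm q hq l).2
    · push Not at hw
      obtain ⟨p, hp, hm, l, hl⟩ := hw
      have e : t = (l / 2 - g p) / m p := by
        rw [eq_div_iff hm]
        linarith only [hl]
      exact ⟨(l / 2 - g' p) / m p, fun q hq => e ▸ (h1 p hp hm q hq l).1⟩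
  · push Not at hne
    refine ⟨0, fun q hq => ?_⟩
    rw [hne q hq, zero_mul, zero_mul, zero_add, zero_add]
    exact h0 q hq

/-- The derived form `s (q - c p + j c / 2)`. -/
noncomputable def Q2_der {ι : Type} (c s : ℚ) (j : ℤ) (p q : (ℝ → ℚ) × Fm ι) : (ℝ → ℚ) × Fm ι :=
  (fun b => s * (q.1 b - c * p.1 b),
    ⟨q.2.c, s • (q.2.L - c • p.2.L), s * (q.2.r - c * p.2.r + j * ((c / 2 : ℚ) : ℝ))⟩)

theorem Q2_ev {ι : Type} (c s : ℚ) (j : ℤ) (p q : (ℝ → ℚ) × Fm ι) (A0 : Finset ℝ) (θ : ℝ → ℝ)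
    (x : ι → ℚ) :
    ∑ b ∈ A0, ((Q2_der c s j p q).1 b : ℝ) * θ b + (Q2_der c s j p q).2.ev x =
      s * ((∑ b ∈ A0, (q.1 b : ℝ) * θ b + q.2.ev x) -
        c * (∑ b ∈ A0, (p.1 b : ℝ) * θ b + p.2.ev x) + j * ((c / 2 : ℚ) : ℝ)) := by
  have e : ∑ b ∈ A0, ((Q2_der c s j p q).1 b : ℝ) * θ b =
      s * (∑ b ∈ A0, (q.1 b : ℝ) * θ b - c * ∑ b ∈ A0, (p.1 b : ℝ) * θ b) := by
    rw [Finset.mul_sum, ← Finset.sum_sub_distrib, Finset.mul_sum]
    refine Finset.sum_congr rfl fun b _ => ?_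
    simp only [Q2_der]
    push_cast
    ring
  rw [e]
  simp only [Q2_der, Fm.ev, LinearMap.smul_apply, LinearMap.sub_apply, Rat.smul_def]
  ring

theorem Q2_ok {ι : Type} {I : Set Cl} (hI : ∀ c ∈ I, (1 : ℝ) ∈ c.1 ∧ c.1 ≤ c.2) {c : ℚ} (s : ℚ)
    (j : ℤ) {p q : (ℝ → ℚ) × Fm ι} (hp : Okm I p.2) (hq : Okm I q.2)
    (hc : c ≠ 0 → p.2.c = q.2.c) : Okm I (Q2_der c s j p q).2 := by
  have h1 : (j : ℝ) * ((c / 2 : ℚ) : ℝ) ∈ q.2.c.2 := by
    have := rat_mul_mem ((hI _ hq.1).2 (hI _ hq.1).1) (j * (c / 2))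
    simpa using this
  refine ⟨hq.1, fun x => ?_, rat_mul_mem (Submodule.add_mem _ (Submodule.sub_mem _ hq.2.2 ?_) h1) s⟩
  · refine Submodule.smul_mem _ s (Submodule.sub_mem _ (hq.2.1 x) ?_)
    by_cases h : c = 0
    · simp [h]
    · exact Submodule.smul_mem _ c (hc h ▸ hp.2.1 x)
  · by_cases h : c = 0
    · simp [h]
    · exact rat_mul_mem (hc h ▸ hp.2.2) c

theorem Q2_per {D : ℕ} (hD : 0 < D) {u : ℚ} {n : ℤ} (hn : u * D = n) {s : ℤ} {v v' : ℝ}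
    (h : ∀ j ∈ Ico (0 : ℤ) D, (H (s * (v + j * (u : ℝ))) ↔ H (s * (v' + j * (u : ℝ))))) (l : ℤ) :
    H (s * (v + l * (u : ℝ))) ↔ H (s * (v' + l * (u : ℝ))) := by
  have hd0 : (0 : ℤ) < D := by exact_mod_cast hD
  have h4 : (l : ℝ) = (l % D : ℤ) + (D : ℝ) * (l / D : ℤ) := by
    exact_mod_cast (Int.emod_add_mul_ediv l D).symm
  have h5 : (u : ℝ) * D = n := by exact_mod_cast hn
  have h3 : ∀ w : ℝ, (s : ℝ) * (w + l * (u : ℝ)) =
      s * (w + (l % D : ℤ) * (u : ℝ)) + ((s * (l / D * n) : ℤ) : ℝ) := fun w => by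
    rw [Int.cast_mul, Int.cast_mul, ← h5]
    nth_rewrite 1 [h4]
    ring
  rw [h3, h3, H_add_int, H_add_int]
  exact h _ ⟨Int.emod_nonneg _ hd0.ne', Int.emod_lt_of_pos _ hd0⟩

/-- Elimination of finitely many real variables. -/
theorem virt {ι : Type} {I : Set Cl} (hI : ∀ c ∈ I, (1 : ℝ) ∈ c.1 ∧ c.1 ≤ c.2) (cl : ℝ → Cl)
    (A0 : Finset ℝ) {F : Set ((ℝ → ℚ) × Fm ι)} (hF : F.Finite)
    (hok : ∀ p ∈ F, Okm I p.2 ∧ ∀ a ∈ A0, p.1 a ≠ 0 → cl a = p.2.c) :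
    ∀ᶠ z in Um I ι, ∀ θ : ℝ → ℝ, ∃ θ' : ℝ → ℝ, ∀ p ∈ F,
      (H (∑ a ∈ A0, (p.1 a : ℝ) * θ a + p.2.ev z.1) ↔
        H (∑ a ∈ A0, (p.1 a : ℝ) * θ' a + p.2.ev z.2)) := by
  classical
  induction A0 using Finset.induction_on generalizing F with
  | empty =>
    filter_upwards [(eventually_all_finite hF).2 fun p hp => evm_frm (hok p hp).1] with z hz θ
    exact ⟨θ, fun p hp => by simpa using hz p hp⟩
  | insert a A0 ha ih =>
    obtain ⟨D, hD, hden⟩ := common_den (hF.prod hF) fun t => t.2.1 a / t.1.1 a / 2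
    let G : Set ((ℝ → ℚ) × Fm ι) :=
      (fun t : (((ℝ → ℚ) × Fm ι) × ((ℝ → ℚ) × Fm ι)) × (ℤ × ℤ) =>
        Q2_der (t.1.2.1 a / t.1.1.1 a) t.2.1 t.2.2 t.1.1 t.1.2) ''
        ((F ×ˢ F) ×ˢ (Icc (-1 : ℤ) 1 ×ˢ Ico (0 : ℤ) D))
    have hG : G.Finite := ((hF.prod hF).prod ((finite_Icc _ _).prod (finite_Ico _ _))).image _
    have hok' : ∀ p ∈ F ∪ G, Okm I p.2 ∧ ∀ b ∈ A0, p.1 b ≠ 0 → cl b = p.2.c := by
      rintro d (hd | ⟨⟨⟨p, q⟩, s, j⟩, ⟨⟨hp, hq⟩, -⟩, rfl⟩)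
      · exact ⟨(hok d hd).1, fun b hb => (hok d hd).2 b (Finset.mem_insert_of_mem hb)⟩
      · have hc : q.1 a / p.1 a ≠ 0 → p.2.c = q.2.c := fun h =>
          ((hok p hp).2 a (Finset.mem_insert_self _ _) (div_ne_zero_iff.1 h).2).symm.trans
            ((hok q hq).2 a (Finset.mem_insert_self _ _) (div_ne_zero_iff.1 h).1)
        refine ⟨Q2_ok hI _ _ (hok p hp).1 (hok q hq).1 hc, fun b hb h => ?_⟩
        have hb' := Finset.mem_insert_of_mem (b := a) hb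
        by_cases h1 : q.1 b = 0
        · have h2 : q.1 a / p.1 a * p.1 b ≠ 0 := fun h3 => h (by simp only [Q2_der, h1, h3]; simp)
          exact ((hok p hp).2 b hb' (right_ne_zero_of_mul h2)).trans (hc (left_ne_zero_of_mul h2))
        · exact (hok q hq).2 b hb' h1
    filter_upwards [ih (hF.union hG) hok'] with z hz θ
    obtain ⟨θ', h⟩ := hz θ
    obtain ⟨t', ht⟩ := Q2_one hF.toFinset (fun p => (p.1 a : ℝ))
      (fun p => ∑ b ∈ A0, (p.1 b : ℝ) * θ b + p.2.ev z.1)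
      (fun p => ∑ b ∈ A0, (p.1 b : ℝ) * θ' b + p.2.ev z.2)
      (fun q hq => h q (Or.inl (hF.mem_toFinset.1 hq)))
      (fun p hp hm q hq l => by
        have hp' := hF.mem_toFinset.1 hp
        have hq' := hF.mem_toFinset.1 hq
        obtain ⟨n, hn⟩ := hden (p, q) ⟨hp', hq'⟩
        have key : ∀ s ∈ Icc (-1 : ℤ) 1, _ := fun s hs => Q2_per hD hn (s := s)
          (v := (∑ b ∈ A0, (q.1 b : ℝ) * θ b + q.2.ev z.1) -
            ((q.1 a / p.1 a : ℚ) : ℝ) * (∑ b ∈ A0, (p.1 b : ℝ) * θ b + p.2.ev z.1))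
          (v' := (∑ b ∈ A0, (q.1 b : ℝ) * θ' b + q.2.ev z.2) -
            ((q.1 a / p.1 a : ℚ) : ℝ) * (∑ b ∈ A0, (p.1 b : ℝ) * θ' b + p.2.ev z.2))
          (fun j hj => by
            have := h _ (Or.inr ⟨((p, q), s, j), ⟨⟨hp', hq'⟩, hs, hj⟩, rfl⟩)
            rw [Q2_ev, Q2_ev, Rat.cast_intCast] at this
            exact this) l
        have e : ∀ u v : ℝ, (q.1 a : ℝ) * ((l / 2 - u) / p.1 a) + v =
            v - ((q.1 a / p.1 a : ℚ) : ℝ) * u + l * ((q.1 a / p.1 a / 2 : ℚ) : ℝ) := fun u v => by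
          push_cast
          field_simp
          ring
        have k1 := key 1 (by simp)
        have k2 := key (-1) (by simp)
        rw [Int.cast_one, one_mul, one_mul] at k1
        rw [Int.cast_neg, Int.cast_one, neg_one_mul, neg_one_mul] at k2
        rw [e, e]
        exact ⟨k1, k2⟩) (θ a)
    refine ⟨Function.update θ' a t', fun p hp => ?_⟩
    have e : ∑ b ∈ A0, (p.1 b : ℝ) * Function.update θ' a t' b = ∑ b ∈ A0, (p.1 b : ℝ) * θ' b :=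
      Finset.sum_congr rfl fun b hb => by
        rw [Function.update_of_ne (ne_of_mem_of_not_mem hb ha)]
    rw [Finset.sum_insert ha, Finset.sum_insert ha, Function.update_self, e, add_assoc, add_assoc]
    exact ht p (hF.mem_toFinset.2 hp)

end Pool.Agent.Work.MP_340ce7_lc
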