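import Pool.Agent.Work.MP_340ce7_lc.Gen.Q1
import Pool.Agent.Work.MP_340ce7_lc.Gen.Q2

namespace Pool.Agent.Work.MP_340ce7_lc

open Set Filter Topology

theorem Q3_off {v : ℝ} (h : ∀ l : ℤ, v ≠ l / 2) : H v ↔ ¬ H (-v) := by
  rw [H_iff, not_H_iff]
  constructor
  · rintro ⟨n, h1, h2⟩
    have h3 : v - n ≠ 0 := fun e => h (2 * n) (by push_cast; linarith)
    have h4 := lt_of_le_of_ne h1 h3.symm
    exact ⟨-n, by push_cast; linarith, by push_cast; linarith⟩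
  · rintro ⟨n, h1, h2⟩
    have h3 : -(1 / 2) ≠ -v - n := fun e => h (1 - 2 * n) (by push_cast; linarith)
    have h4 := lt_of_le_of_ne h1 h3
    exact ⟨-n, by push_cast; linarith, by push_cast; linarith⟩

theorem Q3_open {v : ℝ} (h : H v ↔ ¬ H (-v)) :
    ∃ ρ : ℝ, 0 < ρ ∧ ∀ s, |s| < ρ → (H (v + s) ↔ H v) := by
  obtain ⟨ρ, h1, h2⟩ := mem_nhdsGT_iff_exists_Ioo_subset.1 ((ev_Hs 1 v).and (ev_Hs (-1) v))
  refine ⟨ρ, h1, fun s hs => ?_⟩
  rw [abs_lt] at hs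
  rcases lt_trichotomy s 0 with h3 | rfl | h3
  · have h4 := (h2 (show -s ∈ Ioo 0 ρ from ⟨by linarith, by linarith⟩)).2
    rw [Hs, if_neg (by norm_num), neg_mul_neg, one_mul] at h4
    exact h4.trans h.symm
  · rw [add_zero]
  · have h4 := (h2 (show s ∈ Ioo 0 ρ from ⟨h3, hs.2⟩)).1
    rwa [Hs, if_pos zero_le_one, one_mul] at h4

theorem Q3_dual (μ : ℝ) : ∃ φ : ℝ →ₗ[ℚ] ℚ, (∀ l : ℤ, φ (l / 2) = 0) ∧ (Irrational μ → φ μ ≠ 0) := by
  by_cases h : Irrational μ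
  · obtain ⟨f, hf⟩ := Module.exists_dual_forall_apply_ne_zero (K := ℚ) (fun _ : Unit => pur μ)
      fun _ => pur_ne_zero.2 h
    refine ⟨f.comp pur, fun l => ?_, fun _ => hf ()⟩
    have h1 : pur ((l : ℝ) / 2) = 0 := by
      by_contra hc
      exact pur_ne_zero.1 hc ⟨l / 2, by push_cast; rfl⟩
    rw [LinearMap.comp_apply, h1, map_zero]
  · exact ⟨0, fun _ => rfl, fun h1 => absurd h1 h⟩

variable {ι κ : Type} {I : Set Cl}

theorem Q3_affine [Finite ι] [Finite κ] (hI : ∀ c ∈ I, (1 : ℝ) ∈ c.1 ∧ c.1 ≤ c.2)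
    (L : (κ → ℚ) →ₗ[ℚ] (ι → ℚ)) (c : ι → ℚ) {N : ℕ} {E : Set (Fu ι × ℚ)} {F : Set (Fm ι)}
    (hN : 0 < N) (hE : E.Finite) (hF : F.Finite) (hok : ∀ f ∈ F, Okm I f) :
    ∀ᶠ z in Um I κ, Agr N E F (L z.1 + c) (L z.2 + c) := by
  obtain ⟨D, hD, h⟩ := den_common (finite_range fun i : ι => (LinearMap.proj i).comp L)
  refine evm_agree hE hF ((evm_cong (Nat.mul_pos hN hD)).mono fun z hz i => ?_) (fun e _ => ?_)
    fun f hf => ?_
  · obtain ⟨n, hn⟩ := h _ ⟨i, rfl⟩ N _ _ hz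
    exact ⟨n, (add_sub_add_right_eq_sub _ _ _).trans hn⟩
  · simpa only [map_add, LinearMap.comp_apply, eq_sub_iff_add_eq] using
      evm_eqn (I := I) (e.1.comp L) (e.2 - e.1 c)
  · have := evm_frm (I := I) (f := ⟨f.c, f.L.comp L, f.L c + f.r⟩)
      ⟨(hok f hf).1, fun x => (hok f hf).2.1 _,
        add_mem ((hI _ (hok f hf).1).2 ((hok f hf).2.1 c)) (hok f hf).2.2⟩
    simpa only [Fm.ev, map_add, LinearMap.comp_apply, add_assoc] using this

theorem Q3_oc (f : Fm (Option ι)) (y : ℚ) (x : ι → ℚ) :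
    f.ev (oc y x) = y * f.L (oc 1 0) + (f.L (ocL 0 x) + f.r) := by
  have : oc y x = y • oc (1 : ℚ) (0 : ι → ℚ) + ocL 0 x := by
    funext o
    cases o <;> simp [ocL_apply]
  rw [Fm.ev, this, map_add, map_smul, Rat.smul_def, add_assoc]

theorem Q3_qe [Finite ι] (hI : Sys I) {N : ℕ} {E : Set (Fu (Option ι) × ℚ)}
    {F : Set (Fm (Option ι))} (hN : 0 < N) (hE : E.Finite) (hF : F.Finite)
    (hok : ∀ f ∈ F, Okm I f) :
    ∀ᶠ z in Um I ι, ∀ y : ℤ, ∃ y' : ℚ, Agr N E F (oc (y : ℚ) z.1) (oc y' z.2) := by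
  classical
  obtain ⟨A, cl, hA, hfr⟩ := frame hI
  choose! s m q hs hm hq using fun f (hf : f ∈ F) =>
    hfr f.c (hok f hf).1 (f.L (oc 1 0)) ((hok f hf).2.1 _)
  let A0 : Finset ℝ := hF.toFinset.biUnion s
  have hs0 : ∀ f ∈ F, s f ⊆ A0 := fun f hf =>
    Finset.subset_biUnion_of_mem s (hF.mem_toFinset.2 hf)
  have h0 : (↑A0 : Set ℝ) ⊆ A := fun a ha => by
    obtain ⟨f, hf, h⟩ := Finset.mem_biUnion.1 ha
    exact hs f (hF.mem_toFinset.1 hf) h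
  have hq0 : ∀ f ∈ F, f.L (oc 1 0) = q f + ∑ a ∈ A0, (m f a : ℝ) * a := fun f hf => by
    rw [hq f hf, Finset.sum_subset (hs0 f hf) fun a _ ha => ?_]
    have : m f a = 0 := by
      by_contra hc
      exact ha (hm f hf a hc).1
    rw [this, Rat.cast_zero, zero_mul]
  choose φ hφ1 hφ2 using fun f : Fm (Option ι) => Q3_dual (f.L (oc 1 0))
  let C : Set (Fu (Option ι) × ℚ) := E ∪ (fun f => ((φ f).comp f.L, -φ f f.r)) '' F
  have hC : C.Finite := hE.union (hF.image _)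
  have hA1 : ∀ e ∈ C, ∀ᶠ z in Um I ι, hd e.1 ≠ 0 → ∀ y : ℚ, e.1 (oc y z.1) = e.2 →
      ∃ y' : ℚ, Agr N E F (oc y z.1) (oc y' z.2) := by
    intro e _
    have e1 : ∀ x, ocL (-(hd e.1)⁻¹ • tl e.1) x + oc (e.2 / hd e.1) 0 =
        oc ((e.2 - tl e.1 x) / hd e.1) x := by
      intro x
      funext o
      cases o
      · simp only [ocL_apply, Pi.add_apply, oc_none, LinearMap.smul_apply, smul_eq_mul]
        ring
      · simp [ocL_apply]
    filter_upwards [Q3_affine hI.1 (ocL (-(hd e.1)⁻¹ • tl e.1))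
      (oc (e.2 / hd e.1) 0) hN hE hF hok] with z hz hm y hy
    rw [e1, e1] at hz
    have : y = (e.2 - tl e.1 z.1) / hd e.1 := by
      rw [apply_oc] at hy
      field_simp
      linarith only [hy]
    exact ⟨_, this ▸ hz⟩
  have hB2 : ∀ e ∈ E, ∀ᶠ z in Um I ι, (tl e.1 z.1 = e.2 ↔ tl e.1 z.2 = e.2) :=
    fun e _ => evm_eqn _ _
  obtain ⟨D, hD, hden⟩ := common_den (hF.prod ((A0.finite_toSet.image some).insert none))
    fun p : Fm (Option ι) × Option ℝ => p.2.elim (q p.1) (m p.1)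
  have hD' : (0 : ℤ) < D := by exact_mod_cast hD
  have hD0 : (0 : ℝ) < D := by exact_mod_cast hD
  let G : Fm (Option ι) × ℚ × ℤ → (ℝ → ℚ) × Fm ι := fun p => (fun a => p.2.1 * m p.1 a,
    ⟨p.1.c, p.2.1 • p.1.L.comp (ocL 0), p.2.1 * (p.1.r + ((p.2.2 * q p.1 : ℚ) : ℝ) * 1)⟩)
  have hG : ∀ (p : Fm (Option ι) × ℚ × ℤ) (θ : ℝ → ℝ) (x : ι → ℚ),
      ∑ a ∈ A0, ((G p).1 a : ℝ) * θ a + (G p).2.ev x = p.2.1 *
        (∑ a ∈ A0, (m p.1 a : ℝ) * θ a + (p.1.L (ocL 0 x) + p.1.r) + p.2.2 * q p.1) := by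
    intro p θ x
    simp only [G, Fm.ev, LinearMap.smul_apply, LinearMap.comp_apply, Rat.smul_def, Rat.cast_mul,
      mul_assoc, ← Finset.mul_sum, Rat.cast_intCast]
    ring
  have hV := virt hI.1 cl A0
    ((hF.prod (((finite_singleton (-1 : ℚ)).insert 1).prod (finite_Ico (0 : ℤ) D))).image G) (by
      rintro _ ⟨p, ⟨hp, -⟩, rfl⟩
      have h1 := hok _ hp
      have h2 := hI.1 _ h1.1
      refine ⟨⟨h1.1, fun x => Submodule.smul_mem _ _ (h1.2.1 _),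
        rat_mul_mem (add_mem h1.2.2 (rat_mul_mem (h2.2 h2.1) _)) _⟩, fun a _ ha => ?_⟩
      exact (hm _ hp a (right_ne_zero_of_mul ha)).2)
  filter_upwards [(eventually_all_finite hC).2 hA1, evm_cong hN, (eventually_all_finite hE).2 hB2,
    hV] with z a1 b1 b2 b3 y
  by_cases hc : ∃ e ∈ C, hd e.1 ≠ 0 ∧ e.1 (oc y z.1) = e.2
  · obtain ⟨e, he, h1, h2⟩ := hc
    exact a1 e he h1 y h2
  push Not at hc
  obtain ⟨θ, hθ⟩ := b3 fun a => y * a
  set j : ℤ := y % D with hj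
  have hj1 : j ∈ Ico (0 : ℤ) D := ⟨Int.emod_nonneg _ hD'.ne', Int.emod_lt_of_pos _ hD'⟩
  let v : Fm (Option ι) → ℝ := fun f =>
    ∑ a ∈ A0, (m f a : ℝ) * (y * a) + (f.L (ocL 0 z.1) + f.r) + j * q f
  let w : Fm (Option ι) → ℝ := fun f =>
    ∑ a ∈ A0, (m f a : ℝ) * θ a + (f.L (ocL 0 z.2) + f.r) + j * q f
  have c1 : ∀ f ∈ F, (H (v f) ↔ H (w f)) := fun f hf => by
    have := hθ _ ⟨(f, 1, j), ⟨hf, Or.inl rfl, hj1⟩, rfl⟩
    rwa [hG, hG, Rat.cast_one, one_mul, one_mul] at this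
  have c2 : ∀ f ∈ F, (H (-v f) ↔ H (-w f)) := fun f hf => by
    have := hθ _ ⟨(f, -1, j), ⟨hf, Or.inr rfl, hj1⟩, rfl⟩
    rwa [hG, hG, Rat.cast_neg, Rat.cast_one, neg_one_mul, neg_one_mul] at this
  have c3 : ∀ f ∈ F, ∀ (t : ℤ) (x : ι → ℚ), ∃ n : ℤ, f.ev (oc ((y + D * t : ℤ) : ℚ) x) =
      ∑ a ∈ A0, (m f a : ℝ) * ((y + D * t : ℤ) * a) + (f.L (ocL 0 x) + f.r) + j * q f + n := by
    intro f hf t x
    obtain ⟨n, hn⟩ := hden (f, none) ⟨hf, Or.inl rfl⟩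
    have h1 : (q f : ℝ) * D = n := by exact_mod_cast hn
    have h2 : (y : ℝ) = j + D * (y / D : ℤ) := by
      exact_mod_cast (Int.emod_add_mul_ediv y D).symm
    refine ⟨n * (y / D + t), ?_⟩
    rw [Q3_oc, hq0 f hf, mul_add, Finset.mul_sum, Rat.cast_intCast,
      Finset.sum_congr rfl fun a _ => mul_left_comm _ (m f a : ℝ) a, Int.cast_mul, ← h1]
    generalize ∑ a ∈ A0, (m f a : ℝ) * ((y + D * t : ℤ) * a) = S
    rw [Int.cast_add, Int.cast_add, Int.cast_mul, Int.cast_natCast]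
    nth_rewrite 1 [h2]
    ring
  have c4 : ∀ f ∈ F, ∃ n : ℤ, f.ev (oc (y : ℚ) z.1) = v f + n := fun f hf => by
    simpa only [mul_zero, add_zero] using c3 f hf 0 z.1
  have c5 : ∀ f ∈ F, ∀ᶠ η in 𝓝[>] (0 : ℝ), ∀ e : ℝ → ℝ, (∀ a ∈ A0, |e a| < η) →
      (H (w f + ∑ a ∈ A0, (m f a : ℝ) * e a) ↔ H (w f)) := by
    intro f hf
    by_cases hz : ∀ a ∈ A0, m f a = 0
    · refine Eventually.of_forall fun η e _ => ?_
      rw [Finset.sum_eq_zero fun a ha => by rw [hz a ha, Rat.cast_zero, zero_mul], add_zero]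
    have h1 : Irrational (f.L (oc 1 0)) := by
      rintro ⟨r, hr⟩
      refine hz (hA A0 (m f) (r - q f) h0 ?_)
      rw [Rat.cast_sub, hr, hq0 f hf, add_sub_cancel_left]
    obtain ⟨n, hn⟩ := c4 f hf
    have h2 : ∀ l : ℤ, v f ≠ l / 2 := fun l hl => by
      refine hc _ (Or.inr ⟨f, hf, rfl⟩) (hφ2 f h1) ?_
      have h3 : f.L (oc (y : ℚ) z.1) + f.r = ((l + 2 * n : ℤ) : ℝ) / 2 := by
        refine hn.trans ?_
        rw [hl]
        push_cast
        ring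
      have h4 := hφ1 f (l + 2 * n)
      rw [← h3, map_add] at h4
      exact eq_neg_of_add_eq_zero_left h4
    obtain ⟨ρ, h3, h4⟩ := Q3_open (v := w f) (by rw [← c1 f hf, ← c2 f hf]; exact Q3_off h2)
    have h5 : Tendsto (fun η : ℝ => (∑ a ∈ A0, |(m f a : ℝ)|) * η) (𝓝 0) (𝓝 (_ * 0)) :=
      tendsto_id.const_mul _
    rw [mul_zero] at h5
    filter_upwards [(h5.eventually (gt_mem_nhds h3)).filter_mono nhdsWithin_le_nhds] with η hη e he
    refine h4 _ (lt_of_le_of_lt ((Finset.abs_sum_le_sum_abs _ _).trans ?_) hη)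
    rw [Finset.sum_mul]
    refine Finset.sum_le_sum fun a ha => ?_
    rw [abs_mul]
    exact mul_le_mul_of_nonneg_left (he a ha).le (abs_nonneg _)
  obtain ⟨η, c6, hη⟩ := (((eventually_all_finite hF).2 c5).and self_mem_nhdsWithin).exists
  have hη0 : 0 < η := hη
  have hNq : (N : ℚ) ≠ 0 := by exact_mod_cast hN.ne'
  have hDq : (D : ℚ) ≠ 0 := by exact_mod_cast hD.ne'
  have hΦ : {k : ℤ | ∃ e ∈ E, hd e.1 ≠ 0 ∧
      e.1 (oc ((y + D * (N * k) : ℤ) : ℚ) z.2) = e.2}.Finite := by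
    refine (hE.biUnion (t := fun e => {k : ℤ | hd e.1 ≠ 0 ∧
      e.1 (oc ((y + D * (N * k) : ℤ) : ℚ) z.2) = e.2}) fun e _ =>
        Set.Subsingleton.finite ?_).subset fun k ⟨e, he, h⟩ => mem_biUnion he h
    rintro k ⟨h3, h4⟩ k' ⟨_, h5⟩
    rw [apply_oc] at h4 h5
    push_cast at h4 h5
    have h6 : hd e.1 * (D * N) * ((k : ℚ) - k') = 0 := by linarith only [h4, h5]
    have h7 : (k : ℚ) - k' = 0 :=
      (mul_eq_zero.1 h6).resolve_left (mul_ne_zero h3 (mul_ne_zero hDq hNq))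
    exact_mod_cast sub_eq_zero.1 h7
  obtain ⟨k, hk, h3⟩ := kron hA A0 h0 (fun _ => N) (fun _ _ => hNq)
    (fun a => (θ a - y * a) / D) (δ := η / D) (by positivity) hΦ
  choose! n hn using h3
  refine ⟨((y + D * (N * k) : ℤ) : ℚ), ?_, fun e he => ?_, fun g hg => ?_⟩
  · rintro (_ | i)
    · exact ⟨D * k, by simp only [oc_none]; push_cast; ring⟩
    · exact b1 i
  · by_cases hm : hd e.1 = 0
    · rw [apply_oc, apply_oc, hm, zero_mul, zero_mul, zero_add, zero_add]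
      exact b2 e he
    · exact iff_of_false (hc e (Or.inl he) hm) fun h => hk ⟨e, he, hm, h⟩
  · obtain ⟨n1, e1⟩ := c4 g hg
    obtain ⟨n2, e2⟩ := c3 g hg (N * k) z.2
    choose! u hu using fun a (ha : a ∈ A0) => hden (g, some a) ⟨hg, Or.inr ⟨a, ha, rfl⟩⟩
    have h4 := c6 g hg (fun a => ((y + D * (N * k) : ℤ) : ℝ) * a - θ a - D * n a) fun a ha => by
      have h5 := hn a ha
      rw [lt_div_iff₀ hD0, ← abs_of_pos hD0, ← abs_mul, abs_of_pos hD0] at h5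
      refine lt_of_eq_of_lt (congrArg _ ?_) h5
      push_cast
      field_simp
      ring
    rw [e1, e2, H_add_int, H_add_int, c1 g hg, ← h4, ← H_add_int _ (∑ a ∈ A0, u a * n a)]
    refine iff_of_eq (congrArg H ?_)
    have h5 : ((∑ a ∈ A0, u a * n a : ℤ) : ℝ) = ∑ a ∈ A0, (m g a : ℝ) * (D * n a) := by
      rw [Int.cast_sum]
      refine Finset.sum_congr rfl fun a ha => ?_
      have h6 : (m g a : ℝ) * D = u a := by exact_mod_cast hu a ha
      rw [Int.cast_mul, ← h6, mul_assoc]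
    simp only [w, h5, mul_sub, Finset.sum_sub_distrib]
    ring

/-- Quantifier elimination for every independent system. -/
theorem good_dt {I : Set Cl} (hI : Sys I) : Good (Dt I) where
  inter hX hY := by
    rw [dt_iff] at *
    filter_upwards [hX, hY] with z h1 h2 x x' e1 e2 hx using
      ⟨h1 x x' e1 e2 hx.1, h2 x x' e1 e2 hx.2⟩
  compl := by
    rintro ι _ X ⟨N, E, F, h1, h2, h3, h4, h5⟩
    exact ⟨N, E, F, h1, h2, h3, h4, fun x x' h hx hx' => hx (h5 x' x h.symm hx')⟩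
  zero := by
    rw [dt_iff]
    filter_upwards [evm_eqn (LinearMap.proj ()) 0] with z hz x x' e1 e2 hx
    rw [← e1, ← e2] at hz
    simp only [LinearMap.proj_apply, cz, Int.cast_eq_zero] at hz
    exact hz.1 hx
  aff := by
    rintro ι κ _ _ T hT X ⟨N, E, F, h1, h2, h3, h4, h5⟩
    choose a c hac using fun i => (hT i).rat
    rw [dt_iff]
    have e : ∀ x, LinearMap.pi a (cz x) + c = cz (T x) := by
      intro x
      funext i
      simp [cz, hac i x]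
    filter_upwards [Q3_affine hI.1 (LinearMap.pi a) c h1 h2 h3 h4] with z hz x x' e1 e2 hx
    rw [← e1, ← e2, e, e] at hz
    exact h5 _ _ hz hx
  proj := by
    rintro ι _ X ⟨N, E, F, h1, h2, h3, h4, h5⟩
    rw [dt_iff]
    filter_upwards [Q3_qe hI h1 h2 h3 h4] with z hz
    rintro x x' e1 e2 ⟨y, hy⟩
    obtain ⟨y', h⟩ := hz y
    obtain ⟨n, hn⟩ := h.cong none
    have e : y' = ((y + N * n : ℤ) : ℚ) := by
      simp only [oc_none] at hn
      push_cast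
      linarith only [hn]
    rw [e, ← e1, ← e2, ← cz_oc, ← cz_oc] at h
    exact ⟨_, h5 _ _ h hy⟩

end Pool.Agent.Work.MP_340ce7_lc
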