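import Pool.Agent.Work.MP_340ce7_lc.Gen.L

namespace Pool.Agent.Work.MP_340ce7_lc

open Set Filter Topology

theorem R_den {S : Set ℚ} (hS : S.Finite) : ∃ D : ℕ, 0 < D ∧ ∀ q ∈ S, ∃ n : ℤ, (n : ℚ) = D * q := by
  have := hS.to_subtype
  obtain ⟨D, hD, h⟩ := Det_den fun q : S => q.1
  exact ⟨D, hD, fun q hq => h ⟨q, hq⟩⟩

theorem R_lin {W : Type} [AddCommGroup W] [Module ℚ W] (L : (Unit → ℚ) →ₗ[ℚ] W) (t : ℤ) :
    L (cz fun _ => t) = (t : ℚ) • L fun _ => 1 := by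
  rw [← map_smul]
  congr 1
  funext _
  simp [cz]

theorem R_per {M : ℕ} {μ : ℝ} {n : ℤ} (hn : (n : ℚ) = M * pi0 μ) (k : ℤ) (g : ℝ) :
    H (((M * k : ℤ) : ℝ) * μ + g) ↔ H (k * (M * pur μ) + g) := by
  have h1 : (n : ℝ) = M * (pi0 μ : ℝ) := by exact_mod_cast hn
  rw [← H_add_int (k * (M * pur μ) + g) (k * n), pur_apply]
  push_cast
  rw [h1]
  ring_nf

theorem R_pure (M : ℕ) (μ : ℝ) : pi0 (M * pur μ) = 0 := by
  have : (M : ℝ) * pur μ = (M : ℚ) • pur μ := by simp [Rat.smul_def]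
  rw [this, map_smul, pi0_pur, smul_zero]

/-- A point on the wall of `γ` which lies on no wall of a direction that is not parallel. -/
theorem R_point {J : Type} {F : Set J} (hF : F.Finite) (d g : J → ℝ) {γ : ℝ} (h0 : γ ≠ 0) (c : ℝ) :
    ∃ χ : ℝ →ₗ[ℚ] ℝ, χ γ = c ∧ ∀ f ∈ F, (∀ q : ℚ, d f ≠ q * γ) → ∀ l : ℤ, χ (d f) + g f ≠ l / 2 := by
  obtain ⟨u1, h1⟩ := exists_one h0
  obtain ⟨u, h2, h3⟩ := exists_dir (γ := γ) (S := d '' {f | f ∈ F ∧ ∀ q : ℚ, d f ≠ q * γ})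
    ((hF.subset fun f hf => hf.1).image d) (by rintro _ ⟨f, hf, rfl⟩; exact hf.2)
  have hc : (⋃ f ∈ F, range fun l : ℤ => ((l : ℝ) / 2 - g f - c * u1 (d f)) / u (d f)).Countable :=
    hF.countable.biUnion fun f _ => countable_range _
  obtain ⟨s, hs⟩ := (hc.dense_compl ℝ).nonempty
  refine ⟨c • u1 + s • u, by simp [h1, h2], fun f hf hq l e => hs ?_⟩
  refine mem_iUnion₂.2 ⟨f, hf, l, ?_⟩
  have h4 := h3 _ ⟨f, ⟨hf, hq⟩, rfl⟩
  simp only [LinearMap.add_apply, LinearMap.smul_apply, smul_eq_mul] at e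
  simp only
  rw [div_eq_iff h4]
  linarith

/-- An arc determined by the atoms of a system belongs to the system. -/
theorem mem_of_dt {I : Set Cl} (hI : Sys I) {α r : ℝ} (hα : Irrational α)
    (h : D1 (Dt I) {t : ℤ | H (t * α + r)}) : ∃ c ∈ I, α ∈ c.1 ∧ r ∈ c.2 := by
  classical
  by_contra hn
  obtain ⟨N, E, F, hN, hE, hF, hok, h⟩ := h
  obtain ⟨D, hD, hd⟩ := R_den ((hF.image fun f => pi0 (f.L fun _ => 1)).insert (pi0 α))
  have hd' : ∀ q ∈ insert (pi0 α) ((fun f : Fm Unit => pi0 (f.L fun _ => 1)) '' F),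
      ∃ n : ℤ, (n : ℚ) = (N * D : ℕ) * q := fun q hq => by
    obtain ⟨n, hn⟩ := hd q hq
    exact ⟨N * n, by push_cast; rw [hn]; ring⟩
  have hM : 0 < N * D := Nat.mul_pos hN hD
  obtain ⟨M, eM⟩ : ∃ M, M = N * D := ⟨_, rfl⟩
  rw [← eM] at hM hd'
  have hM0 : (M : ℝ) ≠ 0 := by exact_mod_cast hM.ne'
  obtain ⟨γ, eγ⟩ : ∃ γ : ℝ, γ = M * pur α := ⟨_, rfl⟩
  obtain ⟨d, ed⟩ : ∃ d : Fm Unit → ℝ, d = fun f => (M : ℝ) * pur (f.L fun _ => 1) := ⟨_, rfl⟩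
  have h0 : γ ≠ 0 := eγ ▸ mul_ne_zero hM0 (pur_ne_zero.2 hα)
  obtain ⟨χ, hχ, hw⟩ := R_point hF d Fm.r h0 (1 / 2 - r)
  obtain ⟨u, hu⟩ := exists_one h0
  have hoff : ∀ f ∈ F, d f ≠ 0 → ∀ l : ℤ, χ (d f) + f.r ≠ l / 2 := by
    intro f hf hd0 l e
    by_cases hq : ∀ q : ℚ, d f ≠ q * γ
    · exact hw f hf hq l e
    push Not at hq
    obtain ⟨q, hq⟩ := hq
    have hq0 : (q : ℝ) ≠ 0 := fun e0 => hd0 (by rw [hq, e0, zero_mul])
    obtain ⟨a1, a2, a3⟩ := hok f hf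
    obtain ⟨a4, a5⟩ := hI.1 _ a1
    have a6 : χ (d f) = q * (1 / 2 - r) := by
      rw [hq, ← hχ, ← Rat.smul_def, map_smul, Rat.smul_def]
    have a7 : pur (f.L fun _ => 1) = q * pur α := by
      apply mul_left_cancel₀ hM0
      have : d f = (M : ℝ) * pur (f.L fun _ => 1) := by rw [ed]
      rw [← this, hq, eγ]
      ring
    rw [pur_apply, pur_apply] at a7
    have b1 : α = ((q⁻¹ : ℚ) : ℝ) * (f.L fun _ => 1) +
        ((pi0 α - pi0 (f.L fun _ => 1) / q : ℚ) : ℝ) * 1 := by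
      push_cast
      field_simp
      linarith
    have b2 : r = ((q⁻¹ : ℚ) : ℝ) * f.r + ((1 / 2 - l / (2 * q) : ℚ) : ℝ) * 1 := by
      rw [a6] at e
      push_cast
      field_simp
      linarith
    exact hn ⟨f.c, a1, b1 ▸ add_mem (rat_mul_mem (a2 _) _) (rat_mul_mem a4 _),
      b2 ▸ add_mem (rat_mul_mem a3 _) (rat_mul_mem (a5 a4) _)⟩
  have hloc : ∀ᶠ y in 𝓝 (0 : ℝ), ∀ f ∈ F, d f ≠ 0 →
      (H (χ (d f) + f.r + y) ↔ H (χ (d f) + f.r)) := by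
    refine (eventually_all_finite hF).2 fun f hf => eventually_imp_distrib_left.2 fun hd0 => ?_
    have h1 : Tendsto (fun y : ℝ => χ (d f) + f.r + y) (𝓝 0) (𝓝 (χ (d f) + f.r + 0)) :=
      tendsto_id.const_add _
    rw [add_zero] at h1
    exact h1.eventually (Switch_H (hoff f hf hd0))
  obtain ⟨δ, hδ, h4⟩ := Metric.eventually_nhds_iff.1 hloc
  have hσ : ∀ᶠ σ in 𝓝[>] (0 : ℝ), 0 < σ ∧ σ < 1 / 4 ∧ σ < δ / 2 ∧
      ∀ f ∈ F, σ * |u (d f)| < δ / 2 := by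
    refine eventually_mem_nhdsWithin.and (Eventually.filter_mono nhdsWithin_le_nhds ?_)
    refine (eventually_lt_nhds (by norm_num)).and ((eventually_lt_nhds (half_pos hδ)).and
      ((eventually_all_finite hF).2 fun f _ => ?_))
    have h1 : Tendsto (fun σ : ℝ => σ * |u (d f)|) (𝓝 0) (𝓝 (0 * |u (d f)|)) :=
      tendsto_id.mul_const _
    rw [zero_mul] at h1
    exact h1.eventually (eventually_lt_nhds (half_pos hδ))
  obtain ⟨σ, s0, s1, s2, s3⟩ := hσ.exists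
  have hΦ : {k : ℤ | ∃ e ∈ E, (e.1 fun _ => 1) ≠ 0 ∧
      ((M * k : ℤ) : ℚ) * (e.1 fun _ => 1) = e.2}.Finite := by
    refine (hE.biUnion fun e _ => Set.Subsingleton.finite
      (s := {k : ℤ | (e.1 fun _ => 1) ≠ 0 ∧ ((M * k : ℤ) : ℚ) * (e.1 fun _ => 1) = e.2}) ?_).subset
      fun k ⟨e, he, h1⟩ => mem_iUnion₂.2 ⟨e, he, h1⟩
    intro k hk k' hk'
    have h1 := mul_right_cancel₀ hk.1 (hk.2.trans hk'.2.symm)
    exact mul_left_cancel₀ (by exact_mod_cast hM.ne' : (M : ℤ) ≠ 0) (by exact_mod_cast h1)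
  have key : ∀ s : ℝ, |s| = σ → ∃ k : ℤ, (∀ e ∈ E, (e.1 fun _ => 1) ≠ 0 →
      e.1 (cz fun _ => M * k) ≠ e.2) ∧ (∃ j : ℤ, |k * γ - (1 / 2 - r + s) - j| < σ) ∧
      ∀ f ∈ F, (H (f.ev (cz fun _ => M * k)) ↔ H (χ (d f) + f.r)) := fun s hs => by
    obtain ⟨k, hk, h6⟩ := kron_v (Γ := insert γ (d '' F)) ((hF.image d).insert γ) (by
      rintro β (rfl | ⟨f, -, rfl⟩)
      · exact eγ ▸ R_pure _ _
      · rw [ed]
        exact R_pure _ _) (χ + s • u) s0 hΦ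
    refine ⟨k, fun e he h1 h2 => hk ⟨e, he, h1, by rw [← h2, R_lin, smul_eq_mul]⟩, ?_,
      fun f hf => ?_⟩
    · simpa [Near, hχ, hu] using h6 γ (mem_insert _ _)
    · obtain ⟨n, hn⟩ := hd' _ (mem_insert_of_mem _ ⟨f, hf, rfl⟩)
      have e1 : d f = (M : ℝ) * pur (f.L fun _ => 1) := by rw [ed]
      rw [Fm.ev, R_lin, Rat.smul_def, Rat.cast_intCast, R_per hn, ← e1]
      by_cases hd0 : d f = 0
      · rw [hd0, map_zero, mul_zero]
      obtain ⟨j, hj⟩ := h6 _ (mem_insert_of_mem _ ⟨f, hf, rfl⟩)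
      simp only [LinearMap.add_apply, LinearMap.smul_apply, smul_eq_mul] at hj
      rw [← h4 (y := k * d f - χ (d f) - j) ?_ f hf hd0, ← H_sub_int _ j]
      · ring_nf
      · rw [Real.dist_eq, sub_zero, show k * d f - χ (d f) - j =
          (k * d f - (χ (d f) + s * u (d f)) - j) + s * u (d f) by ring]
        refine (abs_add_le _ _).trans_lt ?_
        rw [abs_mul, hs]
        linarith [s3 f hf]
  obtain ⟨k, hk, ⟨j, hj⟩, h6⟩ := key (-σ) (by rw [abs_neg, abs_of_pos s0])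
  obtain ⟨k', hk', ⟨j', hj'⟩, h6'⟩ := key σ (abs_of_pos s0)
  have b1 := abs_lt.1 hj
  have b2 := abs_lt.1 hj'
  obtain ⟨n, hn'⟩ := hd' _ (mem_insert _ _)
  have h7 := h (fun _ => M * k) (fun _ => M * k') ⟨fun _ => ⟨D * (k' - k), by
      simp only [cz, eM]; push_cast; ring⟩, fun e he => ?_,
    fun f hf => (h6 f hf).trans (h6' f hf).symm⟩ ((R_per hn' k r).2 ((H_iff _).2
      ⟨j, by rw [← eγ]; linarith, by rw [← eγ]; linarith⟩))
  · refine (not_H_iff _).2 ⟨j' + 1, ?_, ?_⟩ ((R_per hn' k' r).1 h7)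
    · rw [← eγ]; push_cast; linarith
    · rw [← eγ]; push_cast; linarith
  · by_cases h1 : (e.1 fun _ => 1) = 0
    · rw [R_lin, R_lin, h1, smul_zero, smul_zero]
    · exact iff_of_false (hk e he h1) (hk' e he h1)

end Pool.Agent.Work.MP_340ce7_lc
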