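import Pool.Agent.Work.MP_340ce7_lc.Gen.V

namespace Pool.Agent.Work.MP_340ce7_lc

open Set Filter Topology

section

variable {P : ∀ ι : Type, Set (ι → ℤ) → Prop}

theorem S_rat {W : Submodule ℚ ℝ} (h1 : (1 : ℝ) ∈ W) (q : ℚ) : (q : ℝ) ∈ W := by
  simpa using rat_mul_mem h1 q

theorem S_nirr {W : Submodule ℚ ℝ} (h1 : (1 : ℝ) ∈ W) {x : ℝ} (hx : ¬ Irrational x) : x ∈ W := by
  obtain ⟨q, rfl⟩ := not_not.1 hx
  exact S_rat h1 q

theorem S_mem {W : Submodule ℚ ℝ} {x y : ℝ} {l : ℚ} (hl : l ≠ 0) (h : (l : ℝ) * x = y)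
    (hy : y ∈ W) : x ∈ W := by
  have h0 : (l : ℝ) ≠ 0 := by exact_mod_cast hl
  have : x = ((l⁻¹ : ℚ) : ℝ) * y := by
    rw [← h]
    push_cast
    field_simp
  rw [this]
  exact rat_mul_mem hy _

theorem S_irr {γ : ℝ} (hγ : Irrational γ) {l c : ℚ} (h : (l : ℝ) * γ = c) : l = 0 := by
  by_contra hl
  exact (hγ.ratCast_mul hl) ⟨c, h.symm⟩

/-- Division of the direction. -/
theorem S_div (hP : Good P) {β r : ℝ} (hβ : Irrational β) (hF : Full (D1 P) β) {N : ℕ}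
    (hN : 0 < N) (h : D1 P {t : ℤ | H (t * (N * β) + r)}) : D1 P {t : ℤ | H (t * β + r)} := by
  obtain ⟨E, -, -, h1, h2⟩ := exists_sub hP.good1 hβ hF
  obtain ⟨Q, η, hη, hQ, h3⟩ := edgeAt_of_H hP.good1 h
  have hN' : (0 : ℝ) < N := by exact_mod_cast hN
  have h4 : EdgeAt (D1 P) β (-r / N) := by
    refine ⟨Q, η / N, div_pos hη hN', hQ, fun t => ⟨?_, ?_⟩⟩
    · rintro ⟨n, h5, h6⟩
      rw [← sub_div, div_lt_iff₀ hN'] at h5
      rw [lt_div_iff₀ hN'] at h6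
      exact (h3 _).1 ⟨N * n, by push_cast; linarith, by push_cast; linarith⟩
    · rintro ⟨n, h5, h6⟩
      rw [div_lt_iff₀ hN'] at h5
      rw [← add_div, lt_div_iff₀ hN'] at h6
      exact (h3 _).2 ⟨N * n, by push_cast; linarith, by push_cast; linarith⟩
  have h5 := rat_mul_mem ((h1 _).2 h4) (-(N : ℚ))
  have h6 : ((-(N : ℚ) : ℚ) : ℝ) * (-r / N) = r := by
    push_cast
    field_simp
  rw [h6] at h5
  exact (h2 r).1 h5

/-- Integer combinations. -/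
theorem S_int (hP : Good P) {A0 : Finset ℝ} (hI : Ind ↑A0) (hF : ∀ a ∈ A0, Full (D1 P) a)
    {m : ℝ → ℚ} (hm : ∀ a ∈ A0, m a ≠ 0) {δ : ℝ} {q : ℚ} (hδ : δ = q + ∑ a ∈ A0, (m a : ℝ) * a)
    (hne : A0.Nonempty) {r : ℝ} (hr : D1 P {t : ℤ | H (t * δ + r)}) (c : ℝ → ℚ) :
    ∃ N : ℕ, 0 < N ∧ D1 P {t : ℤ | H (t * (N * ∑ a ∈ A0, (c a : ℝ) * a) + r)} := by
  obtain ⟨N, hN, h⟩ := common_den A0.finite_toSet fun a => c a / m a
  choose! n hn using h
  refine ⟨N, hN, ?_⟩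
  have h1 := mv_core hP hI hF hm hδ hne hr (ι := Unit) (g := fun a x => n a * x ())
    (fun a _ => (IsAff.var ()).const_mul _) 0
  unfold D1
  convert h1 using 1
  ext x
  simp only [mem_setOf_eq]
  have : (x () : ℝ) * (N * ∑ a ∈ A0, (c a : ℝ) * a) + r =
      ∑ a ∈ A0, ((n a * x () : ℤ) : ℝ) * ((m a : ℝ) * a) + (r + (0 : ℚ)) := by
    rw [Finset.mul_sum, Finset.mul_sum]
    congr 1
    · refine Finset.sum_congr rfl fun a ha => ?_
      have h2 : ((n a : ℚ) : ℝ) = ((c a / m a * N : ℚ) : ℝ) := by rw [hn a ha]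
      have h3 : (m a : ℝ) ≠ 0 := by exact_mod_cast hm a ha
      push_cast at h2 ⊢
      rw [h2]
      field_simp
    · simp
  rw [this]

/-- The circuit rule for a family. -/
theorem S_circ (hP : Good P) {J : Type} (s : Finset J) (w : J → ℝ)
    (hind : ∀ (l : J → ℚ) (c0 : ℚ), ∑ j ∈ s, (l j : ℝ) * w j = c0 → ∀ j ∈ s, l j = 0)
    (hne : s.Nonempty) (hF : ∀ j ∈ s, Full (D1 P) (w j)) {m : J → ℚ} (hm : ∀ j ∈ s, m j ≠ 0)
    {δ : ℝ} {q : ℚ} (hδ : δ = q + ∑ j ∈ s, (m j : ℝ) * w j) {r : ℝ}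
    (hr : D1 P {t : ℤ | H (t * δ + r)}) {β : ℝ} (hβ : Irrational β) {c : J → ℚ} {q' : ℚ}
    (hc : β = q' + ∑ j ∈ s, (c j : ℝ) * w j) : D1 P {t : ℤ | H (t * β + r)} := by
  classical
  haveI : Nonempty J := ⟨hne.choose⟩
  have hinj : InjOn w ↑s := by
    intro i hi j hj hij
    by_contra hne'
    have := hind (fun k => (if k = i then 1 else 0) - if k = j then 1 else 0) 0 (by
      push_cast
      simp only [sub_mul, Finset.sum_sub_distrib, apply_ite (Rat.cast : ℚ → ℝ), ite_mul,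
        Rat.cast_zero, zero_mul]
      rw [Finset.sum_ite_eq', Finset.sum_ite_eq', if_pos (by exact hi), if_pos (by exact hj), hij]
      simp) i hi
    simp [hne'] at this
  have hinv : ∀ j ∈ s, Function.invFunOn w ↑s (w j) = j := fun j hj => hinj.leftInvOn_invFunOn hj
  have hsum : ∀ l : J → ℚ, ∑ a ∈ s.image w, (l (Function.invFunOn w ↑s a) : ℝ) * a =
      ∑ j ∈ s, (l j : ℝ) * w j := by
    intro l
    rw [Finset.sum_image hinj]
    exact Finset.sum_congr rfl fun j hj => by rw [hinv j hj]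
  have hI : Ind ↑(s.image w) := by
    intro u l c0 hu h a ha
    have hu' : u ⊆ s.image w := by exact_mod_cast hu
    obtain ⟨j, hj, rfl⟩ := Finset.mem_image.1 (hu' ha)
    have h1 := hind (fun k => if w k ∈ u then l (w k) else 0) c0 (by
      rw [← h, ← Finset.sum_image (f := fun a => ((if a ∈ u then l a else 0 : ℚ) : ℝ) * a) hinj]
      symm
      refine Finset.sum_subset_zero_on_sdiff hu' ?_ ?_
      · intro x hx
        simp [(Finset.mem_sdiff.1 hx).2]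
      · intro x hx
        simp [hx]) j hj
    simpa [ha] using h1
  obtain ⟨N, hN, h1⟩ := S_int hP hI
    (fun a ha => by obtain ⟨j, hj, rfl⟩ := Finset.mem_image.1 ha; exact hF j hj)
    (m := fun a => m (Function.invFunOn w ↑s a))
    (fun a ha => by obtain ⟨j, hj, rfl⟩ := Finset.mem_image.1 ha; rw [hinv j hj]; exact hm j hj)
    (q := q) (by rw [hsum]; exact hδ) (hne.image w) hr fun a => c (Function.invFunOn w ↑s a)
  rw [hsum] at h1
  have hN0 : (N : ℚ) ≠ 0 := by exact_mod_cast hN.ne'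
  have h2 : (N : ℝ) * ∑ j ∈ s, (c j : ℝ) * w j = ((-(N * q') : ℚ) : ℝ) + ((N : ℚ) : ℝ) * β := by
    rw [hc]
    push_cast
    ring
  rw [h2] at h1
  have h3 : Irrational (((-(N * q') : ℚ) : ℝ) + ((N : ℚ) : ℝ) * β) :=
    (hβ.ratCast_mul hN0).ratCast_add _
  have h4 : Full (D1 P) β :=
    (full_of_arc hP.good1 h3 h1).of_eq (Sp_eq h3 (mem_Sp.2 ⟨_, _, rfl⟩))
  obtain ⟨M, hM, h5⟩ := S_int hP (A0 := {β}) (by simpa using ind_single hβ) (by simpa using h4)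
    (m := fun _ => N) (fun _ _ => hN0) (q := -(N * q')) (by rw [Finset.sum_singleton])
    (Finset.singleton_nonempty β) h1 fun _ => 1
  rw [Finset.sum_singleton, Rat.cast_one, one_mul] at h5
  exact S_div hP hβ h4 hM h5

/-- All irrational members are full. -/
def S_FS (P : ∀ ι : Type, Set (ι → ℤ) → Prop) (W : Submodule ℚ ℝ) : Prop :=
  (1 : ℝ) ∈ W ∧ ∀ x ∈ W, Irrational x → Full (D1 P) x

theorem S_tr (hP : Good P) {W : Submodule ℚ ℝ} (hW : S_FS P W) {γ x r : ℝ} (hγ : γ ∈ W)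
    (hx : x ∈ W) (iγ : Irrational γ) (ix : Irrational x) (hr : D1 P {t : ℤ | H (t * γ + r)}) :
    D1 P {t : ℤ | H (t * x + r)} := by
  by_cases h : γ ∈ Sp x
  · obtain ⟨p, q, hpq⟩ := mem_Sp.1 h
    have hq : q ≠ 0 := by
      rintro rfl
      exact iγ ⟨p, by simp [hpq]⟩
    refine S_circ hP (Finset.univ : Finset Unit) (fun _ => x) ?_ Finset.univ_nonempty
      (fun _ _ => hW.2 x hx ix) (m := fun _ => q) (fun _ _ => hq) (q := p) (by simpa using hpq)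
      hr ix (c := fun _ => 1) (q' := 0) (by simp)
    intro l c0 h1 j _
    exact S_irr ix (c := c0) (by simpa using h1)
  · have i2 : Irrational (γ + x) := by
      by_contra h2
      have := sub_mem (S_nirr (one_mem_Sp x) h2) (self_mem_Sp x)
      exact h (by simpa using this)
    refine S_circ hP (Finset.univ : Finset (Fin 2)) ![x, γ + x] ?_ Finset.univ_nonempty ?_
      (m := ![-1, 1]) ?_ (q := 0) (by simp [Fin.sum_univ_two]) hr ix (c := ![1, 0]) (q' := 0)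
      (by simp [Fin.sum_univ_two])
    · intro l c0 h1
      simp only [Fin.sum_univ_two, Matrix.cons_val_zero, Matrix.cons_val_one] at h1
      have h2 : l 1 = 0 := by
        by_contra h3
        refine h (S_mem h3 (y := c0 - ((l 0 + l 1 : ℚ) : ℝ) * x) (by push_cast; linarith) ?_)
        exact sub_mem (rat_mem_Sp _ _) (rat_mul_mem (self_mem_Sp x) _)
      have h3 : l 0 = 0 := S_irr ix (c := c0) (by rw [h2] at h1; simpa using h1)
      intro j _
      fin_cases j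
      exacts [h3, h2]
    · intro j _
      fin_cases j
      exacts [hW.2 _ hx ix, hW.2 _ (add_mem hγ hx) i2]
    · intro j _
      fin_cases j <;> simp

theorem S_sup (hP : Good P) {W W' : Submodule ℚ ℝ} (hW : S_FS P W) (hW' : S_FS P W') {γ : ℝ}
    (hγ : γ ∈ W) (hγ' : γ ∈ W') (iγ : Irrational γ) : S_FS P (W ⊔ W') := by
  refine ⟨Submodule.mem_sup_left hW.1, fun x hx ix => ?_⟩
  obtain ⟨a, ha, b, hb, rfl⟩ := Submodule.mem_sup.1 hx
  by_cases h1 : a ∈ W'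
  · exact hW'.2 _ (add_mem h1 hb) ix
  by_cases h2 : b ∈ W
  · exact hW.2 _ (add_mem ha h2) ix
  have ia : Irrational a := by_contra fun h => h1 (S_nirr hW'.1 h)
  have ib : Irrational b := by_contra fun h => h2 (S_nirr hW.1 h)
  have ic : Irrational (b + γ) := by_contra fun h => h2 (by
    simpa using sub_mem (S_nirr hW.1 h) hγ)
  have id : Irrational (a + γ) := by_contra fun h => h1 (by
    simpa using sub_mem (S_nirr hW'.1 h) hγ')
  have hd := hW.2 _ (add_mem ha hγ) id _ (self_mem_Sp _) 0 (zero_mem _)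
  refine full_of_arc hP.good1 ix (r := 0) ?_
  refine S_circ hP (Finset.univ : Finset (Fin 3)) ![a, b, b + γ] ?_ Finset.univ_nonempty ?_
    (m := ![1, -1, 1]) ?_ (q := 0) (by simp [Fin.sum_univ_three]) hd ix (c := ![1, 1, 0])
    (q' := 0) (by simp [Fin.sum_univ_three])
  · intro l c0 h3
    simp only [Fin.sum_univ_three, Matrix.cons_val_zero, Matrix.cons_val_one,
      Matrix.cons_val_two, Matrix.head_cons, Matrix.tail_cons] at h3
    have h4 : l 0 = 0 := by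
      by_contra h5
      refine h1 (S_mem h5 (y := c0 - ((l 1 : ℝ) * b + (l 2 : ℝ) * (b + γ))) (by linarith) ?_)
      exact sub_mem (S_rat hW'.1 _) (add_mem (rat_mul_mem hb _) (rat_mul_mem (add_mem hb hγ') _))
    rw [h4] at h3
    have h5 : l 1 + l 2 = 0 := by
      by_contra h6
      refine h2 (S_mem h6 (y := c0 - (l 2 : ℝ) * γ) (by push_cast at h3 ⊢; linarith) ?_)
      exact sub_mem (S_rat hW.1 _) (rat_mul_mem hγ _)
    have h6 : (l 1 : ℝ) = -(l 2 : ℝ) := by exact_mod_cast eq_neg_of_add_eq_zero_left h5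
    have h7 : l 2 = 0 := S_irr iγ (c := c0) (by rw [h6] at h3; push_cast at h3; linarith)
    intro j _
    fin_cases j
    exacts [h4, by simpa [h7] using h5, h7]
  · intro j _
    fin_cases j
    exacts [hW.2 _ ha ia, hW'.2 _ hb ib, hW'.2 _ (add_mem hb hγ') ic]
  · intro j _
    fin_cases j <;> simp

theorem S_max (hP : Good P) {γ : ℝ} (iγ : Irrational γ) (hF : Full (D1 P) γ) :
    ∃ W, S_FS P W ∧ γ ∈ W ∧ ∀ W', S_FS P W' → γ ∈ W' → W' ≤ W := by
  have h0 : S_FS P (Sp γ) := ⟨one_mem_Sp γ, fun x hx ix => hF.of_eq (Sp_eq ix hx).symm⟩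
  have hne : ({W | S_FS P W ∧ γ ∈ W} : Set (Submodule ℚ ℝ)).Nonempty := ⟨_, h0, self_mem_Sp γ⟩
  have hdir : DirectedOn (· ≤ ·) ({W | S_FS P W ∧ γ ∈ W} : Set (Submodule ℚ ℝ)) :=
    fun W hW W' hW' => ⟨W ⊔ W', ⟨S_sup hP hW.1 hW'.1 hW.2 hW'.2 iγ, Submodule.mem_sup_left hW.2⟩,
      le_sup_left, le_sup_right⟩
  have hle : ∀ W', S_FS P W' → γ ∈ W' → W' ≤ sSup {W | S_FS P W ∧ γ ∈ W} :=
    fun W' h1 h2 => le_sSup ⟨h1, h2⟩
  refine ⟨_, ⟨hle _ h0 (self_mem_Sp γ) (one_mem_Sp γ), fun x hx ix => ?_⟩,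
    hle _ h0 (self_mem_Sp γ) (self_mem_Sp γ), hle⟩
  obtain ⟨W, hW, hxW⟩ := (Submodule.mem_sSup_of_directed hne hdir).1 hx
  exact hW.1.2 x hxW ix

/-- The classes. -/
def S_I (P : ∀ ι : Type, Set (ι → ℤ) → Prop) : Set (Submodule ℚ ℝ × Submodule ℚ ℝ) :=
  {c | S_FS P c.1 ∧ ∃ γ ∈ c.1, Irrational γ ∧ (∀ W', S_FS P W' → γ ∈ W' → W' ≤ c.1) ∧
    ∀ r, r ∈ c.2 ↔ D1 P {t : ℤ | H (t * γ + r)}}

theorem S_cls (hP : Good P) {c : Submodule ℚ ℝ × Submodule ℚ ℝ} (hc : c ∈ S_I P) {x : ℝ}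
    (hx : x ∈ c.1) (ix : Irrational x) : (∀ W', S_FS P W' → x ∈ W' → W' ≤ c.1) ∧
      ∀ r, r ∈ c.2 ↔ D1 P {t : ℤ | H (t * x + r)} := by
  obtain ⟨h1, γ, hγ, iγ, h2, h3⟩ := hc
  refine ⟨fun W' hW' hxW => le_sup_left.trans
    (h2 _ (S_sup hP hW' h1 hxW hx ix) (Submodule.mem_sup_right hγ)), fun r => ?_⟩
  rw [h3]
  exact ⟨S_tr hP h1 hγ hx iγ ix, S_tr hP h1 hx hγ ix iγ⟩

theorem S_uniq (hP : Good P) {c c' : Submodule ℚ ℝ × Submodule ℚ ℝ} (hc : c ∈ S_I P)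
    (hc' : c' ∈ S_I P) {W : Submodule ℚ ℝ} (hW : S_FS P W) {x x' : ℝ} (hx : x ∈ c.1)
    (hx' : x' ∈ c'.1) (h : x ∈ W) (h' : x' ∈ W) (ix : Irrational x) (ix' : Irrational x') :
    c = c' := by
  have h1 : x ∈ c'.1 := (S_cls hP hc' hx' ix').1 W hW h' h
  obtain ⟨a1, a2⟩ := S_cls hP hc hx ix
  obtain ⟨b1, b2⟩ := S_cls hP hc' h1 ix
  refine Prod.ext (le_antisymm (b1 _ hc.1 hx) (a1 _ hc'.1 h1)) ?_
  ext r
  rw [a2, b2]

theorem S_span {J : Type} (s : Finset J) (w : J → ℝ) : ∃ W : Submodule ℚ ℝ,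
    ∀ x, x ∈ W ↔ ∃ (q : ℚ) (c : J → ℚ), x = q + ∑ j ∈ s, (c j : ℝ) * w j := by
  refine ⟨{ carrier := {x | ∃ (q : ℚ) (c : J → ℚ), x = q + ∑ j ∈ s, (c j : ℝ) * w j}
            add_mem' := ?_
            zero_mem' := ⟨0, 0, by simp⟩
            smul_mem' := ?_ }, fun x => Iff.rfl⟩
  · rintro _ _ ⟨q, c, rfl⟩ ⟨q', c', rfl⟩
    refine ⟨q + q', c + c', ?_⟩
    simp only [Pi.add_apply, Rat.cast_add, add_mul, Finset.sum_add_distrib]
    ring
  · rintro k _ ⟨q, c, rfl⟩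
    refine ⟨k * q, fun j => k * c j, ?_⟩
    simp only [Rat.smul_def, Rat.cast_mul, mul_add, Finset.mul_sum, mul_assoc]

theorem S_indep (hP : Good P) (s : Finset (Submodule ℚ ℝ × Submodule ℚ ℝ)) :
    ∀ w : Submodule ℚ ℝ × Submodule ℚ ℝ → ℝ, (↑s : Set (Submodule ℚ ℝ × Submodule ℚ ℝ)) ⊆ S_I P →
      (∀ c ∈ s, w c ∈ c.1) → ¬ Irrational (∑ c ∈ s, w c) → ∀ c ∈ s, ¬ Irrational (w c) := by
  classical
  induction s using Finset.strongInduction with
  | H s ih =>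
  intro w hs hw hsum c0 hc0 i0
  obtain ⟨q, hq⟩ := not_not.1 hsum
  have hsub : ∀ c, (↑(s.erase c) : Set (Submodule ℚ ℝ × Submodule ℚ ℝ)) ⊆ S_I P :=
    fun c x hx => hs (Finset.mem_of_mem_erase hx)
  have hall : ∀ c ∈ s, Irrational (w c) := by
    intro c hc
    by_contra h
    obtain ⟨q', hq'⟩ := not_not.1 h
    refine ih _ (Finset.erase_ssubset hc) w (hsub c)
      (fun x hx => hw x (Finset.mem_of_mem_erase hx)) (fun h2 => h2 ⟨q - q', ?_⟩) c0
      (Finset.mem_erase.2 ⟨fun h3 => h (h3 ▸ i0), hc0⟩) i0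
    rw [← Finset.add_sum_erase _ _ hc] at hq
    push_cast
    linarith
  rw [← Finset.add_sum_erase _ _ hc0] at hq
  have hne : (s.erase c0).Nonempty := by
    rw [Finset.nonempty_iff_ne_empty]
    intro h
    exact i0 ⟨q, by simpa [h] using hq⟩
  have hδ : w c0 = q + ∑ c ∈ s.erase c0, ((-1 : ℚ) : ℝ) * w c := by
    rw [← Finset.mul_sum]
    push_cast
    linarith
  obtain ⟨W, hW⟩ := S_span (s.erase c0) w
  have hFS : S_FS P W := by
    refine ⟨(hW _).2 ⟨1, 0, by simp⟩, fun x hx ix => ?_⟩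
    obtain ⟨q', c, hx⟩ := (hW x).1 hx
    refine full_of_arc hP.good1 ix (r := 0) (S_circ hP (s.erase c0) w ?_ hne ?_
      (m := fun _ => -1) (fun _ _ => by norm_num) hδ
      ((hs hc0).1.2 _ (hw c0 hc0) i0 _ (self_mem_Sp _) 0 (zero_mem _)) ix hx)
    · intro l k h j hj
      have hj' := Finset.mem_of_mem_erase hj
      have := ih _ (Finset.erase_ssubset hc0) (fun c => (l c : ℝ) * w c) (hsub c0)
        (fun x hx => rat_mul_mem (hw x (Finset.mem_of_mem_erase hx)) _)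
        (fun h2 => h2 ⟨k, h.symm⟩) j hj
      by_contra h3
      exact this ((hall j hj').ratCast_mul h3)
    · intro j hj
      have hj' := Finset.mem_of_mem_erase hj
      exact (hs hj').1.2 _ (hw j hj') (hall j hj')
  obtain ⟨c1, hc1⟩ := hne
  have hc1' := Finset.mem_of_mem_erase hc1
  refine (Finset.mem_erase.1 hc1).1 (S_uniq hP (hs hc1') (hs hc0) hFS (hw c1 hc1') (hw c0 hc0)
    ((hW _).2 ⟨0, fun j => if j = c1 then 1 else 0, ?_⟩) ((hW _).2 ⟨q, fun _ => -1, hδ⟩)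
    (hall c1 hc1') i0)
  simp only [apply_ite (Rat.cast : ℚ → ℝ), ite_mul, Rat.cast_zero, zero_mul]
  rw [Finset.sum_ite_eq', if_pos hc1]
  simp

end

/-- The arcs of a good class come from an independent system. -/
theorem sys_of_good {P : ∀ ι : Type, Set (ι → ℤ) → Prop} (hP : Good P) :
    SysAdm {p : ℝ × ℝ | Irrational p.1 ∧ D1 P {t : ℤ | H (t * p.1 + p.2)}} := by
  refine ⟨S_I P, ⟨fun c hc => ⟨hc.1.1, fun x hx => ?_⟩, fun s w => S_indep hP s w⟩, ?_⟩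
  · obtain ⟨h1, γ, hγ, iγ, -, h3⟩ := hc
    rw [h3]
    by_cases ix : Irrational x
    · exact S_tr hP h1 hx hγ ix iγ (h1.2 x hx ix _ (self_mem_Sp _) _ (self_mem_Sp _))
    · exact h1.2 γ hγ iγ _ (self_mem_Sp _) _ (S_nirr (one_mem_Sp γ) ix)
  · ext p
    refine and_congr_right fun ip => ⟨fun h => ?_, ?_⟩
    · have hF := full_of_arc hP.good1 ip h
      obtain ⟨W, h1, h2, h3⟩ := S_max hP ip hF
      obtain ⟨E, -, -, -, h4⟩ := exists_sub hP.good1 ip hF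
      exact ⟨(W, E), ⟨h1, p.1, h2, ip, h3, h4⟩, h2, (h4 _).2 h⟩
    · rintro ⟨c, hc, h1, h2⟩
      exact ((S_cls hP hc h1 ip).2 _).1 h2

end Pool.Agent.Work.MP_340ce7_lc
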