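import Pool.Agent.Work.MP_340ce7_lc.Gen.M2
import Pool.Agent.Work.MP_340ce7_lc.Gen.Q3
import Pool.Agent.Work.MP_340ce7_lc.Gen.S
import Pool.Agent.Work.MP_340ce7_lc.Gen.R

/-! The lattice of all structures below the expansion by all arcs. -/

namespace Pool.Agent.Work.MP_340ce7_lc

open Set Filter Topology

theorem dt_arc {I : Set Cl} {c : Cl} (hc : c ∈ I) {γ r : ℝ} (hγ : γ ∈ c.1) (hr : r ∈ c.2) :
    D1 (Dt I) {t : ℤ | H (t * γ + r)} := by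
  refine ⟨1, ∅, {⟨c, (LinearMap.proj ()).smulRight γ, r⟩}, one_pos, finite_empty,
    finite_singleton _, fun f hf => hf ▸ ⟨hc, fun x => c.1.smul_mem _ hγ, hr⟩, fun x x' h => ?_⟩
  have e : ∀ y : Unit → ℤ, Fm.ev ⟨c, (LinearMap.proj ()).smulRight γ, r⟩ (cz y) =
      y () * γ + r := fun y => by simp [Fm.ev, cz, Rat.smul_def]
  have := h.frm _ rfl
  rw [e, e] at this
  exact this.1

theorem arc_dt {I : Set Cl} (hI : Sys I) {T : Set (ℝ × ℝ)}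
    (h : ∀ p ∈ T, Irrational p.1 ∧ ∃ c ∈ I, p.1 ∈ c.1 ∧ p.2 ∈ c.2)
    (ι : Type) [Finite ι] (X : Set (ι → ℤ)) (hX : Df (arcStr T) ι X) : Dt I ι X := by
  have g := good_dt hI
  refine arc_sub g (fun p hp => ?_) ι X hX
  obtain ⟨hi, c, hc, h1, h2⟩ := h p hp
  refine ⟨dt_arc hc h1 h2, cyc_of_H g hi ?_⟩
  simpa using dt_arc hc h1 (zero_mem _)

theorem gen_reflect {T T' : Set (ℝ × ℝ)} (hT : SysAdm T) (hT' : SysAdm T')
    (h : Below (arcStr T) (arcStr T')) : T ⊆ T' := by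
  obtain ⟨I, -, e⟩ := hT
  obtain ⟨I', hI', e'⟩ := hT'
  intro p hp
  have hi : Irrational p.1 := by
    rw [e] at hp
    exact hp.1
  have h1 := arc_dt hI' (T := T') (fun q hq => by rwa [e'] at hq) _ _
    (below_iff.1 h _ _ (d1_arc (α := p.1) (r := p.2) hp))
  rw [e']
  exact ⟨hi, mem_of_dt hI' hi h1⟩

theorem gen_classify (M : Str) (h0 : Below (arcStr ∅) M)
    (h1 : Below M (arcStr ({γ | Irrational γ} ×ˢ univ))) :
    ∃ T, SysAdm T ∧ Below M (arcStr T) ∧ Below (arcStr T) M := by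
  have hP : Good (Df M) := good_df (below_iff.1 h0 _ _ (df_add_arc ∅))
  have hdet : ∀ (ι : Type) [Finite ι] (X : Set (ι → ℤ)), Df M ι X →
      Dt {((⊤ : Submodule ℚ ℝ), (⊤ : Submodule ℚ ℝ))} ι X := fun ι _ X hX =>
    arc_dt sys_top (fun p hp => ⟨hp.1, _, rfl, Submodule.mem_top, Submodule.mem_top⟩) ι X
      (below_iff.1 h1 ι X hX)
  have hS := sys_of_good hP
  obtain ⟨I, hI, e⟩ := id hS
  have hT : ∀ γ r : ℝ, Irrational γ →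
      (D1 (Df M) {t : ℤ | H (t * γ + r)} ↔ ∃ c ∈ I, γ ∈ c.1 ∧ r ∈ c.2) := fun γ r hi => by
    have := Set.ext_iff.1 e (γ, r)
    exact ⟨fun h => (this.1 ⟨hi, h⟩).2, fun h => (this.2 ⟨hi, h⟩).2⟩
  refine ⟨_, hS, below_iff.2 (sevenG hP (good_df (df_add_arc _)) hI hdet hT
    fun c hc γ hγ hi r hr => d1_arc ⟨hi, (hT γ r hi).2 ⟨c, hc, hγ, hr⟩⟩),
    below_iff.2 (arc_sub hP fun p hp =>
      ⟨hp.2, cyc_of_full hP hp.1 (self_mem_Sp _) (full_of_arc hP.good1 hp.1 hp.2)⟩)⟩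

theorem gen_main :
    ∃ e : {T : Set (ℝ × ℝ) // SysAdm T} ≃o
      {S : Set (Σ n : ℕ, Set (Fin n → ℤ)) // (∃ M : Str, S = Dfs M) ∧
        Dfs (arcStr ∅) ⊆ S ∧ S ⊆ Dfs (arcStr ({γ | Irrational γ} ×ˢ univ))},
      ∀ T, (e T).1 = Dfs (arcStr T.1) := by
  let φ : {T : Set (ℝ × ℝ) // SysAdm T} ↪o
      {S : Set (Σ n : ℕ, Set (Fin n → ℤ)) // (∃ M : Str, S = Dfs M) ∧
        Dfs (arcStr ∅) ⊆ S ∧ S ⊆ Dfs (arcStr ({γ | Irrational γ} ×ˢ univ))} :=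
    OrderEmbedding.ofMapLEIff (fun T => ⟨Dfs (arcStr T.1), ⟨_, rfl⟩,
      dfs_le.2 (arc_mono (empty_subset _)), dfs_le.2 (arc_mono fun p hp => by
        obtain ⟨I, -, e⟩ := T.2
        rw [e] at hp
        exact ⟨hp.1, trivial⟩)⟩)
      fun T T' => ⟨fun h => gen_reflect T.2 T'.2 (dfs_le.1 h), fun h => dfs_le.2 (arc_mono h)⟩
  refine ⟨RelIso.ofSurjective φ ?_, fun T => rfl⟩
  rintro ⟨S, ⟨M, rfl⟩, h0, h1⟩
  obtain ⟨T, hT, h2, h3⟩ := gen_classify M (dfs_le.1 h0) (dfs_le.1 h1)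
  exact ⟨⟨T, hT⟩, Subtype.ext (Subset.antisymm (dfs_le.2 h3) (dfs_le.2 h2))⟩

end Pool.Agent.Work.MP_340ce7_lc
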